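import Mathlib
import Pool.Agent.XV.Defs
import Pool.Agent.Y700.Sel
import Pool.Agent.Z702.Defs
import Pool.Agent.Z702.Main
import Pool.Agent.Y687.K2.RankForm

/-!
# Project XV, parts T7 (2-descent) and T8 (assembly): statements

`W15 D` is the global minimal equation of the twist of `X_0(15)` by `D = 1 mod 4`; it is isomorphic to
`y² = x (x - 9 D) (x - 25 D)`, that is `Wt (-34 D) (225 D²)`; the isogenous curve is
`y² = x (x + 4 D) (x + 64 D)`. In all statements `D = -pr N`, `N` of class `b` (`pr N = 23, 47 mod 60`).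
-/

set_option autoImplicit false

namespace Pool.Agent.XV.T

open Finset WeierstrassCurve
open Pool.Agent.Z700 (pr)
open Pool.Agent.XV (Pq Kb gen Kr SyM)
open Pool.Agent.Y700 (PC Omega IsL tamProd EQ tam S_E0)
open Pool.Agent.Y668 (Wt selCoc)
open Pool.Agent.Z702 (WZ LocI sh)
open Pool.Agent.TH841.SH.D (Sha)
open Pool.Agent.W97.MT (IsGloballyMinimal)
open Pool.Agent.Y687 (SS RankBSD)

/-- the global minimal equation of the twist of `X_0(15)` by `D = 1 mod 4`; for `D = 1` it is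
`y² + x y + y = x³ + x² - 10 x - 10` -/
def W15 (D : ℤ) : WeierstrassCurve ℤ :=
  ⟨1, (5 * D - 1) / 4, 1, -((19 * D ^ 2 + 1) / 2), -((39 * D ^ 3 + 1) / 4)⟩

/-- the coefficients of `y² = x (x - 9 D) (x - 25 D)` -/
def aD (D : ℤ) : ℤ := -34 * D

/-- the coefficients of `y² = x (x - 9 D) (x - 25 D)` -/
def bD (D : ℤ) : ℤ := 225 * D ^ 2

/-! ### T7: the descent -/

/-- T7-1: the number of the Selmer cocycles, all the points of order two real, `x ≥ 0` on the dual -/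
def S_CS : Prop := ∀ a b : ℤ, 0 < a → 0 < b → 0 < a ^ 2 - 4 * b → ∀ S1 S2 : Set ℤ,
  S1.Finite → S2.Finite →
  (∀ z : ℤ, Squarefree z → (∀ (p : ℕ) [Fact p.Prime], PC a b p z) → z ∈ S1) →
  (∀ z : ℤ, Squarefree z → 0 < z →
    (∀ (p : ℕ) [Fact p.Prime], PC (-2 * a) (a ^ 2 - 4 * b) p z) → z ∈ S2) →
  Finite (selCoc (Wt (a : ℚ) (b : ℚ))) ∧
    Nat.card (selCoc (Wt (a : ℚ) (b : ℚ))) ≤ S1.ncard * S2.ncard

/-- T7-2: four Selmer cocycles, full rational two-torsion and no point of order four -/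
def S_CT : Prop := ∀ r s : ℚ, r ≠ 0 → s ≠ 0 → r ≠ s → ¬ (IsSquare (-r) ∧ IsSquare (-s)) →
  ¬ (IsSquare r ∧ IsSquare (r - s)) → ¬ (IsSquare s ∧ IsSquare (s - r)) →
  Finite (selCoc (Wt (-(r + s)) (r * s))) → Nat.card (selCoc (Wt (-(r + s)) (r * s))) ≤ 4 →
  (∀ x : Sha (Wt (-(r + s)) (r * s)), x + x = 0 → x = 0) ∧
    Finite (Wt (-(r + s)) (r * s)).toAffine.Point ∧
    ∃ k, Odd k ∧ Nat.card (Wt (-(r + s)) (r * s)).toAffine.Point = 4 * k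

/-- T7-2b: the order of the torsion group is four times an odd number -/
def S_TS4 : Prop := ∀ r s : ℚ, r ≠ 0 → s ≠ 0 → r ≠ s → ¬ (IsSquare (-r) ∧ IsSquare (-s)) →
  ¬ (IsSquare r ∧ IsSquare (r - s)) → ¬ (IsSquare s ∧ IsSquare (s - r)) →
  ∃ k : ℕ, Odd k ∧
    Nat.card (AddCommGroup.torsion (Wt (-(r + s)) (r * s)).toAffine.Point) = 4 * k

/-- `p* = ± p = 1 mod 4` -/
def ps (p : ℕ) : ℤ := if p % 4 = 1 then p else -p

/-- the Rédei symbols of the decompositions `D = d₁ d₂` -/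
def genS (N D0 : Finset ℕ) (p : ℕ) : ℤ :=
  if p ∈ D0 then jacobiSym (∏ q ∈ N \ D0, ps q) p else jacobiSym (∏ q ∈ D0, ps q) p

/-- the transposed Rédei kernel is trivial -/
def KrS (N : Finset ℕ) : Prop := ∀ D0 ⊆ N, (∀ p ∈ N, genS N D0 p = 1) → D0 = ∅ ∨ D0 = N

/-- T7-3: the Selmer group of the isogeny, classes of `x` on `y² = x (x - 9 D) (x - 25 D)` -/
def S_S1 : Prop := ∀ N : Finset ℕ, Pq N → Kb (pr N) → ∀ D : ℤ, D = -(pr N : ℤ) →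
  ∀ z : ℤ, Squarefree z → (∀ (p : ℕ) [Fact p.Prime], PC (aD D) (bD D) p z) →
  ∃ D0 ⊆ N, z = ∏ q ∈ D0, ps q ∧ ∀ p ∈ N, genS N D0 p = 1

/-- T7-4: the Selmer group of the dual isogeny, classes of `x` on `y² = x (x + 4 D) (x + 64 D)` -/
def S_S2 : Prop := ∀ N : Finset ℕ, Pq N → Kb (pr N) → ∀ D : ℤ, D = -(pr N : ℤ) →
  ∀ z : ℤ, Squarefree z → 0 < z →
  (∀ (p : ℕ) [Fact p.Prime], PC (-2 * aD D) (aD D ^ 2 - 4 * bD D) p z) →
  ∃ D0 ⊆ N, z = pr D0 ∧ ∀ p ∈ N, gen N D0 p = 1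

/-- T7-5: the two kernels (the matrices are transposed to each other) -/
def S_LIN : Prop := ∀ N : Finset ℕ, Pq N → pr N % 4 = 3 → Kr N → KrS N

/-- T7-6: if there are finitely many rational points, then the classes of the rational points of the
isogenous curve are those of the points of order two -/
def S_TOF : Prop := ∀ N : Finset ℕ, Pq N → Kb (pr N) → ∀ D : ℤ, D = -(pr N : ℤ) → ∀ d : ℤ,
  Finite (WZ (aD D) (bD D)).toAffine.Point → LocI ℚ (aD D) (bD D) d →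
  IsSquare (d : ℚ) ∨ IsSquare ((d : ℚ) * (pr N : ℚ))

/-- T7-7: the elements of the kernel are locally soluble -/
def S_LOC : Prop := ∀ N : Finset ℕ, Pq N → Kb (pr N) → ∀ D : ℤ, D = -(pr N : ℤ) →
  ∀ D0 ⊆ N, (∀ p ∈ N, gen N D0 p = 1) →
  (∀ (p : ℕ) [Fact p.Prime], LocI ℚ_[p] (aD D) (bD D) (pr D0 : ℤ)) ∧
    LocI ℝ (aD D) (bD D) (pr D0 : ℤ)

/-- the primes of good reduction (part of T7-7) -/
def S_LGF : Prop := ∀ (p : ℕ) [Fact p.Prime] (D d : ℤ), p ≠ 2 → p ≠ 3 → p ≠ 5 → ¬ (p : ℤ) ∣ D →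
  ¬ (p : ℤ) ∣ d → LocI ℚ_[p] (aD D) (bD D) d

/-- no Selmer elements -/
def NoS (D : ℤ) : Prop := Finite (WZ (aD D) (bD D)).toAffine.Point ∧
  ∀ x : Sha (WZ (aD D) (bD D)), x + x = 0 → x = 0

/-- T7: the equivalence -/
def S_DSC : Prop := ∀ N : Finset ℕ, Pq N → Kb (pr N) → ∀ D : ℤ, D = -(pr N : ℤ) →
  (Kr N ↔ NoS D)

/-! ### T8: transport, Tamagawa numbers, L-function -/

/-- T8-1: the changes of the equations -/
def S_TRV : Prop := ∀ D : ℤ, D % 4 = 1 →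
  (Finite (WZ (aD D) (bD D)).toAffine.Point ↔ Finite (EQ (W15 D)).toAffine.Point) ∧
  ((∀ x : Sha (WZ (aD D) (bD D)), x + x = 0 → x = 0) ↔
    ∀ x : Sha (EQ (W15 D)), x + x = 0 → x = 0) ∧
  Nat.card (AddCommGroup.torsion (WZ (aD D) (bD D)).toAffine.Point) =
    Nat.card (AddCommGroup.torsion (EQ (W15 D)).toAffine.Point) ∧
  (Finite (WZ (aD D) (bD D)).toAffine.Point ↔
    Finite (sh (-12987 * D ^ 2) (-263466 * D ^ 3)).toAffine.Point) ∧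
  ((∀ x : Sha (WZ (aD D) (bD D)), x + x = 0 → x = 0) ↔
    ∀ x : Sha (sh (-12987 * D ^ 2) (-263466 * D ^ 3)), x + x = 0 → x = 0)

/-- T8-2: the equation is a global minimal one -/
def S_MN15 : Prop := ∀ D : ℤ, D % 4 = 1 → Squarefree D → ¬ (3 : ℤ) ∣ D → ¬ (5 : ℤ) ∣ D →
  IsGloballyMinimal (W15 D) ∧ (W15 D).Δ = 50625 * D ^ 6

/-- T8-3: type `I₀*`, all the points of order two rational -/
def S_TQ : Prop := S_E0 → ∀ (D : ℤ) (q : ℕ) [Fact q.Prime], D % 4 = 1 → q ≠ 2 → q ≠ 3 → q ≠ 5 →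
  (q : ℤ) ∣ D → ¬ ((q : ℤ) ^ 2 ∣ D) → tam (W15 D) q = 4

/-- T8-4: type `I₄` at `3`, non-split: the Tamagawa number is `2` -/
def S_T3 : Prop := S_E0 → ∀ (_ : Fact (Nat.Prime 3)) (D : ℤ), D % 4 = 1 → D % 3 = 1 →
  tam (W15 D) 3 = 2

/-- T8-5: type `I₄` at `5`, non-split: the Tamagawa number is `2` -/
def S_T5 : Prop := S_E0 → ∀ (_ : Fact (Nat.Prime 5)) (D : ℤ), D % 4 = 1 →
  (D % 5 = 2 ∨ D % 5 = 3) → tam (W15 D) 5 = 2

/-- T8-6: the product of the Tamagawa numbers -/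
def S_TMP : Prop := ∀ N : Finset ℕ, Pq N → Kb (pr N) → ∀ D : ℤ, D = -(pr N : ℤ) →
  tamProd (W15 D) = 4 ^ (N.card + 1)

/-- T8-7: the modular side, all `n = 3 mod 4` -/
def S_MOD : Prop := ∃ (s : ℚ → ℤ) (a : ℕ → ℤ) (Om : ℝ), 0 < Om ∧ SyM s a ∧ Odd (s (1 / 4)) ∧
  ∀ n : ℕ, Squarefree n → n % 4 = 3 → Nat.Coprime n 15 → ∃ (f : ℂ → ℂ) (ε : ℤ),
    (ε = 1 ∨ ε = -1) ∧ IsL (W15 (-(n : ℤ))) f ∧
    f 1 = (((ε : ℝ) * (SS s n n : ℝ) * (Om / Real.sqrt n) : ℝ) : ℂ) ∧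
    Omega (W15 (-(n : ℤ))) = 2 * Om / Real.sqrt n

/-- T8-8: the incomplete L-function -/
def S_INC : Prop := ∀ D : ℤ, D % 4 = 1 → D ≠ 0 → ∀ f : ℂ → ℂ, IsL (W15 D) f → f 1 ≠ 0 →
  Finite (sh (-12987 * D ^ 2) (-263466 * D ^ 3)).toAffine.Point →
  RankBSD (-12987 * D ^ 2) (-263466 * D ^ 3)

/-! ### the final statement -/

/-- the 2-part of the conjecture modulo two and the criterion -/
def Full15 (N : Finset ℕ) (D : ℤ) : Prop :=
  IsGloballyMinimal (W15 D) ∧ (∃ f, IsL (W15 D) f) ∧ ∃ y : ℤ,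
    (Odd y ↔ (Finite (EQ (W15 D)).toAffine.Point ∧ ∀ x : Sha (EQ (W15 D)), x + x = 0 → x = 0)) ∧
    (Odd y ↔ Kr N) ∧
    ∀ f, IsL (W15 D) f → (y ≠ 0 → f 1 ≠ 0) ∧ ∃ w : ℚ, w ≠ 0 ∧ padicValRat 2 w = 0 ∧
      f 1 = (((w : ℝ) * (y : ℝ) ^ 2 * (Omega (W15 D) * tamProd (W15 D) /
        (Nat.card (AddCommGroup.torsion (EQ (W15 D)).toAffine.Point) : ℝ) ^ 2) : ℝ) : ℂ)

end Pool.Agent.XV.T
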