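import Mathlib
import Pool.Agent.XV.T.Stm
import Pool.Agent.Z702.Fin

/-!
# Project XV, T8-1: the changes of the equations
-/

set_option autoImplicit false

namespace Pool.Agent.XV.T

open WeierstrassCurve
open Pool.Agent.Y700 (EQ VR)
open Pool.Agent.Y668 (Wt)
open Pool.Agent.Z702 (WZ sh)
open Pool.Agent.TH841.SH.D (Sha)

namespace Trv

theorem q2 {D : ℤ} (hD : D % 4 = 1) : (((5 * D - 1) / 4 : ℤ) : ℚ) = (5 * D - 1) / 4 := by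
  obtain ⟨k, rfl⟩ : ∃ k, D = 4 * k + 1 := ⟨D / 4, by omega⟩
  have : (5 * (4 * k + 1) - 1) / 4 = 5 * k + 1 := by omega
  rw [this]
  push_cast
  ring

theorem q4 {D : ℤ} (hD : D % 4 = 1) :
    ((-((19 * D ^ 2 + 1) / 2) : ℤ) : ℚ) = -((19 * D ^ 2 + 1) / 2) := by
  obtain ⟨k, rfl⟩ : ∃ k, D = 4 * k + 1 := ⟨D / 4, by omega⟩
  have : (19 * (4 * k + 1) ^ 2 + 1) / 2 = 152 * k ^ 2 + 76 * k + 10 := by
    rw [show 19 * (4 * k + 1) ^ 2 + 1 = 2 * (152 * k ^ 2 + 76 * k + 10) by ring]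
    exact Int.mul_ediv_cancel_left _ (by norm_num)
  rw [this]
  push_cast
  ring

theorem q6 {D : ℤ} (hD : D % 4 = 1) :
    ((-((39 * D ^ 3 + 1) / 4) : ℤ) : ℚ) = -((39 * D ^ 3 + 1) / 4) := by
  obtain ⟨k, rfl⟩ : ∃ k, D = 4 * k + 1 := ⟨D / 4, by omega⟩
  have : (39 * (4 * k + 1) ^ 3 + 1) / 4 = 624 * k ^ 3 + 468 * k ^ 2 + 117 * k + 10 := by
    rw [show 39 * (4 * k + 1) ^ 3 + 1 = 4 * (624 * k ^ 3 + 468 * k ^ 2 + 117 * k + 10) by ring]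
    exact Int.mul_ediv_cancel_left _ (by norm_num)
  rw [this]
  push_cast
  ring

/-- the change of equations -/
theorem vr_W15 {D : ℤ} (hD : D % 4 = 1) :
    VR (WZ (aD D) (bD D)) (EQ (W15 D)) 2 (13 * D) 1 4 := by
  refine ⟨two_ne_zero, ?_, ?_, ?_, ?_, ?_⟩
  · show (2 : ℚ) * ((1 : ℤ) : ℚ) = 0 + 2 * 1
    norm_num
  · show (2 : ℚ) ^ 2 * (((5 * D - 1) / 4 : ℤ) : ℚ) =
      ((-34 * D : ℤ) : ℚ) - 1 * 0 + 3 * (13 * D) - 1 ^ 2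
    rw [q2 hD]
    push_cast
    ring
  · show (2 : ℚ) ^ 3 * ((1 : ℤ) : ℚ) = 0 + (13 * D) * 0 + 2 * 4
    norm_num
  · show (2 : ℚ) ^ 4 * ((-((19 * D ^ 2 + 1) / 2) : ℤ) : ℚ) = ((225 * D ^ 2 : ℤ) : ℚ) - 1 * 0 +
      2 * (13 * D) * ((-34 * D : ℤ) : ℚ) - (4 + (13 * D) * 1) * 0 + 3 * (13 * (D : ℚ)) ^ 2 - 2 * 1 * 4
    rw [q4 hD]
    push_cast
    ring
  · show (2 : ℚ) ^ 6 * ((-((39 * D ^ 3 + 1) / 4) : ℤ) : ℚ) = 0 +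
        (13 * D) * ((225 * D ^ 2 : ℤ) : ℚ) + (13 * D) ^ 2 * ((-34 * D : ℤ) : ℚ) +
        (13 * (D : ℚ)) ^ 3 - 4 * 0 - 4 ^ 2 - (13 * D) * 4 * 0
    rw [q6 hD]
    push_cast
    ring

/-- the change to the short equation -/
theorem vr_sh15 (D : ℤ) :
    VR (WZ (aD D) (bD D)) (sh (-12987 * D ^ 2) (-263466 * D ^ 3)) (1 / 3) (34 * D / 3) 0 0 := by
  refine ⟨by norm_num, ?_, ?_, ?_, ?_, ?_⟩
  · show (1 / 3 : ℚ) * 0 = 0 + 2 * 0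
    norm_num
  · show (1 / 3 : ℚ) ^ 2 * 0 = ((-34 * D : ℤ) : ℚ) - 0 * 0 + 3 * (34 * D / 3) - 0 ^ 2
    push_cast
    ring
  · show (1 / 3 : ℚ) ^ 3 * 0 = 0 + (34 * D / 3) * 0 + 2 * 0
    ring
  · show (1 / 3 : ℚ) ^ 4 * ((-12987 * D ^ 2 : ℤ) : ℚ) = ((225 * D ^ 2 : ℤ) : ℚ) - 0 * 0 +
      2 * (34 * D / 3) * ((-34 * D : ℤ) : ℚ) - (0 + (34 * D / 3) * 0) * 0 +
      3 * (34 * (D : ℚ) / 3) ^ 2 - 2 * 0 * 0
    push_cast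
    ring
  · show (1 / 3 : ℚ) ^ 6 * ((-263466 * D ^ 3 : ℤ) : ℚ) = 0 +
      (34 * D / 3) * ((225 * D ^ 2 : ℤ) : ℚ) + (34 * D / 3) ^ 2 * ((-34 * D : ℤ) : ℚ) +
      (34 * (D : ℚ) / 3) ^ 3 - 0 * 0 - 0 ^ 2 - (34 * D / 3) * 0 * 0
    push_cast
    ring

end Trv

open Trv in
/-- **T8-1** -/
theorem t_TRV : S_TRV := by
  intro D hD
  have hT := Pool.Agent.Z702.f_TRN
  have hD0 : D ≠ 0 := by omega
  have hDQ : (D : ℚ) ≠ 0 := by exact_mod_cast hD0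
  have e1 : (EQ (W15 D)).Δ ≠ 0 := by
    have h6 : (EQ (W15 D)).Δ = (((W15 D).Δ : ℤ) : ℚ) := by
      show ((W15 D).map (Int.castRingHom ℚ)).Δ = _
      rw [WeierstrassCurve.map_Δ]
      rfl
    have h7 : (W15 D).Δ ≠ 0 := by
      obtain ⟨k, rfl⟩ : ∃ k, D = 4 * k + 1 := ⟨D / 4, by omega⟩
      have h1 : (5 * (4 * k + 1) - 1) / 4 = 5 * k + 1 := by omega
      have h2 : (19 * (4 * k + 1) ^ 2 + 1) / 2 = 152 * k ^ 2 + 76 * k + 10 := by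
        rw [show 19 * (4 * k + 1) ^ 2 + 1 = 2 * (152 * k ^ 2 + 76 * k + 10) by ring]
        exact Int.mul_ediv_cancel_left _ (by norm_num)
      have h3 : (39 * (4 * k + 1) ^ 3 + 1) / 4 = 624 * k ^ 3 + 468 * k ^ 2 + 117 * k + 10 := by
        rw [show 39 * (4 * k + 1) ^ 3 + 1 = 4 * (624 * k ^ 3 + 468 * k ^ 2 + 117 * k + 10) by ring]
        exact Int.mul_ediv_cancel_left _ (by norm_num)
      have h4 : (W15 (4 * k + 1)).Δ = 50625 * (4 * k + 1) ^ 6 := by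
        unfold W15
        rw [h1, h2, h3]
        simp only [WeierstrassCurve.Δ, WeierstrassCurve.b₂, WeierstrassCurve.b₄,
          WeierstrassCurve.b₆, WeierstrassCurve.b₈]
        ring
      rw [h4]
      exact mul_ne_zero (by norm_num) (pow_ne_zero _ hD0)
    rw [h6]
    exact_mod_cast h7
  have e2 : (sh (-12987 * D ^ 2) (-263466 * D ^ 3)).Δ ≠ 0 := by
    have h8 : (sh (-12987 * D ^ 2) (-263466 * D ^ 3)).Δ =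
        -(8 * 0 - 0 ) + (-64 * (-12987 * (D : ℚ) ^ 2) ^ 3 - 432 * (-263466 * (D : ℚ) ^ 3) ^ 2) := by
      simp only [sh, WeierstrassCurve.Δ, WeierstrassCurve.b₂, WeierstrassCurve.b₄,
        WeierstrassCurve.b₆, WeierstrassCurve.b₈]
      push_cast
      ring
    have h9 : -(8 * 0 - 0 ) + (-64 * (-12987 * (D : ℚ) ^ 2) ^ 3 -
        432 * (-263466 * (D : ℚ) ^ 3) ^ 2) = (64 * 12987 ^ 3 - 432 * 263466 ^ 2) * (D : ℚ) ^ 6 := by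
      ring
    rw [h8, h9]
    exact mul_ne_zero (by norm_num) (pow_ne_zero _ hDQ)
  obtain ⟨a1, a2, a3⟩ := hT _ _ _ _ _ _ (vr_W15 hD) e1
  obtain ⟨b1, b2, -⟩ := hT _ _ _ _ _ _ (vr_sh15 D) e2
  exact ⟨a1, a2, a3, b1, b2⟩

end Pool.Agent.XV.T
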