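import Pool.Agent.XV.T.Stm
import Pool.Agent.Z702.Fin

/-!
# XV-T7: the equivalence from the parts
-/

set_option autoImplicit false
set_option linter.style.haveILetI false

namespace Pool.Agent.XV.T

open Finset WeierstrassCurve
open Pool.Agent.Z700 (pr)
open Pool.Agent.XV (Pq Kb gen Kr SyM)
open Pool.Agent.Y700 (PC Omega IsL tamProd EQ tam S_E0)
open Pool.Agent.Y668 (Wt selCoc)
open Pool.Agent.Z702 (WZ LocI sh coc S_COC S_LOT S_COB)
open Pool.Agent.TH841.SH.D

theorem pr_ne {N : Finset ℕ} (hN : Pq N) : 0 < pr N :=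
  Finset.prod_pos fun p hp => (hN p hp).1.pos

theorem pr_sqf {N : Finset ℕ} (hN : ∀ p ∈ N, p.Prime) : Squarefree (pr N) := by
  unfold pr
  apply Finset.squarefree_prod_of_pairwise_isCoprime
  · intro p hp q hq hpq
    exact Nat.coprime_iff_isRelPrime.1 ((Nat.coprime_primes (hN p hp) (hN q hq)).2 hpq)
  · intro p hp
    exact (hN p hp).prime.squarefree

/-- a product of different primes is a rational square only if it is empty -/
theorem pr_nsq {J : Finset ℕ} (hJ : ∀ p ∈ J, p.Prime) (h : IsSquare ((pr J : ℕ) : ℚ)) : J = ∅ := by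
  by_contra hne
  refine Pool.Agent.Z702.ns_J hJ (Finset.nonempty_iff_ne_empty.2 hne) ?_
  push_cast
  exact h

/-- the local conditions give an element of `Ш[2]`; general form -/
theorem sha_ex' (h1 : Pool.Agent.Z702.S_COC) (h2 : Pool.Agent.Z702.S_LOT)
    (h3 : Pool.Agent.Z702.S_COB) {a b d : ℤ} (hb : b ≠ 0)
    (hab : a ^ 2 - 4 * b ≠ 0) (hd : d ≠ 0) (n1 : ¬ IsSquare (d : ℚ))
    (n2 : ¬ IsSquare ((d : ℚ) * ((a : ℚ) ^ 2 - 4 * b))) (n3 : ¬ LocI ℚ a b d)
    (hl : ∀ (p : ℕ) [Fact p.Prime], LocI ℚ_[p] a b d) (hr : LocI ℝ a b d) :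
    ∃ x : Sha (WZ a b), x ≠ 0 ∧ x + x = 0 := by
  have hc : coc hb d ∈ shaCoc (WZ a b) := ⟨(h1 a b hb d).1,
    fun p _ => h2 a b hb d hab hd ℚ_[p] (hl p), h2 a b hb d hab hd ℝ hr⟩
  let N : AddSubgroup (shaCoc (WZ a b)) := (cob (WZ a b)).addSubgroupOf (shaCoc (WZ a b))
  let y : shaCoc (WZ a b) := ⟨coc hb d, hc⟩
  refine ⟨(QuotientAddGroup.mk y : shaCoc (WZ a b) ⧸ N), ?_, ?_⟩
  · intro h0
    have h0' : (QuotientAddGroup.mk y : shaCoc (WZ a b) ⧸ N) = 0 := h0
    rw [QuotientAddGroup.eq_zero_iff, AddSubgroup.mem_addSubgroupOf] at h0'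
    rcases h3 a b hb d hab hd h0' with h | h | h
    · exact n1 h
    · exact n2 h
    · exact n3 h
  · have h5 : (QuotientAddGroup.mk (y + y) : shaCoc (WZ a b) ⧸ N) = 0 := by
      rw [QuotientAddGroup.eq_zero_iff, AddSubgroup.mem_addSubgroupOf]
      have h6 : ((y + y : shaCoc (WZ a b)) : Coch (WZ a b)) = 0 := (h1 a b hb d).2
      rw [h6]
      exact cob_zero _
    exact h5

theorem ps_prod {N : Finset ℕ} (hN : Pq N) : (∏ q ∈ N, ps q) =
    if pr N % 4 = 1 then (pr N : ℤ) else -(pr N : ℤ) := by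
  induction N using Finset.induction_on with
  | empty => simp [pr]
  | insert a s ha ih =>
    have h1 := hN a (mem_insert_self a s)
    have h2 : Pq s := fun p hp => hN p (mem_insert_of_mem hp)
    have e : pr (insert a s) = a * pr s := by
      unfold pr
      rw [Finset.prod_insert ha]
    rw [Finset.prod_insert ha, ih h2, e]
    have ha2 : a % 2 = 1 := by
      rcases h1.1.eq_two_or_odd with h | h
      · exact absurd h h1.2.1
      · exact h
    have hs2 : pr s % 2 = 1 := by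
      have : Odd (pr s) := Finset.prod_induction _ Odd (fun _ _ ha hb => ha.mul hb) odd_one
        fun p hp => (h2 p hp).1.odd_of_ne_two (h2 p hp).2.1
      exact Nat.odd_iff.1 this
    have h4 : a * pr s % 4 = (a % 4) * (pr s % 4) % 4 := Nat.mul_mod _ _ _
    have c1 : a % 4 = 1 ∨ a % 4 = 3 := by omega
    have c2 : pr s % 4 = 1 ∨ pr s % 4 = 3 := by omega
    unfold ps
    rcases c1 with c1 | c1 <;> rcases c2 with c2 | c2 <;> rw [c1, c2] at h4 <;> norm_num at h4 <;>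
      simp [c1, c2, h4]

/-- the finiteness and `Ш[2^∞] = 0` -/
theorem kr_nos (h1 : S_CS) (h2 : S_CT) (h3 : S_S1) (h4 : S_S2) (h5 : S_LIN) {N : Finset ℕ}
    (hN : Pq N) (hb : Kb (pr N)) {D : ℤ} (hD : D = -(pr N : ℤ)) (hk : Kr N) :
    (∀ x : Sha (WZ (aD D) (bD D)), x + x = 0 → x = 0) ∧ Finite (WZ (aD D) (bD D)).toAffine.Point ∧
      ∃ k, Odd k ∧ Nat.card (WZ (aD D) (bD D)).toAffine.Point = 4 * k := by
  have hp : 1 < pr N := by unfold Kb at hb; omega
  have hm4 : pr N % 4 = 3 := by unfold Kb at hb; omega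
  have hDneg : D < 0 := by omega
  have hD0 : D ≠ 0 := hDneg.ne
  have hD2 : 0 < D ^ 2 := by positivity
  have ha : 0 < aD D := by unfold aD; omega
  have hbb : 0 < bD D := by unfold bD; positivity
  have hab : 0 < aD D ^ 2 - 4 * bD D := by
    have : aD D ^ 2 - 4 * bD D = 256 * D ^ 2 := by unfold aD bD; ring
    rw [this]; positivity
  have hDp : (∏ q ∈ N, ps q) = D := by
    rw [ps_prod hN, if_neg (by omega), hD]
  obtain ⟨f1, f2⟩ := h1 (aD D) (bD D) ha hbb hab {1, D} {1, -D} (Set.toFinite _) (Set.toFinite _)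
    (by
      intro z hz hpc
      obtain ⟨D0, hs, hz0, hg⟩ := h3 N hN hb D hD z hz hpc
      rcases h5 N hN hm4 hk D0 hs hg with h | h
      · left; rw [hz0, h, Finset.prod_empty]
      · right; rw [Set.mem_singleton_iff, hz0, h, hDp])
    (by
      intro z hz hz0' hpc
      obtain ⟨D0, hs, hz0, hg⟩ := h4 N hN hb D hD z hz hz0' hpc
      rcases hk D0 hs hg with h | h
      · left; rw [hz0, h]; rfl
      · right; rw [Set.mem_singleton_iff, hz0, h, hD]; ring)
  have f3 : Nat.card (selCoc (Wt ((aD D : ℤ) : ℚ) ((bD D : ℤ) : ℚ))) ≤ 4 := by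
    refine f2.trans ?_
    rw [Set.ncard_pair (by omega), Set.ncard_pair (by omega)]
  have e1 : ((aD D : ℤ) : ℚ) = -(9 * (D : ℚ) + 25 * (D : ℚ)) := by unfold aD; push_cast; ring
  have e2 : ((bD D : ℤ) : ℚ) = 9 * (D : ℚ) * (25 * (D : ℚ)) := by unfold bD; push_cast; ring
  have hDq : (D : ℚ) < 0 := by exact_mod_cast hDneg
  have e3 : (D : ℚ) = -(pr N : ℚ) := by rw [hD]; push_cast; ring
  show (∀ x : Sha (Wt ((aD D : ℤ) : ℚ) ((bD D : ℤ) : ℚ)), x + x = 0 → x = 0) ∧
    Finite (Wt ((aD D : ℤ) : ℚ) ((bD D : ℤ) : ℚ)).toAffine.Point ∧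
    ∃ k, Odd k ∧ Nat.card (Wt ((aD D : ℤ) : ℚ) ((bD D : ℤ) : ℚ)).toAffine.Point = 4 * k
  rw [e1, e2] at f1 f3 ⊢
  refine h2 (9 * (D : ℚ)) (25 * (D : ℚ)) (by linarith) (by linarith) (by intro h; linarith) ?_ ?_ ?_
    f1 f3
  · rintro ⟨⟨r, hr⟩, -⟩
    have h6 : IsSquare ((pr N : ℕ) : ℚ) := by
      refine ⟨r / 3, ?_⟩
      have : (pr N : ℚ) = -(9 * (D : ℚ)) / 9 := by rw [e3]; ring
      rw [this, hr]
      ring
    have h7 := pr_nsq (fun p hp => (hN p hp).1) h6
    rw [h7] at hp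
    norm_num [pr] at hp
  · rintro ⟨⟨r, hr⟩, -⟩
    nlinarith [mul_self_nonneg r]
  · rintro ⟨⟨r, hr⟩, -⟩
    nlinarith [mul_self_nonneg r]

/-- **the equivalence** -/
theorem dsc_of (h1 : S_CS) (h2 : S_CT) (h3 : S_S1) (h4 : S_S2) (h5 : S_LIN) (h6 : S_TOF)
    (h7 : S_LOC) : S_DSC := by
  intro N hN hb D hD
  constructor
  · intro hk
    obtain ⟨g1, g2, -⟩ := kr_nos h1 h2 h3 h4 h5 hN hb hD hk
    exact ⟨g2, g1⟩
  · rintro ⟨g1, g2⟩ D0 hs hg
    have hp : 0 < pr N := pr_ne hN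
    have hDneg : D < 0 := by omega
    have hD0' : D ≠ 0 := hDneg.ne
    have hD2 : 0 < D ^ 2 := by positivity
    have hbb : bD D ≠ 0 := by unfold bD; positivity
    have hab : aD D ^ 2 - 4 * bD D ≠ 0 := by
      have : aD D ^ 2 - 4 * bD D = 256 * D ^ 2 := by unfold aD bD; ring
      rw [this]; positivity
    have hJ : ∀ p ∈ D0, p.Prime := fun p hp => (hN p (hs hp)).1
    have hd0 : 0 < pr D0 := Finset.prod_pos fun p hp => (hJ p hp).pos
    obtain ⟨l1, l2⟩ := h7 N hN hb D hD D0 hs hg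
    have hcast : (((pr D0 : ℕ) : ℤ) : ℚ) = ((pr D0 : ℕ) : ℚ) := by push_cast; rfl
    have hsq : IsSquare (((pr D0 : ℕ) : ℤ) : ℚ) → D0 = ∅ ∨ D0 = N := by
      intro h
      rw [hcast] at h
      exact Or.inl (pr_nsq hJ h)
    by_cases hL : LocI ℚ (aD D) (bD D) (pr D0 : ℤ)
    · rcases h6 N hN hb D hD (pr D0 : ℤ) g1 hL with h | h
      · exact hsq h
      · right
        rw [hcast] at h
        obtain ⟨r, hr⟩ := h
        have h8 : pr N = pr D0 * pr (N \ D0) := by
          unfold pr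
          rw [mul_comm, Finset.prod_sdiff hs]
        have h9 : IsSquare ((pr (N \ D0) : ℕ) : ℚ) := by
          have hq : ((pr D0 : ℕ) : ℚ) ≠ 0 := by exact_mod_cast hd0.ne'
          refine ⟨r / (pr D0 : ℚ), ?_⟩
          have h10 : ((pr N : ℕ) : ℚ) = (pr D0 : ℚ) * (pr (N \ D0) : ℚ) := by
            rw [h8]; push_cast; ring
          rw [h10] at hr
          field_simp
          linear_combination hr
        have h11 := pr_nsq (fun p hp => (hN p (Finset.sdiff_subset hp)).1) h9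
        exact Finset.Subset.antisymm hs (Finset.sdiff_eq_empty_iff_subset.1 h11)
    · by_cases hn1 : IsSquare (((pr D0 : ℕ) : ℤ) : ℚ)
      · exact hsq hn1
      · exfalso
        obtain ⟨x, hx0, hx2⟩ := sha_ex' Pool.Agent.Z702.f_COC Pool.Agent.Z702.f_LOT
          Pool.Agent.Z702.f_COB hbb hab (d := (pr D0 : ℤ)) (by exact_mod_cast hd0.ne') hn1 (by
            intro h
            apply hn1
            obtain ⟨r, hr⟩ := h
            have hDq : (D : ℚ) ≠ 0 := by exact_mod_cast hDneg.ne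
            refine ⟨r / (16 * D), ?_⟩
            have e : ((aD D : ℤ) : ℚ) ^ 2 - 4 * ((bD D : ℤ) : ℚ) = (16 * (D : ℚ)) ^ 2 := by
              unfold aD bD; push_cast; ring
            rw [e] at hr
            field_simp
            linear_combination hr) hL l1 l2
        exact hx0 (g2 x hx2)

end Pool.Agent.XV.T
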