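import Pool.Agent.XV.T.Stm

/-!
Project XV, T7-5: the two Rédei matrices are transposed to each other.
-/

set_option autoImplicit false

namespace Pool.Agent.XV.T.LIN

open Finset
open Pool.Agent.Z700 (pr)
open Pool.Agent.XV (Pq gen Kr)
open Pool.Agent.XV.T

/-- the additive version of a sign -/
def lg (x : ℤ) : ZMod 2 := if x = 1 then 0 else 1

theorem lg_eq_zero {x : ℤ} : lg x = 0 ↔ x = 1 := by
  unfold lg
  split_ifs with h
  · exact ⟨fun _ => h, fun _ => rfl⟩
  · exact ⟨fun h1 => absurd h1 (by decide), fun h1 => absurd h1 h⟩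

theorem lg_mul {x y : ℤ} (hx : x = 1 ∨ x = -1) (hy : y = 1 ∨ y = -1) : lg (x * y) = lg x + lg y := by
  rcases hx with rfl | rfl <;> rcases hy with rfl | rfl <;> decide

theorem lg_prod (a : ℕ → ℤ) (p : ℕ) (S : Finset ℕ)
    (h : ∀ q ∈ S, jacobiSym (a q) p = 1 ∨ jacobiSym (a q) p = -1) :
    (jacobiSym (∏ q ∈ S, a q) p = 1 ∨ jacobiSym (∏ q ∈ S, a q) p = -1) ∧
    lg (jacobiSym (∏ q ∈ S, a q) p) = ∑ q ∈ S, lg (jacobiSym (a q) p) := by
  classical
  induction S using Finset.induction_on with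
  | empty =>
    rw [prod_empty, jacobiSym.one_left, sum_empty]
    exact ⟨Or.inl rfl, rfl⟩
  | insert q S hq ih =>
    obtain ⟨h1, h2⟩ := ih fun r hr => h r (mem_insert_of_mem hr)
    have h3 := h q (mem_insert_self q S)
    rw [prod_insert hq, sum_insert hq, jacobiSym.mul_left, lg_mul h3 h1, h2]
    refine ⟨?_, rfl⟩
    rcases h3 with e3 | e3 <;> rcases h1 with e1 | e1 <;> rw [e3, e1] <;> norm_num

/-- the entries away from the diagonal -/
def Lm (a : ℕ → ℤ) (p q : ℕ) : ZMod 2 := if q = p then 0 else lg (jacobiSym (a q) p)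

/-- the matrix -/
def Mt (N : Finset ℕ) (a : ℕ → ℤ) : Matrix N N (ZMod 2) := fun p q =>
  Lm a p q + if p = q then ∑ r ∈ N, Lm a p r else 0

/-- the characteristic vector -/
def ind {N : Finset ℕ} (D0 : Finset ℕ) : N → ZMod 2 := fun q => if (q : ℕ) ∈ D0 then 1 else 0

/-- the symbols of a subset -/
def G (a : ℕ → ℤ) (N D0 : Finset ℕ) (p : ℕ) : ℤ :=
  if p ∈ D0 then jacobiSym (∏ q ∈ N \ D0, a q) p else jacobiSym (∏ q ∈ D0, a q) p

theorem mulVec_eq (N : Finset ℕ) (a : ℕ → ℤ) (v : N → ZMod 2) (p : N) :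
    (Mt N a).mulVec v p = ∑ q : N, Lm a p q * (v q + v p) := by
  unfold Mt Matrix.mulVec dotProduct
  have h1 : ∀ q : N, (Lm a p q + if p = q then ∑ r ∈ N, Lm a p r else 0) * v q =
      Lm a p q * v q + if p = q then (∑ r ∈ N, Lm a p r) * v q else 0 := by
    intro q
    split_ifs <;> ring
  rw [Finset.sum_congr rfl fun q _ => h1 q, Finset.sum_add_distrib, Finset.sum_ite_eq,
    if_pos (mem_univ p), ← Finset.sum_coe_sort N (fun r => Lm a p r), Finset.sum_mul,
    ← Finset.sum_add_distrib]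
  refine Finset.sum_congr rfl fun q _ => ?_
  ring

theorem key (N : Finset ℕ) (a : ℕ → ℤ)
    (ha : ∀ p ∈ N, ∀ q ∈ N, q ≠ p → jacobiSym (a q) p = 1 ∨ jacobiSym (a q) p = -1)
    (D0 : Finset ℕ) (hD : D0 ⊆ N) (p : N) :
    (Mt N a).mulVec (ind D0) p = lg (G a N D0 p) := by
  rw [mulVec_eq]
  have h1 : (∑ q : N, Lm a p q * (ind D0 q + ind D0 p)) =
      ∑ q ∈ N, Lm a p q * ((if q ∈ D0 then 1 else 0) + (if (p : ℕ) ∈ D0 then 1 else 0)) :=
    Finset.sum_coe_sort N (fun q => Lm a p q * ((if q ∈ D0 then 1 else 0) +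
      (if (p : ℕ) ∈ D0 then 1 else 0)))
  rw [h1]
  unfold G
  by_cases hp : (p : ℕ) ∈ D0
  · rw [if_pos hp, if_pos hp]
    have h2 : ∀ q ∈ N \ D0, q ≠ (p : ℕ) := by
      intro q hq h
      exact (mem_sdiff.1 hq).2 (h ▸ hp)
    rw [(lg_prod a p (N \ D0) fun q hq =>
      ha p p.2 q (mem_sdiff.1 hq).1 (h2 q hq)).2]
    rw [← Finset.sum_subset (sdiff_subset : N \ D0 ⊆ N)]
    · refine Finset.sum_congr rfl fun q hq => ?_
      unfold Lm
      rw [if_neg (h2 q hq), if_neg (mem_sdiff.1 hq).2, zero_add, mul_one]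
    · intro q hq hq'
      have : q ∈ D0 := by
        by_contra h
        exact hq' (mem_sdiff.2 ⟨hq, h⟩)
      rw [if_pos this]
      have e : (1 : ZMod 2) + 1 = 0 := by decide
      rw [e, mul_zero]
  · rw [if_neg hp, if_neg hp]
    have h2 : ∀ q ∈ D0, q ≠ (p : ℕ) := by
      intro q hq h
      exact hp (h ▸ hq)
    rw [(lg_prod a p D0 fun q hq => ha p p.2 q (hD hq) (h2 q hq)).2]
    rw [← Finset.sum_subset hD]
    · refine Finset.sum_congr rfl fun q hq => ?_
      unfold Lm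
      rw [if_neg (h2 q hq), if_pos hq, add_zero, mul_one]
    · intro q hq hq'
      rw [if_neg hq', add_zero, mul_zero]

theorem vec_eq {N : Finset ℕ} (v : N → ZMod 2) : ∃ D0 ⊆ N, v = ind D0 := by
  classical
  refine ⟨(univ.filter fun q : N => v q = 1).map (Function.Embedding.subtype fun q => q ∈ N),
    ?_, ?_⟩
  · intro q hq
    rw [mem_map] at hq
    obtain ⟨r, -, rfl⟩ := hq
    exact r.2
  · funext q
    unfold ind
    have hiff : ((q : ℕ) ∈ (univ.filter fun q : N => v q = 1).map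
        (Function.Embedding.subtype fun q => q ∈ N)) ↔ v q = 1 := by
      rw [mem_map]
      constructor
      · rintro ⟨r, hr, hrq⟩
        have : r = q := Subtype.ext hrq
        rw [← this]
        exact (mem_filter.1 hr).2
      · intro h
        exact ⟨q, mem_filter.2 ⟨mem_univ _, h⟩, rfl⟩
    by_cases h : v q = 1
    · rw [if_pos (hiff.2 h), h]
    · rw [if_neg fun h' => h (hiff.1 h')]
      have : ∀ a : ZMod 2, a ≠ 1 → a = 0 := by decide
      exact this _ h

/-- the triviality of the kernel in terms of subsets -/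
def Tr (a : ℕ → ℤ) (N : Finset ℕ) : Prop :=
  ∀ D0 ⊆ N, (∀ p ∈ N, G a N D0 p = 1) → D0 = ∅ ∨ D0 = N

theorem ker_iff (N : Finset ℕ) (a : ℕ → ℤ)
    (ha : ∀ p ∈ N, ∀ q ∈ N, q ≠ p → jacobiSym (a q) p = 1 ∨ jacobiSym (a q) p = -1)
    (D0 : Finset ℕ) (hD : D0 ⊆ N) : (Mt N a).mulVec (ind D0) = 0 ↔ ∀ p ∈ N, G a N D0 p = 1 := by
  constructor
  · intro h p hp
    have h1 := congrFun h ⟨p, hp⟩
    rw [key N a ha D0 hD] at h1
    exact lg_eq_zero.1 h1
  · intro h
    funext p
    rw [key N a ha D0 hD]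
    exact lg_eq_zero.2 (h p p.2)

theorem ind_self {N : Finset ℕ} : (ind N : N → ZMod 2) = 1 := by
  funext q
  unfold ind
  rw [if_pos q.2]
  rfl

theorem ind_empty {N : Finset ℕ} : (ind ∅ : N → ZMod 2) = 0 := by
  funext q
  unfold ind
  rw [if_neg (notMem_empty _)]
  rfl

theorem one_mem (N : Finset ℕ) (a : ℕ → ℤ)
    (ha : ∀ p ∈ N, ∀ q ∈ N, q ≠ p → jacobiSym (a q) p = 1 ∨ jacobiSym (a q) p = -1) :
    (Mt N a).mulVec 1 = 0 := by
  rw [← ind_self, ker_iff N a ha N Subset.rfl]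
  intro p hp
  unfold G
  rw [if_pos hp, Finset.sdiff_self, prod_empty, jacobiSym.one_left]

theorem zmod2 : ∀ c : ZMod 2, c = 0 ∨ c = 1 := by decide

/-- two transposed matrices with the vector `1` in both kernels -/
theorem transfer (N : Finset ℕ) (hN : N.Nonempty) (A : Matrix N N (ZMod 2))
    (h1 : A.mulVec 1 = 0) (h2 : A.transpose.mulVec 1 = 0)
    (h : ∀ v, A.mulVec v = 0 → v = 0 ∨ v = 1) :
    ∀ v, A.transpose.mulVec v = 0 → v = 0 ∨ v = 1 := by
  classical
  have k1 := LinearMap.finrank_range_add_finrank_ker A.mulVecLin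
  have k2 := LinearMap.finrank_range_add_finrank_ker A.transpose.mulVecLin
  rw [Module.finrank_fintype_fun_eq_card] at k1 k2
  have e1 : A.rank = Module.finrank (ZMod 2) (LinearMap.range A.mulVecLin) := rfl
  have e2 : A.transpose.rank =
    Module.finrank (ZMod 2) (LinearMap.range A.transpose.mulVecLin) := rfl
  rw [Matrix.rank_transpose] at e2
  have e3 : Module.finrank (ZMod 2) (LinearMap.ker A.mulVecLin) =
      Module.finrank (ZMod 2) (LinearMap.ker A.transpose.mulVecLin) := by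
    omega
  have m1 : (1 : N → ZMod 2) ∈ LinearMap.ker A.mulVecLin := by
    rw [LinearMap.mem_ker, Matrix.mulVecLin_apply]
    exact h1
  have m2 : (1 : N → ZMod 2) ∈ LinearMap.ker A.transpose.mulVecLin := by
    rw [LinearMap.mem_ker, Matrix.mulVecLin_apply]
    exact h2
  have e4 : Module.finrank (ZMod 2) (LinearMap.ker A.mulVecLin) ≤ 1 := by
    refine finrank_le_one (⟨1, m1⟩ : LinearMap.ker A.mulVecLin) fun w => ?_
    have hw : A.mulVec w.1 = 0 := by
      have := w.2
      rw [LinearMap.mem_ker, Matrix.mulVecLin_apply] at this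
      exact this
    rcases h w.1 hw with h0 | h0
    · exact ⟨0, by rw [zero_smul]; exact Subtype.ext h0.symm⟩
    · exact ⟨1, by rw [one_smul]; exact Subtype.ext h0.symm⟩
  rw [e3] at e4
  obtain ⟨v0, hv0⟩ := finrank_le_one_iff.1 e4
  have hne : (⟨1, m2⟩ : LinearMap.ker A.transpose.mulVecLin) ≠ 0 := by
    intro h0
    obtain ⟨q, hq⟩ := hN
    have h1 : (1 : ZMod 2) = 0 := congrFun (congrArg Subtype.val h0) ⟨q, hq⟩
    exact absurd h1 (by decide)
  have h01 : ∀ c : ZMod 2, c = 0 ∨ c = 1 := zmod2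
  have hv : v0 = ⟨1, m2⟩ := by
    obtain ⟨c, hc⟩ := hv0 ⟨1, m2⟩
    rcases h01 c with rfl | rfl
    · rw [zero_smul] at hc
      exact absurd hc.symm hne
    · rw [one_smul] at hc
      exact hc
  intro v hv'
  have mv : v ∈ LinearMap.ker A.transpose.mulVecLin := by
    rw [LinearMap.mem_ker, Matrix.mulVecLin_apply]
    exact hv'
  obtain ⟨c, hc⟩ := hv0 ⟨v, mv⟩
  rcases h01 c with rfl | rfl
  · rw [zero_smul] at hc
    exact Or.inl (congrArg Subtype.val hc).symm
  · rw [one_smul, hv] at hc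
    exact Or.inr (congrArg Subtype.val hc).symm

theorem tr_iff (N : Finset ℕ) (a : ℕ → ℤ)
    (ha : ∀ p ∈ N, ∀ q ∈ N, q ≠ p → jacobiSym (a q) p = 1 ∨ jacobiSym (a q) p = -1) :
    Tr a N ↔ ∀ v, (Mt N a).mulVec v = 0 → v = 0 ∨ v = 1 := by
  constructor
  · intro h v hv
    obtain ⟨D0, hD, rfl⟩ := vec_eq v
    rcases h D0 hD ((ker_iff N a ha D0 hD).1 hv) with h0 | h0
    · exact Or.inl (by rw [h0, ind_empty])
    · exact Or.inr (by rw [h0, ind_self])
  · intro h D0 hD hG
    rcases h _ ((ker_iff N a ha D0 hD).2 hG) with h0 | h0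
    · left
      rw [eq_empty_iff_forall_notMem]
      intro q hq
      have h1 : ind D0 (⟨q, hD hq⟩ : N) = 0 := congrFun h0 ⟨q, hD hq⟩
      unfold ind at h1
      rw [if_pos hq] at h1
      have h2 : (1 : ZMod 2) ≠ 0 := by decide
      exact h2 h1
    · right
      refine Subset.antisymm hD fun q hq => ?_
      by_contra hcon
      have h1 : ind D0 (⟨q, hq⟩ : N) = 1 := congrFun h0 ⟨q, hq⟩
      unfold ind at h1
      rw [if_neg hcon] at h1
      have h2 : (0 : ZMod 2) ≠ 1 := by decide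
      exact h2 h1

/-! ### arithmetic -/

theorem sym_pm {p q : ℕ} (hp : p.Prime) (hq : q.Prime) (h : q ≠ p) {x : ℤ} (hx : x.natAbs = q) :
    jacobiSym x p = 1 ∨ jacobiSym x p = -1 := by
  have h1 : x.gcd p = 1 := by
    rw [Int.gcd_eq_natAbs, hx, Int.natAbs_natCast]
    exact (Nat.coprime_primes hq hp).2 h
  exact jacobiSym.eq_one_or_neg_one h1

theorem ps_natAbs (q : ℕ) : (ps q).natAbs = q := by
  unfold ps
  split_ifs
  · exact Int.natAbs_natCast q
  · rw [Int.natAbs_neg, Int.natAbs_natCast]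

theorem ps_mod {q : ℕ} (hq : q % 2 = 1) : ps q % 4 = 1 := by
  unfold ps
  split_ifs <;> omega

theorem prod_ps_mod (S : Finset ℕ) (h : ∀ q ∈ S, q % 2 = 1) : (∏ q ∈ S, ps q) % 4 = 1 := by
  classical
  induction S using Finset.induction_on with
  | empty => rfl
  | insert q S hq ih =>
    rw [prod_insert hq, Int.mul_emod, ps_mod (h q (mem_insert_self q S)),
      ih fun r hr => h r (mem_insert_of_mem hr)]
    rfl

theorem natAbs_prod (S : Finset ℕ) : (∏ q ∈ S, ps q).natAbs = pr S := by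
  classical
  unfold pr
  induction S using Finset.induction_on with
  | empty => rfl
  | insert q S hq ih =>
    rw [prod_insert hq, prod_insert hq, Int.natAbs_mul, ih, ps_natAbs]

theorem reci {p q : ℕ} (hp : p % 2 = 1) (hq : q % 2 = 1) : jacobiSym (ps q) p = jacobiSym p q := by
  have hpo : Odd p := Nat.odd_iff.2 hp
  have hqo : Odd q := Nat.odd_iff.2 hq
  unfold ps
  split_ifs with h
  · rw [jacobiSym.quadratic_reciprocity_one_mod_four h hpo]
  · have h3 : q % 4 = 3 := by omega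
    have h1 : p % 4 = 1 ∨ p % 4 = 3 := by omega
    rw [jacobiSym.neg _ hpo]
    rcases h1 with h1 | h1
    · rw [ZMod.χ₄_nat_one_mod_four h1, one_mul,
        jacobiSym.quadratic_reciprocity_one_mod_four' hqo h1]
    · rw [ZMod.χ₄_nat_three_mod_four h1,
        jacobiSym.quadratic_reciprocity_three_mod_four h3 h1]
      ring

theorem diag (N : Finset ℕ) (hN : Pq N) (h4 : pr N % 4 = 3) {p : ℕ} (hp : p ∈ N) :
    jacobiSym (∏ q ∈ N.erase p, ps q) p = jacobiSym (∏ q ∈ N.erase p, (q : ℤ)) p := by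
  have hodd : ∀ q ∈ N, q % 2 = 1 := by
    intro q hq
    obtain ⟨h1, h2, -, -⟩ := hN q hq
    exact (h1.eq_two_or_odd).resolve_left h2
  have hpo : Odd p := Nat.odd_iff.2 (hodd p hp)
  have h1 : ((∏ q ∈ N.erase p, (q : ℤ)) : ℤ) = ((pr (N.erase p) : ℕ) : ℤ) := by
    unfold pr
    push_cast
    rfl
  have h2 := natAbs_prod (N.erase p)
  have h3 := prod_ps_mod (N.erase p) fun q hq => hodd q (mem_of_mem_erase hq)
  have h5 : pr N = p * pr (N.erase p) := by
    unfold pr
    exact (Finset.mul_prod_erase N (fun q => q) hp).symm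
  rw [h1]
  set B := ∏ q ∈ N.erase p, ps q
  set A := pr (N.erase p)
  have h6 : B = A ∨ B = -(A : ℤ) := by
    rcases Int.natAbs_eq B with h | h
    · left; rw [h, h2]
    · right; rw [h, h2]
  rcases h6 with h6 | h6
  · rw [h6]
  · have hA : A % 4 = 3 := by omega
    have hp1 : p % 4 = 1 := by
      rw [h5, Nat.mul_mod, hA] at h4
      have h7 := hodd p hp
      have h8 : p % 4 = 1 ∨ p % 4 = 3 := by omega
      rcases h8 with h8 | h8
      · exact h8
      · rw [h8] at h4
        norm_num at h4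
    rw [h6, jacobiSym.neg _ hpo, ZMod.χ₄_nat_one_mod_four hp1, one_mul]

theorem main : S_LIN := by
  intro N hN h4 hK
  classical
  have hodd : ∀ q ∈ N, q % 2 = 1 := by
    intro q hq
    obtain ⟨h1, h2, -, -⟩ := hN q hq
    exact (h1.eq_two_or_odd).resolve_left h2
  have hne : N.Nonempty := by
    rw [nonempty_iff_ne_empty]
    rintro rfl
    unfold pr at h4
    rw [prod_empty] at h4
    norm_num at h4
  have ha : ∀ p ∈ N, ∀ q ∈ N, q ≠ p → jacobiSym ((fun r : ℕ => (r : ℤ)) q) p = 1 ∨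
      jacobiSym ((fun r : ℕ => (r : ℤ)) q) p = -1 := by
    intro p hp q hq h
    exact sym_pm (hN p hp).1 (hN q hq).1 h (Int.natAbs_natCast q)
  have hb : ∀ p ∈ N, ∀ q ∈ N, q ≠ p → jacobiSym (ps q) p = 1 ∨ jacobiSym (ps q) p = -1 := by
    intro p hp q hq h
    exact sym_pm (hN p hp).1 (hN q hq).1 h (ps_natAbs q)
  -- the first kernel
  have e1 : Tr (fun r : ℕ => (r : ℤ)) N := by
    intro D0 hD h
    refine hK D0 hD fun p hp => ?_
    have h1 := h p hp
    unfold G at h1
    unfold gen pr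
    push_cast
    exact h1
  rw [tr_iff N _ ha] at e1
  -- transposed matrices
  have e2 : Mt N ps = (Mt N (fun r : ℕ => (r : ℤ))).transpose := by
    ext p q
    rw [Matrix.transpose_apply]
    unfold Mt
    have hL : ∀ p q : N, Lm ps p q = Lm (fun r : ℕ => (r : ℤ)) q p := by
      intro p q
      unfold Lm
      by_cases h : (q : ℕ) = p
      · rw [if_pos h, if_pos h.symm]
      · rw [if_neg h, if_neg (Ne.symm h), reci (hodd p p.2) (hodd q q.2)]
    rw [hL p q]
    congr 1
    by_cases h : p = q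
    · subst h
      rw [if_pos rfl, if_pos rfl]
      have hS : ∀ a : ℕ → ℤ, (∀ p ∈ N, ∀ q ∈ N, q ≠ p → jacobiSym (a q) p = 1 ∨
          jacobiSym (a q) p = -1) →
          ∑ r ∈ N, Lm a p r = lg (jacobiSym (∏ q ∈ N.erase p, a q) p) := by
        intro a hal
        rw [(lg_prod a p (N.erase p) fun q hq => hal p p.2 q (mem_of_mem_erase hq)
          (ne_of_mem_erase hq)).2, ← Finset.add_sum_erase N _ p.2]
        have h0 : Lm a p p = 0 := by
          unfold Lm
          rw [if_pos rfl]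
        rw [h0, zero_add]
        refine Finset.sum_congr rfl fun q hq => ?_
        unfold Lm
        rw [if_neg (ne_of_mem_erase hq)]
      rw [hS ps hb, hS (fun r : ℕ => (r : ℤ)) ha, diag N hN h4 p.2]
    · rw [if_neg h, if_neg (Ne.symm h)]
  have e3 := transfer N hne (Mt N (fun r : ℕ => (r : ℤ))) (one_mem N _ ha)
    (by rw [← e2]; exact one_mem N _ hb) e1
  rw [← e2, ← tr_iff N _ hb] at e3
  intro D0 hD h
  refine e3 D0 hD fun p hp => ?_
  exact h p hp

end Pool.Agent.XV.T.LIN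

namespace Pool.Agent.XV.T

theorem t_LIN : S_LIN := LIN.main

end Pool.Agent.XV.T
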