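import Pool.Agent.XV.T.Stm
import Pool.Agent.Y545.Z702.Tor

/-!
Project XV, T7-6: classes of the rational points of the isogenous curve, if there are finitely many
rational points.
-/

set_option autoImplicit false

namespace Pool.Agent.XV.T.TOF

open WeierstrassCurve Pool.Agent.Y668
open Pool.Agent.Y545.Z702 (ns_of fin_iso)

/-- the double of a point: all the three differences are squares -/
lemma dbl {e f X Y : ℚ} (h : (Wt (e + f) (e * f)).toAffine.Nonsingular X Y)
    (Q : (Wt (e + f) (e * f)).toAffine.Point) (hQ : Q + Q = Affine.Point.some X Y h) :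
    IsSquare X ∧ IsSquare (X + e) ∧ IsSquare (X + f) := by
  cases Q with
  | zero =>
    exfalso
    have h1 : (0 : (Wt (e + f) (e * f)).toAffine.Point) + 0 = Affine.Point.some X Y h := hQ
    rw [add_zero] at h1
    exact Affine.Point.some_ne_zero _ h1.symm
  | some x y hn =>
    have q1 := Wt_eqn.mp hn.1
    by_cases hneg : y = (Wt (e + f) (e * f)).toAffine.negY x y
    · exfalso
      rw [Affine.Point.add_of_Y_eq rfl hneg] at hQ
      exact Affine.Point.some_ne_zero _ hQ.symm
    · rw [Affine.Point.add_self_of_Y_ne hneg] at hQ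
      injection hQ with hX0 hY0
      clear hY0
      have hy0 : y ≠ 0 := by
        intro h
        apply hneg
        simp only [Affine.negY, Wt]
        rw [h]; ring
      have h2y : 2 * y ≠ 0 := mul_ne_zero two_ne_zero hy0
      generalize hs : (Wt (e + f) (e * f)).toAffine.slope x x y y = s at hX0
      have hslope : s * (2 * y) = 3 * x ^ 2 + 2 * (e + f) * x + e * f := by
        rw [← hs, Affine.slope_of_Y_ne rfl hneg]
        simp only [Affine.negY, Wt]
        have e3' : y - (-y - 0 * x - 0) = 2 * y := by ring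
        rw [e3', div_mul_cancel₀ _ h2y]
        ring
      have hX : (Wt (e + f) (e * f)).toAffine.addX x x s = s ^ 2 - (e + f) - 2 * x := by
        simp only [Affine.addX, Wt]; ring
      have hX1 : X = s ^ 2 - (e + f) - 2 * x := by
        rw [← hX]
        exact hX0.symm
      have h5 : (s * (2 * y)) ^ 2 = (3 * x ^ 2 + 2 * (e + f) * x + e * f) ^ 2 := by rw [hslope]
      have gen : ∀ u v : ℚ, (X + u) * (2 * y) ^ 2 = v ^ 2 → IsSquare (X + u) := by
        intro u v huv
        refine ⟨v / (2 * y), ?_⟩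
        rw [div_mul_div_comm, ← sq, ← sq, ← huv, mul_div_assoc, div_self (pow_ne_zero 2 h2y),
          mul_one]
      refine ⟨?_, ?_, ?_⟩
      · have := gen 0 (x ^ 2 - e * f) (by
          rw [hX1]
          linear_combination h5 + (-4 * (e + f) - 8 * x) * q1)
        simpa using this
      · exact gen e (x ^ 2 + 2 * e * x + e * f) (by
          rw [hX1]
          linear_combination h5 + (4 * e - 4 * (e + f) - 8 * x) * q1)
      · exact gen f (x ^ 2 + 2 * f * x + e * f) (by
          rw [hX1]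
          linear_combination h5 + (4 * f - 4 * (e + f) - 8 * x) * q1)

/-- the points killed by two -/
lemma two_tor {e f : ℚ} (Q : (Wt (e + f) (e * f)).toAffine.Point) (hQ : Q + Q = 0) :
    Q = 0 ∨ ∃ x, ∃ h : (Wt (e + f) (e * f)).toAffine.Nonsingular x 0,
      Q = Affine.Point.some x 0 h ∧ (x = 0 ∨ x = -e ∨ x = -f) := by
  cases Q with
  | zero => left; rfl
  | some x y hn =>
    right
    have h1 : (Affine.Point.some x y hn : (Wt (e + f) (e * f)).toAffine.Point) =
        -Affine.Point.some x y hn := eq_neg_of_add_eq_zero_left hQ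
    rw [Affine.Point.neg_some] at h1
    have h2 : y = (Wt (e + f) (e * f)).toAffine.negY x y := by
      simpa using h1
    have h3 : y = 0 := by
      simp only [Affine.negY, Wt] at h2
      linarith
    subst h3
    refine ⟨x, hn, rfl, ?_⟩
    have h4 := Wt_eqn.mp hn.1
    have h5 : x * ((x + e) * (x + f)) = 0 := by linear_combination -h4
    rcases mul_eq_zero.1 h5 with h6 | h6
    · exact Or.inl h6
    · rcases mul_eq_zero.1 h6 with h7 | h7
      · exact Or.inr (Or.inl (by linarith))
      · exact Or.inr (Or.inr (by linarith))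

/-- every point is the sum of a point killed by two and of the double of a point -/
lemma split {G : Type*} [AddCommGroup G] [Finite G]
    (h : ∀ P : G, P + P = 0 → (∃ Q, Q + Q = P) → P = 0) (P : G) :
    ∃ T Q : G, T + T = 0 ∧ P = T + (Q + Q) := by
  let f : G →+ G := AddMonoidHom.id _ + AddMonoidHom.id _
  have hfa : ∀ Q, f Q = Q + Q := fun Q => rfl
  let g : f.range → f.range := fun R => ⟨f R, ⟨R, rfl⟩⟩
  have hg : Function.Injective g := by
    intro R S hRS
    have h1 : f (R : G) = f (S : G) := congrArg Subtype.val hRS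
    have h2 : ((R : G) - S) + ((R : G) - S) = 0 := by
      rw [hfa, hfa] at h1
      have : ((R : G) - S) + ((R : G) - S) = ((R : G) + R) - ((S : G) + S) := by abel
      rw [this, h1, sub_self]
    have h3 : (R : G) - S = 0 := by
      apply h _ h2
      obtain ⟨U, hU⟩ := (R - S).2
      exact ⟨U, by rw [← hfa, hU]; rfl⟩
    exact Subtype.ext (sub_eq_zero.1 h3)
  have hs : Function.Surjective g := Finite.surjective_of_injective hg
  obtain ⟨R, hR⟩ := hs ⟨f P, ⟨P, rfl⟩⟩
  have h1 : f (R : G) = f P := congrArg Subtype.val hR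
  obtain ⟨Q, hQ⟩ := R.2
  refine ⟨P - R, Q, ?_, ?_⟩
  · rw [hfa, hfa] at h1
    have : (P - (R : G)) + (P - (R : G)) = (P + P) - ((R : G) + R) := by abel
    rw [this, h1, sub_self]
  · rw [← hfa, hQ]
    abel

/-- the classes of the points -/
lemma cls {D n X Y : ℚ} (hD : D < 0) (hn : D = -n) (hns : ¬ IsSquare n)
    (hf : Finite (Wt (4 * D + 64 * D) (4 * D * (64 * D))).toAffine.Point)
    (h : (Wt (4 * D + 64 * D) (4 * D * (64 * D))).toAffine.Nonsingular X Y) (hX : X ≠ 0) :
    IsSquare X ∨ IsSquare (X * n) := by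
  have hD0 : D ≠ 0 := hD.ne
  have hn0 : n ≠ 0 := by
    rintro rfl
    exact hD0 (by rw [hn, neg_zero])
  have hC : 4 * D * (64 * D) ≠ 0 :=
    mul_ne_zero (mul_ne_zero (by norm_num) hD0) (mul_ne_zero (by norm_num) hD0)
  have key : ∀ P : (Wt (4 * D + 64 * D) (4 * D * (64 * D))).toAffine.Point, P + P = 0 →
      (∃ Q, Q + Q = P) → P = 0 := by
    intro P hP ⟨Q, hQ⟩
    rcases two_tor P hP with h0 | ⟨x, hx, hPx, h3⟩
    · exact h0
    · exfalso
      rw [hPx] at hQ
      obtain ⟨h4, h5, h6⟩ := dbl hx Q hQ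
      rcases h3 with rfl | rfl | rfl
      · have := h5.nonneg
        linarith
      · have := h6.nonneg
        linarith
      · apply hns
        obtain ⟨r, hr⟩ := h4
        refine ⟨r / 8, ?_⟩
        have : n = r * r / 64 := by rw [← hr, hn]; ring
        rw [this]
        ring
  obtain ⟨T, Q, hT, hTQ⟩ := split key (Affine.Point.some X Y h)
  have h1 := al_add (two_ne_zero (α := ℚ)) Q Q
  have h3 := al_add (two_ne_zero (α := ℚ)) T (Q + Q)
  have hal : al (4 * D + 64 * D) (4 * D * (64 * D)) (Affine.Point.some X Y h) = X := by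
    rw [al_some]
    simp [hX]
  rw [← hTQ, hal] at h3
  obtain ⟨s, hs⟩ := h1
  obtain ⟨t, ht⟩ := h3
  set α := al (4 * D + 64 * D) (4 * D * (64 * D)) Q
  set β := al (4 * D + 64 * D) (4 * D * (64 * D)) (Q + Q)
  have hα : α ≠ 0 := al_ne hC Q
  have hβ : β ≠ 0 := al_ne hC (Q + Q)
  set τ := al (4 * D + 64 * D) (4 * D * (64 * D)) T with hτ
  have hXτ : IsSquare (X * τ) := by
    refine ⟨s * t / (α * β), ?_⟩
    field_simp
    linear_combination (X * τ * β) * hs + s * s * ht
  have fin : ∀ w z : ℚ, z ≠ 0 → τ = w * z ^ 2 → IsSquare (X * w) := by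
    intro w z hz hw
    obtain ⟨r, hr⟩ := hXτ
    refine ⟨r / z, ?_⟩
    rw [hw] at hr
    field_simp
    linear_combination hr
  rcases two_tor T hT with h0 | ⟨x, hx, hPx, h3⟩
  · left
    have : τ = 1 * 1 ^ 2 := by rw [hτ, h0, al_zero]; norm_num
    simpa using fin 1 1 one_ne_zero this
  · rcases h3 with h3 | h3 | h3
    · left
      have : τ = 1 * (16 * D) ^ 2 := by
        rw [hτ, hPx, al_some, if_pos h3]; ring
      simpa using fin 1 (16 * D) (mul_ne_zero (by norm_num) hD0) this
    · right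
      have hx0 : x ≠ 0 := by
        rw [h3]
        exact neg_ne_zero.2 (mul_ne_zero (by norm_num) hD0)
      exact fin n 2 two_ne_zero (by rw [hτ, hPx, al_some, if_neg hx0, h3, hn]; ring)
    · right
      have hx0 : x ≠ 0 := by
        rw [h3]
        exact neg_ne_zero.2 (mul_ne_zero (by norm_num) hD0)
      exact fin n 8 (by norm_num) (by rw [hτ, hPx, al_some, if_neg hx0, h3, hn]; ring)

end Pool.Agent.XV.T.TOF

namespace Pool.Agent.XV.T

open WeierstrassCurve Pool.Agent.Y668
open Pool.Agent.Z700 (pr)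
open Pool.Agent.Z702 (WZ LocI)
open Pool.Agent.Y545.Z702 (ns_of fin_iso)

/-- T7-6 -/
theorem t_TOF : S_TOF := by
  intro N hN hK D hD d hfin hloc
  obtain ⟨X, Y, r, hX, hY, hXd⟩ := hloc
  have hpr : (pr N) % 4 = 3 := by
    rcases hK with h | h <;> omega
  have hpos : 0 < pr N := by
    rcases Nat.eq_zero_or_pos (pr N) with h | h
    · rw [h] at hpr; omega
    · exact h
  have hDq : (D : ℚ) = -((pr N : ℕ) : ℚ) := by rw [hD]; push_cast; ring
  have hneg : (D : ℚ) < 0 := by
    rw [hDq]
    have : (0 : ℚ) < (pr N : ℕ) := by exact_mod_cast hpos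
    linarith
  have hD0 : (D : ℚ) ≠ 0 := hneg.ne
  have hns : ¬ IsSquare ((pr N : ℕ) : ℚ) := by
    rw [Rat.isSquare_natCast_iff]
    rintro ⟨m, hm⟩
    have h4 : m % 4 = 0 ∨ m % 4 = 1 ∨ m % 4 = 2 ∨ m % 4 = 3 := by omega
    have : (m * m) % 4 = 3 := by rw [← hm]; exact hpr
    rw [Nat.mul_mod] at this
    rcases h4 with h | h | h | h <;> rw [h] at this <;> norm_num at this
  have hb : ((bD D : ℤ) : ℚ) ≠ 0 := by
    unfold bD
    push_cast
    exact mul_ne_zero (by norm_num) (pow_ne_zero 2 hD0)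
  have hc : ((aD D : ℤ) : ℚ) ^ 2 - 4 * ((bD D : ℤ) : ℚ) = 4 * (D : ℚ) * (64 * D) := by
    unfold aD bD
    push_cast
    ring
  have ha : -2 * ((aD D : ℤ) : ℚ) = 4 * (D : ℚ) + 64 * D := by
    unfold aD
    push_cast
    ring
  have hC : 4 * (D : ℚ) * (64 * D) ≠ 0 :=
    mul_ne_zero (mul_ne_zero (by norm_num) hD0) (mul_ne_zero (by norm_num) hD0)
  have hf := fin_iso hb (by rw [hc]; exact hC) hfin
  rw [hc, ha] at hf
  have hY' : Y ^ 2 = X ^ 3 + (4 * (D : ℚ) + 64 * D) * X ^ 2 + (4 * (D : ℚ) * (64 * D)) * X := by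
    rw [hY, ← hc, ← ha]; ring
  have hE : (4 * (D : ℚ) + 64 * D) ^ 2 - 4 * (4 * (D : ℚ) * (64 * D)) ≠ 0 := by
    have : (4 * (D : ℚ) + 64 * D) ^ 2 - 4 * (4 * (D : ℚ) * (64 * D)) = 3600 * D ^ 2 := by ring
    rw [this]
    exact mul_ne_zero (by norm_num) (pow_ne_zero 2 hD0)
  have hn := ns_of hC hE hY'
  have hr : r ≠ 0 := by
    rintro rfl
    apply hX
    rw [hXd]; ring
  have sq_of : ∀ u : ℚ, IsSquare (X * u) → IsSquare ((d : ℚ) * u) := by
    rintro u ⟨s, hs⟩
    refine ⟨s / r, ?_⟩
    rw [hXd] at hs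
    field_simp
    linear_combination hs
  rcases TOF.cls hneg hDq hns hf hn hX with h | h
  · left
    simpa using sq_of 1 (by simpa using h)
  · right
    exact sq_of _ h

end Pool.Agent.XV.T
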