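import Pool.Agent.Y700.Sel
import Pool.Agent.XV.T.Stm

/-!
T7-1: the number of the Selmer cocycles, all the points of order two real.
-/

set_option autoImplicit false

namespace Pool.Agent.XV.T

open WeierstrassCurve

open scoped Classical

open Pool.Agent.W262.SH (QB Pt act IsCoc IsCob LocTriv shaCoc cob Sha)
open Pool.Agent.TH841.SH Pool.Agent.Y668 Pool.Agent.Y700

theorem t_CS : S_CS := by
  intro a b ha0 hb0 hab0 S1 S2 hf1 hf2 h1 h2
  have hb : b ≠ 0 := hb0.ne'
  have hab' : a ^ 2 - 4 * b ≠ 0 := hab0.ne'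
  have qb : (b : ℚ) ≠ 0 := by exact_mod_cast hb
  have qab : (a : ℚ) ^ 2 - 4 * (b : ℚ) ≠ 0 := by exact_mod_cast hab'
  obtain ⟨e1, e2, hp12, hR, hne⟩ := exists_roots QB (a : ℚ) (b : ℚ)
  obtain ⟨n1, n2, n12⟩ := hne qb qab
  refine card_selCoc hR n1 n2 n12 hf1 hf2 ?_ ?_
  · intro f hf z hz hse
    obtain ⟨s, hs⟩ := IsAlgClosed.exists_pow_nat_eq ((z : ℤ) : QB) (n := 2) (by norm_num)
    apply h1 z hz
    intro p _
    obtain ⟨x, y, hy, hxy, hsq⟩ := loc_z1 (K := ℚ_[p]) (Ω := AlgebraicClosure ℚ_[p])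
      two_ne_zero qb qab f hf.2.1 (hf.2.2.2.1 p) (exists_S p hb hab') z s hs (hse s hs)
    refine ⟨x, y, hy, ?_, hsq⟩
    rw [hxy, map_intCast, map_intCast]
  · intro f hf hX z hz hse
    obtain ⟨s, hs⟩ := IsAlgClosed.exists_pow_nat_eq ((z : ℤ) : QB) (n := 2) (by norm_num)
    have k1 : (-2 : ℚ) * (a : ℚ) = ((-2 * a : ℤ) : ℚ) := by push_cast; ring
    have k2 : (a : ℚ) ^ 2 - 4 * (b : ℚ) = ((a ^ 2 - 4 * b : ℤ) : ℚ) := by push_cast; ring
    apply h2 z hz
    · obtain ⟨x, y, hy, hxy, r, hr⟩ := loc_z2 (K := ℝ) (Ω := AlgebraicClosure ℝ) two_ne_zero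
        qb qab f hf.2.1 hX hf.2.2.2.2 (exists_SR hb hab') z s hs (hse s hs)
      rw [k1, k2, map_intCast, map_intCast] at hxy
      push_cast at hxy
      have haR : (0 : ℝ) < a := by exact_mod_cast ha0
      have habR : 0 < (a : ℝ) ^ 2 - 4 * b := by exact_mod_cast hab0
      have hx : 0 < x := by
        have h4 : 0 < y ^ 2 := by positivity
        by_contra hx0
        have hx1 : x ≤ 0 := not_lt.1 hx0
        have h5 : x ^ 3 + (-2 * (a : ℝ)) * x ^ 2 + ((a : ℝ) ^ 2 - 4 * b) * x ≤ 0 := by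
          have e1 : x ^ 3 ≤ 0 := by
            have : x ^ 3 = x * x ^ 2 := by ring
            rw [this]
            exact mul_nonpos_of_nonpos_of_nonneg hx1 (sq_nonneg x)
          have e2 : (-2 * (a : ℝ)) * x ^ 2 ≤ 0 :=
            mul_nonpos_of_nonpos_of_nonneg (by linarith) (sq_nonneg x)
          have e3 : ((a : ℝ) ^ 2 - 4 * b) * x ≤ 0 :=
            mul_nonpos_of_nonneg_of_nonpos habR.le hx1
          linarith
        rw [hxy] at h4
        linarith
      have h5 : 0 ≤ x * (z : ℝ) := by rw [hr]; exact mul_self_nonneg r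
      have h6 : (0 : ℝ) ≤ z := by
        by_contra hneg
        push Not at hneg
        have := mul_neg_of_pos_of_neg hx hneg
        linarith
      have h7 : z ≠ 0 := hz.ne_zero
      have h8 : 0 ≤ z := by exact_mod_cast h6
      omega
    · intro p _
      obtain ⟨x, y, hy, hxy, hsq⟩ := loc_z2 (K := ℚ_[p]) (Ω := AlgebraicClosure ℚ_[p]) two_ne_zero
        qb qab f hf.2.1 hX (hf.2.2.2.1 p) (exists_S p hb hab') z s hs (hse s hs)
      refine ⟨x, y, hy, ?_, hsq⟩
      rw [hxy]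
      rw [k1, k2, map_intCast, map_intCast]

end Pool.Agent.XV.T
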