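import Pool.Agent.XV.T.Part
import Pool.Agent.XV.T.CS
import Pool.Agent.XV.MT.OM15

/-!
# Project XV: the final statement, unconditionally
-/

set_option autoImplicit false

namespace Pool.Agent.XV.T

/-- **the final statement** for all the `D = -n`, `n` squarefree, `n ≡ 23, 47 mod 60` -/
theorem out : S_OUT := part t_CS MT.t_OM15

end Pool.Agent.XV.T
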