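import Pool.Agent.XV.T.Dsc

/-!
# XV-T8: the 2-part and the rank form from the parts
-/

set_option autoImplicit false
set_option linter.style.haveILetI false

namespace Pool.Agent.XV.T

open Finset WeierstrassCurve
open Pool.Agent.Z700 (pr)
open Pool.Agent.XV (Pq Kb gen Kr SyM vec S5)
open Pool.Agent.Y700 (PC Omega IsL tamProd EQ tam S_E0)
open Pool.Agent.Y668 (Wt selCoc)
open Pool.Agent.Z702 (WZ LocI sh)
open Pool.Agent.TH841.SH.D
open Pool.Agent.W97.MT (IsGloballyMinimal)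
open Pool.Agent.Y687 (SS RankBSD)

theorem torsion_of (hT : S_TRV) (hTor : S_TS4) {N : Finset ℕ} (hN : Pq N) (hb : Kb (pr N)) {D : ℤ}
    (hD : D = -(pr N : ℤ)) : ∃ k : ℕ, Odd k ∧
      Nat.card (AddCommGroup.torsion (EQ (W15 D)).toAffine.Point) = 4 * k := by
  have hp : 1 < pr N := by unfold Kb at hb; omega
  have hm4 : D % 4 = 1 := by unfold Kb at hb; omega
  have hDneg : D < 0 := by omega
  have hDq : (D : ℚ) < 0 := by exact_mod_cast hDneg
  have e3 : (D : ℚ) = -(pr N : ℚ) := by rw [hD]; push_cast; ring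
  have e1 : ((aD D : ℤ) : ℚ) = -(9 * (D : ℚ) + 25 * (D : ℚ)) := by unfold aD; push_cast; ring
  have e2 : ((bD D : ℤ) : ℚ) = 9 * (D : ℚ) * (25 * (D : ℚ)) := by unfold bD; push_cast; ring
  obtain ⟨-, -, h3, -, -⟩ := hT D hm4
  rw [← h3]
  show ∃ k : ℕ, Odd k ∧ Nat.card
    (AddCommGroup.torsion (Wt ((aD D : ℤ) : ℚ) ((bD D : ℤ) : ℚ)).toAffine.Point) = 4 * k
  rw [e1, e2]
  refine hTor (9 * (D : ℚ)) (25 * (D : ℚ)) (by linarith) (by linarith) (by intro h; linarith) ?_ ?_ ?_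
  · rintro ⟨⟨r, hr⟩, -⟩
    have h6 : IsSquare ((pr N : ℕ) : ℚ) := by
      refine ⟨r / 3, ?_⟩
      have : (pr N : ℚ) = -(9 * (D : ℚ)) / 9 := by rw [e3]; ring
      rw [this, hr]
      ring
    have h7 := pr_nsq (fun p hp => (hN p hp).1) h6
    rw [h7] at hp
    norm_num [pr] at hp
  · rintro ⟨⟨r, hr⟩, -⟩
    nlinarith [mul_self_nonneg r]
  · rintro ⟨⟨r, hr⟩, -⟩
    nlinarith [mul_self_nonneg r]

theorem val_odd {n : ℤ} (h : Odd n) : padicValRat 2 (n : ℚ) = 0 := by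
  rw [padicValRat.of_int]
  have : padicValInt 2 n = 0 := by
    refine padicValInt.eq_zero_of_not_dvd ?_
    intro hd
    have h5 := Int.odd_iff.1 h
    omega
  rw [this]
  rfl

/-- **the 2-part modulo two and the criterion** -/
theorem full15_of (hM : Pool.Agent.XV.S_MAIN) (hV : Pool.Agent.XV.S_V5) (hE : Pool.Agent.XV.S_E56)
    (hMod : S_MOD) (hDsc : S_DSC) (hT : S_TRV) (hMin : S_MN15) (hTam : S_TMP) (hTor : S_TS4)
    {N : Finset ℕ} (hN : Pq N) (hb : Kb (pr N)) {D : ℤ} (hD : D = -(pr N : ℤ)) : Full15 N D := by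
  classical
  have hp : 1 < pr N := by unfold Kb at hb; omega
  have hm4 : D % 4 = 1 := by unfold Kb at hb; omega
  have hDneg : D < 0 := by omega
  have hsqf : Squarefree (pr N) := pr_sqf fun p hp => (hN p hp).1
  have hsqD : Squarefree D := by
    rw [← Int.squarefree_natAbs, hD, Int.natAbs_neg, Int.natAbs_natCast]
    exact hsqf
  have h3D : ¬ (3 : ℤ) ∣ D := by unfold Kb at hb; omega
  have h5D : ¬ (5 : ℤ) ∣ D := by unfold Kb at hb; omega
  have hcop : Nat.Coprime (pr N) 15 := by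
    rw [show (15 : ℕ) = 3 * 5 by norm_num]
    refine Nat.Coprime.mul_right ?_ ?_
    · rw [Nat.coprime_comm, Nat.Prime.coprime_iff_not_dvd Nat.prime_three]
      unfold Kb at hb; omega
    · rw [Nat.coprime_comm, Nat.Prime.coprime_iff_not_dvd Nat.prime_five]
      unfold Kb at hb; omega
  have hβ : (3 : ℤ) ∣ (1 : ℤ) ^ 2 + pr N := by unfold Kb at hb; omega
  obtain ⟨T, z, e1, e2⟩ := (hM N hN).1 hb 1 hβ
  obtain ⟨T', e3, hT'⟩ := hV N hN hb
  have hTT : T = T' := by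
    have h2 : (2 : ℤ) ^ N.card ≠ 0 := by positivity
    apply mul_left_cancel₀ h2
    rw [← e1, e3]
  obtain ⟨s, a, Om, hOm, hs, h14, hf⟩ := hMod
  have e4 := (hE s a hs N hN).1 hb 1 hβ
  rw [e2] at e4
  obtain ⟨f, ε, hε, hfL, hf1, hΩ⟩ := hf (pr N) hsqf (by unfold Kb at hb; omega) hcop
  rw [← hD] at hfL hΩ
  obtain ⟨k, hk, htor⟩ := torsion_of hT hTor hN hb hD
  have htam := hTam N hN hb D hD
  set y : ℤ := T + 2 * z with hy
  have hodd : Odd y ↔ Odd T := by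
    rw [hy, Int.odd_iff, Int.odd_iff]
    omega
  have hKr : Odd y ↔ Kr N := by rw [hodd, hTT]; exact hT'
  have hns : Kr N ↔ (Finite (EQ (W15 D)).toAffine.Point ∧
      ∀ x : Sha (EQ (W15 D)), x + x = 0 → x = 0) := by
    rw [hDsc N hN hb D hD]
    obtain ⟨t1, t2, -⟩ := hT D hm4
    unfold NoS
    rw [t1, t2]
  have hεo : Odd ε := by rcases hε with rfl | rfl <;> decide
  set w : ℚ := ((ε * s (1 / 4) * (k : ℤ) ^ 2 : ℤ) : ℚ) / ((9 : ℤ) : ℚ) with hw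
  have ho1 : Odd (ε * s (1 / 4) * (k : ℤ) ^ 2) :=
    (hεo.mul h14).mul ((by exact_mod_cast hk : Odd (k : ℤ)).pow)
  have hw1 : ε * s (1 / 4) * (k : ℤ) ^ 2 ≠ 0 := by
    intro h
    rw [h] at ho1
    exact absurd ho1 (by decide)
  have hw0 : w ≠ 0 := by
    rw [hw]
    exact div_ne_zero (by exact_mod_cast hw1) (by norm_num)
  have hwv : padicValRat 2 w = 0 := by
    haveI : Fact (Nat.Prime 2) := ⟨Nat.prime_two⟩
    rw [hw, padicValRat.div (by exact_mod_cast hw1) (by norm_num), val_odd ho1,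
      val_odd (by decide : Odd (9 : ℤ))]
    simp
  have hn : (0 : ℝ) < (pr N : ℝ) := by exact_mod_cast (by omega : 0 < pr N)
  have hsn : 0 < Real.sqrt (pr N : ℝ) := Real.sqrt_pos.2 hn
  have hk0 : (0 : ℝ) < (k : ℝ) := by exact_mod_cast hk.pos
  have hval : f 1 = (((w : ℝ) * (y : ℝ) ^ 2 * (Omega (W15 D) * tamProd (W15 D) /
      (Nat.card (AddCommGroup.torsion (EQ (W15 D)).toAffine.Point) : ℝ) ^ 2) : ℝ) : ℂ) := by
    rw [hf1, hΩ, htam, htor]
    congr 1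
    have e5 : ((2 : ℝ) ^ N.card * (y : ℝ)) ^ 2 * (s (1 / 4) : ℝ) = 18 * (SS s (pr N) (pr N) : ℝ) := by
      exact_mod_cast e4
    have e6 : (SS s (pr N) (pr N) : ℝ) =
        ((2 : ℝ) ^ N.card * (y : ℝ)) ^ 2 * (s (1 / 4) : ℝ) / 18 := by
      rw [e5]; ring
    have e7 : (w : ℝ) = (ε : ℝ) * (s (1 / 4) : ℝ) * (k : ℝ) ^ 2 / 9 := by
      rw [hw]; push_cast; ring
    have e8 : ((4 ^ (N.card + 1) : ℕ) : ℝ) = 4 * (((2 : ℝ) ^ N.card) ^ 2) := by
      push_cast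
      rw [pow_succ, ← pow_mul, mul_comm N.card 2, pow_mul]
      norm_num
      ring
    rw [e6, e7, e8]
    push_cast
    field_simp
    ring
  refine ⟨(hMin D hm4 hsqD h3D h5D).1, ⟨f, hfL⟩, y, hKr.trans hns, hKr, fun g hg => ?_⟩
  rw [hg.unique hfL]
  refine ⟨fun hy0 => ?_, w, hw0, hwv, hval⟩
  rw [hval, hΩ, htam, htor]
  have hyR : (y : ℝ) ≠ 0 := by exact_mod_cast hy0
  have hwR : (w : ℝ) ≠ 0 := by exact_mod_cast hw0
  rw [Complex.ofReal_ne_zero]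
  have : ((4 ^ (N.card + 1) : ℕ) : ℝ) ≠ 0 := by positivity
  have : ((4 * k : ℕ) : ℝ) ≠ 0 := by push_cast; positivity
  positivity

/-- **the rank form** -/
theorem rank15_of (hT : S_TRV) (hI : S_INC) {N : Finset ℕ} {D : ℤ} (h4 : D % 4 = 1)
    (hF : Full15 N D) (hs : NoS D) : RankBSD (-12987 * D ^ 2) (-263466 * D ^ 3) := by
  obtain ⟨t1, t2, -, t4, -⟩ := hT D h4
  obtain ⟨c1, ⟨f, hf⟩, y, y1, -, c3⟩ := hF
  have hy : Odd y := y1.2 ⟨t1.1 hs.1, t2.1 hs.2⟩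
  have hy0 : y ≠ 0 := by
    rintro rfl
    exact absurd hy (by decide)
  exact hI D h4 (by omega) f hf ((c3 f hf).1 hy0) (t4.1 hs.1)

end Pool.Agent.XV.T
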