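import Pool.Agent.XV.T.Stm
import Pool.Agent.Y700.Count

/-!
# Project XV, T7-2: four Selmer cocycles, full rational two-torsion, no point of order four
-/

set_option autoImplicit false

namespace Pool.Agent.XV.T.CT

open WeierstrassCurve

open Pool.Agent.W262.SH (QB Pt act IsCoc IsCob LocTriv shaCoc cob Sha)
open Pool.Agent.TH841.SH Pool.Agent.Y668

/-! ### Groups -/

/-- a finitely generated abelian group which is equal to its double up to elements of order two -/
theorem finite_of_halving4 {G : Type} [AddCommGroup G] (hG : AddGroup.FG G)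
    (h : ∀ P : G, ∃ T Q : G, T + T = 0 ∧ P = T + (Q + Q)) : Finite G := by
  have : Module.Finite ℤ G := Module.Finite.iff_addGroup_fg.2 hG
  let D : G →ₗ[ℤ] G := (2 : ℤ) • LinearMap.id
  have hD : ∀ x : G, D x = x + x := fun x => by
    change (2 : ℤ) • x = x + x
    exact two_zsmul x
  have hN : LinearMap.range D ≤ (Ideal.span {(2 : ℤ)}) • LinearMap.range D := by
    rintro x ⟨P, rfl⟩
    obtain ⟨T, Q, hT, hPQ⟩ := h P
    have h1 : D P = (2 : ℤ) • D Q := by
      rw [hD, hD, two_zsmul, hPQ]
      have : T + (Q + Q) + (T + (Q + Q)) = T + T + (Q + Q + (Q + Q)) := by abel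
      rw [this, hT, zero_add]
    rw [h1]
    exact Submodule.smul_mem_smul (Ideal.subset_span rfl) (LinearMap.mem_range_self D Q)
  have hnoe : IsNoetherian ℤ G := isNoetherian_of_isNoetherianRing_of_finite ℤ G
  obtain ⟨c, hc1, hc2⟩ := Submodule.exists_sub_one_mem_and_smul_eq_zero_of_fg_of_le_smul _ _
    (IsNoetherian.noetherian (LinearMap.range D)) hN
  have hc0 : c ≠ 0 := by
    rintro rfl
    rw [Ideal.mem_span_singleton] at hc1
    omega
  have htor : IsAddTorsion G := by
    intro P
    rw [isOfFinAddOrder_iff_zsmul_eq_zero]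
    refine ⟨2 * c, mul_ne_zero two_ne_zero hc0, ?_⟩
    have h1 := hc2 (D P) (LinearMap.mem_range_self D P)
    rw [hD, ← two_zsmul, ← mul_zsmul, mul_comm] at h1
    exact h1
  exact AddCommGroup.finite_of_fg_isAddTorsion G htor

/-- the order of a finite abelian group with four elements of order two, none of them a double -/
theorem four_part {G : Type*} [AddCommGroup G] [Finite G] (S : Finset G) (hS : S.card = 4)
    (hS2 : ∀ x : G, x ∈ S ↔ x + x = 0) (h4 : ∀ x y : G, x + x = 0 → x = y + y → x = 0) :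
    ∃ k, Odd k ∧ Nat.card G = 4 * k := by
  let D : G →+ G := { toFun := fun x => x + x, map_zero' := add_zero 0, map_add' := fun x y => by abel }
  have e2 : Nat.card G = Nat.card D.range * Nat.card D.ker := by
    rw [AddSubgroup.card_eq_card_quotient_mul_card_addSubgroup D.ker]
    congr 1
    exact Nat.card_congr (QuotientAddGroup.quotientKerEquivRange D).toEquiv
  have hker : Nat.card D.ker = 4 := by
    have h1 : (D.ker : Set G) = (S : Set G) := by
      ext x
      simp only [SetLike.mem_coe, AddMonoidHom.mem_ker, hS2]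
      rfl
    have h2 : Nat.card (D.ker : Set G) = 4 := by
      rw [h1, Nat.card_coe_set_eq, Set.ncard_coe_finset, hS]
    exact h2
  have hodd : Odd (Nat.card D.range) := by
    apply Pool.Agent.Y700.odd_of_inj
    rintro ⟨x, y, rfl⟩ hx
    have hx' : D y + D y = 0 := congrArg Subtype.val hx
    exact Subtype.ext (h4 _ y hx' rfl)
  exact ⟨_, hodd, by rw [e2, hker, mul_comm]⟩

/-! ### The curve -/

section

variable {r s : ℚ}

lemma eqn {u v : ℚ} (hn : (Wt (-(r + s)) (r * s)).toAffine.Equation u v) :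
    v ^ 2 = u * (u - r) * (u - s) := by
  have := Wt_eqn.1 hn
  linear_combination this

/-- the coordinates of a double -/
lemma dbl {t w : ℚ} {h : (Wt (-(r + s)) (r * s)).toAffine.Nonsingular t w}
    {P : (Wt (-(r + s)) (r * s)).toAffine.Point} (hP : P + P = .some t w h) :
    IsSquare t ∧ IsSquare (t - r) ∧ IsSquare (t - s) := by
  rcases P with _ | ⟨u, v, hn⟩
  · exact absurd (hP.symm.trans (add_zero _)) (Affine.Point.some_ne_zero _)
  · by_cases hv : v = v - 2 * v
    · have hv0 : v = 0 := by linarith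
      have : (Affine.Point.some u v hn : (Wt (-(r + s)) (r * s)).toAffine.Point) +
          .some u v hn = 0 := by
        apply Affine.Point.add_self_of_Y_eq
        show v = -v - 0 * u - 0
        rw [hv0]; ring
      rw [this] at hP
      exact absurd hP.symm (Affine.Point.some_ne_zero _)
    · have hY : v ≠ (Wt (-(r + s)) (r * s)).toAffine.negY u v := by
        show v ≠ -v - 0 * u - 0
        intro h; apply hv; linarith
      have hv0 : v ≠ 0 := fun h => hv (by rw [h]; ring)
      have he : v ^ 2 = u * (u - r) * (u - s) := eqn hn.1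
      rw [Affine.Point.add_self_of_Y_ne hY, Affine.Point.some.injEq] at hP
      obtain ⟨hx1, -⟩ := hP
      rw [Affine.slope_of_Y_ne rfl hY] at hx1
      have hx2 : ((3 * u ^ 2 + 2 * (-(r + s)) * u + r * s - 0 * v) / (v - (-v - 0 * u - 0))) ^ 2 +
        0 * ((3 * u ^ 2 + 2 * (-(r + s)) * u + r * s - 0 * v) / (v - (-v - 0 * u - 0))) -
          (-(r + s)) - u - u = t := hx1
      have e0 : v - (-v - 0 * u - 0) = 2 * v := by ring
      rw [e0] at hx2
      have hv2 : (2 * v) ≠ 0 := mul_ne_zero two_ne_zero hv0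
      have hx3 : (3 * u ^ 2 - 2 * (r + s) * u + r * s) ^ 2 + (r + s - 2 * u) * (4 * v ^ 2) =
          t * (4 * v ^ 2) := by
        rw [← hx2]
        field_simp
        ring
      refine ⟨⟨(u ^ 2 - r * s) / (2 * v), ?_⟩, ⟨(u ^ 2 - 2 * r * u + r * s) / (2 * v), ?_⟩,
        ⟨(u ^ 2 - 2 * s * u + r * s) / (2 * v), ?_⟩⟩
      · rw [div_mul_div_comm, eq_div_iff (mul_ne_zero hv2 hv2)]
        linear_combination (-1 : ℚ) * hx3 + 4 * (r + s - 2 * u) * he
      · rw [div_mul_div_comm, eq_div_iff (mul_ne_zero hv2 hv2)]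
        linear_combination (-1 : ℚ) * hx3 + 4 * (r + s - 2 * u) * he - 4 * r * he
      · rw [div_mul_div_comm, eq_div_iff (mul_ne_zero hv2 hv2)]
        linear_combination (-1 : ℚ) * hx3 + 4 * (r + s - 2 * u) * he - 4 * s * he

lemma nons {t : ℚ} (ht : t * (t - r) * (t - s) = 0)
    (ht' : 3 * t ^ 2 + 2 * (-(r + s)) * t + r * s ≠ 0) :
    (Wt (-(r + s)) (r * s)).toAffine.Nonsingular t 0 := by
  rw [Affine.nonsingular_iff]
  refine ⟨?_, Or.inl ?_⟩
  · rw [Wt_eqn]
    linear_combination (-1 : ℚ) * ht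
  · show (0 : ℚ) * 0 ≠ 3 * t ^ 2 + 2 * (-(r + s)) * t + r * s
    intro h
    apply ht'
    linear_combination -h

lemma add_self_zero {u v : ℚ} {hn : (Wt (-(r + s)) (r * s)).toAffine.Nonsingular u v} :
    (Affine.Point.some u v hn : (Wt (-(r + s)) (r * s)).toAffine.Point) + .some u v hn = 0 ↔
      v = 0 := by
  constructor
  · intro hx
    by_contra hv
    have hY : v ≠ (Wt (-(r + s)) (r * s)).toAffine.negY u v := by
      show v ≠ -v - 0 * u - 0
      intro h; apply hv; linarith
    rw [Affine.Point.add_self_of_Y_ne hY] at hx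
    exact Affine.Point.some_ne_zero _ hx
  · intro hv
    apply Affine.Point.add_self_of_Y_eq
    show v = -v - 0 * u - 0
    rw [hv]; ring

/-- the points of order two -/
theorem two_tors (hr : r ≠ 0) (hs : s ≠ 0) (hrs : r ≠ s) (h0 : ¬ (IsSquare (-r) ∧ IsSquare (-s)))
    (h1 : ¬ (IsSquare r ∧ IsSquare (r - s))) (h2 : ¬ (IsSquare s ∧ IsSquare (s - r))) :
    ∃ S : Finset (Wt (-(r + s)) (r * s)).toAffine.Point, S.card = 4 ∧
      (∀ x, x ∈ S ↔ x + x = 0) ∧
      ∀ x y : (Wt (-(r + s)) (r * s)).toAffine.Point, x + x = 0 → x = y + y → x = 0 := by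
  classical
  have n0 : (Wt (-(r + s)) (r * s)).toAffine.Nonsingular 0 0 := nons (by ring) (by
    have := mul_ne_zero hr hs
    intro h; apply this; linear_combination h)
  have n1 : (Wt (-(r + s)) (r * s)).toAffine.Nonsingular r 0 := nons (by ring) (by
    have := mul_ne_zero hr (sub_ne_zero.2 hrs)
    intro h; apply this; linear_combination h)
  have n2 : (Wt (-(r + s)) (r * s)).toAffine.Nonsingular s 0 := nons (by ring) (by
    have := mul_ne_zero hs (sub_ne_zero.2 hrs.symm)
    intro h; apply this; linear_combination h)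
  have hcl : ∀ x : (Wt (-(r + s)) (r * s)).toAffine.Point, x + x = 0 →
      x = 0 ∨ x = .some 0 0 n0 ∨ x = .some r 0 n1 ∨ x = .some s 0 n2 := by
    intro x hx
    rcases x with _ | ⟨u, v, hn⟩
    · left; rfl
    · right
      have hv0 : v = 0 := add_self_zero.1 hx
      subst hv0
      have he := eqn hn.1
      have he' : u * (u - r) * (u - s) = 0 := by rw [← he]; ring
      rcases mul_eq_zero.1 he' with h | h
      · rcases mul_eq_zero.1 h with h | h
        · left
          subst h
          rfl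
        · right; left
          have : u = r := by linarith
          subst this
          rfl
      · right; right
        have : u = s := by linarith
        subst this
        rfl
  refine ⟨{0, .some 0 0 n0, .some r 0 n1, .some s 0 n2}, ?_, ?_, ?_⟩
  · rw [Finset.card_insert_of_notMem, Finset.card_insert_of_notMem,
        Finset.card_insert_of_notMem, Finset.card_singleton]
    · simp only [Finset.mem_singleton, Affine.Point.some.injEq, not_and]
      exact fun h => absurd h hrs
    · simp only [Finset.mem_insert, Finset.mem_singleton, Affine.Point.some.injEq, not_or, not_and]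
      exact ⟨fun h => absurd h.symm hr, fun h => absurd h.symm hs⟩
    · simp only [Finset.mem_insert, Finset.mem_singleton, not_or]
      exact ⟨(Affine.Point.some_ne_zero _).symm, (Affine.Point.some_ne_zero _).symm,
        (Affine.Point.some_ne_zero _).symm⟩
  · intro x
    constructor
    · intro hx
      simp only [Finset.mem_insert, Finset.mem_singleton] at hx
      rcases hx with rfl | rfl | rfl | rfl
      · exact add_zero 0
      · exact add_self_zero.2 rfl
      · exact add_self_zero.2 rfl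
      · exact add_self_zero.2 rfl
    · intro hx
      simpa only [Finset.mem_insert, Finset.mem_singleton] using hcl x hx
  · intro x y hx hy
    rcases hcl x hx with h | h | h | h
    · exact h
    · exfalso
      obtain ⟨-, k1, k2⟩ := dbl (hy.symm.trans h)
      rw [zero_sub] at k1 k2
      exact h0 ⟨k1, k2⟩
    · exfalso
      obtain ⟨k0, -, k2⟩ := dbl (hy.symm.trans h)
      exact h1 ⟨k0, k2⟩
    · exfalso
      obtain ⟨k0, k1, -⟩ := dbl (hy.symm.trans h)
      exact h2 ⟨k0, k1⟩

end

open scoped Classical in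
/-- the count -/
theorem count {a b : ℚ} (hb : b ≠ 0) (hab : a ^ 2 - 4 * b ≠ 0)
    (S : Finset (Wt a b).toAffine.Point) (hS : S.card = 4) (hS2 : ∀ x, x ∈ S ↔ x + x = 0)
    (hnd : ∀ x y : (Wt a b).toAffine.Point, x + x = 0 → x = y + y → x = 0)
    (hfin : Finite (selCoc (Wt a b))) (hcard : Nat.card (selCoc (Wt a b)) ≤ 4) :
    (∀ x : Sha (Wt a b), x + x = 0 → x = 0) ∧ Finite (Wt a b).toAffine.Point ∧
      ∃ k, Odd k ∧ Nat.card (Wt a b).toAffine.Point = 4 * k := by
  obtain ⟨e1, e2, hp12, hR, hne⟩ := exists_roots QB a b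
  obtain ⟨n1, n2, n12⟩ := hne hb hab
  obtain ⟨j, hj, hjσ, hjf⟩ := exists_rat (Wt a b)
  have h2 : (2 : QB) ≠ 0 := two_ne_zero
  have hc : ∀ (g : (Wt a b).toAffine.Point) (Q : Pt (Wt a b) QB), j g = Q + Q →
      (fun σ : QB ≃ₐ[ℚ] QB => act (Wt a b) σ.toAlgHom Q - Q) ∈ selCoc (Wt a b) := by
    intro g Q hQ
    apply cob_selCoc
    intro σ
    have e3 : act (Wt a b) σ.toAlgHom Q - Q + (act (Wt a b) σ.toAlgHom Q - Q) =
      (act (Wt a b) σ.toAlgHom Q + act (Wt a b) σ.toAlgHom Q) - (Q + Q) := by abel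
    rw [e3, ← map_add, ← hQ, hjσ, sub_self]
  choose Q hQ using fun g : (Wt a b).toAffine.Point => hR.div h2 n1 n2 n12 (j g)
  let f : (Wt a b).toAffine.Point → selCoc (Wt a b) := fun g => ⟨_, hc g (Q g) (hQ g)⟩
  have hdiff : ∀ g g', f g = f g' → ∃ q, g = g' + (q + q) := fun g g' h =>
    Pool.Agent.Y700.diff_rat hj hjf (hQ g) (hQ g') (fun σ => congrFun (congrArg Subtype.val h) σ)
  have : Fintype (selCoc (Wt a b)) := Fintype.ofFinite _
  have hinj : Set.InjOn f S := by
    intro g hg g' hg' h
    obtain ⟨q, hq⟩ := hdiff g g' h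
    have k1 := (hS2 g).1 hg
    have k2 := (hS2 g').1 hg'
    have k3 : (g - g') + (g - g') = 0 := by
      have : (g - g') + (g - g') = (g + g) - (g' + g') := by abel
      rw [this, k1, k2, sub_zero]
    have k4 : g - g' = q + q := by rw [hq]; abel
    exact sub_eq_zero.1 (hnd _ q k3 k4)
  have hall : ∀ F : selCoc (Wt a b), ∃ g ∈ S, f g = F := by
    have hSu : S.image f = Finset.univ := by
      apply Finset.eq_univ_of_card
      apply le_antisymm (Finset.card_le_univ _)
      rw [Finset.card_image_of_injOn hinj, hS, ← Nat.card_eq_fintype_card]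
      exact hcard
    intro F
    have hF : F ∈ S.image f := by rw [hSu]; exact Finset.mem_univ _
    exact Finset.mem_image.1 hF
  have hhalf : ∀ g : (Wt a b).toAffine.Point, ∃ T q, T + T = 0 ∧ g = T + (q + q) := by
    intro g
    obtain ⟨T, hT, hTg⟩ := hall (f g)
    obtain ⟨q, hq⟩ := hdiff g T hTg.symm
    exact ⟨T, q, (hS2 T).1 hT, hq⟩
  have hfg : AddGroup.FG (Wt a b).toAffine.Point := fg_Wt hb hab
  have hfinE : Finite (Wt a b).toAffine.Point := finite_of_halving4 hfg hhalf
  refine ⟨?_, hfinE, four_part S hS hS2 hnd⟩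
  intro x hx
  obtain ⟨F, rfl⟩ := (toShaC_range hR n1 n2 n12 x).2 hx
  obtain ⟨g, -, rfl⟩ := hall F
  rw [← AddMonoidHom.mem_ker, toShaC_ker]
  exact ⟨Q g, fun σ => rfl⟩

open scoped Classical in
theorem sha_lift {W : WeierstrassCurve ℚ} (h : ∀ x : Sha W, x + x = 0 → x = 0)
    (x : Pool.Agent.TH841.SH.D.Sha W) (hx : x + x = 0) : x = 0 := by
  have h3 := h (Pool.Agent.TH841.SH.D.eSha W x) (by
    rw [← map_add, hx, map_zero])
  exact (map_eq_zero_iff _ (Pool.Agent.TH841.SH.D.eSha W).injective).1 h3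

end Pool.Agent.XV.T.CT

namespace Pool.Agent.XV.T

open Pool.Agent.Y668 (Wt selCoc fg_Wt)

theorem t_CT : S_CT := by
  intro r s hr hs hrs h0 h1 h2 hfin hcard
  obtain ⟨S, hS, hS2, hnd⟩ := CT.two_tors hr hs hrs h0 h1 h2
  have hb : r * s ≠ 0 := mul_ne_zero hr hs
  have hab : (-(r + s)) ^ 2 - 4 * (r * s) ≠ 0 := by
    have := pow_ne_zero 2 (sub_ne_zero.2 hrs)
    intro h; apply this; linear_combination h
  obtain ⟨k1, k2, k3⟩ := CT.count hb hab S hS hS2 hnd hfin hcard
  exact ⟨fun x hx => CT.sha_lift k1 x hx, k2, k3⟩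

open scoped Classical in
theorem t_TS4 : S_TS4 := by
  intro r s hr hs hrs h0 h1 h2
  obtain ⟨S, hS, hS2, hnd⟩ := CT.two_tors hr hs hrs h0 h1 h2
  have hb : r * s ≠ 0 := mul_ne_zero hr hs
  have hab : (-(r + s)) ^ 2 - 4 * (r * s) ≠ 0 := by
    have := pow_ne_zero 2 (sub_ne_zero.2 hrs)
    intro h; apply this; linear_combination h
  have hfg : AddGroup.FG (Wt (-(r + s)) (r * s)).toAffine.Point := fg_Wt hb hab
  have hfin : Finite (AddCommGroup.torsion (Wt (-(r + s)) (r * s)).toAffine.Point) := by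
    have hmf : Module.Finite ℤ (Wt (-(r + s)) (r * s)).toAffine.Point :=
      Module.Finite.iff_addGroup_fg.2 hfg
    have hsub : AddGroup.FG (AddCommGroup.torsion (Wt (-(r + s)) (r * s)).toAffine.Point) := by
      rw [← Module.Finite.iff_addGroup_fg]
      have h6 : Module.Finite ℤ (AddSubgroup.toIntSubmodule
          (AddCommGroup.torsion (Wt (-(r + s)) (r * s)).toAffine.Point)) :=
        inferInstance
      exact h6
    have htor : IsAddTorsion (AddCommGroup.torsion (Wt (-(r + s)) (r * s)).toAffine.Point) := by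
      intro x
      have hx := x.2
      rw [AddCommGroup.mem_torsion, isOfFinAddOrder_iff_nsmul_eq_zero] at hx
      obtain ⟨n, hn, hx⟩ := hx
      rw [isOfFinAddOrder_iff_nsmul_eq_zero]
      exact ⟨n, hn, Subtype.ext (by simpa using hx)⟩
    exact AddCommGroup.finite_of_fg_isAddTorsion _ htor
  have hTm : ∀ T ∈ S, T ∈ AddCommGroup.torsion (Wt (-(r + s)) (r * s)).toAffine.Point := by
    intro T hT
    change IsOfFinAddOrder T
    rw [isOfFinAddOrder_iff_nsmul_eq_zero]
    exact ⟨2, by norm_num, by rw [two_nsmul, (hS2 T).1 hT]⟩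
  refine CT.four_part (G := AddCommGroup.torsion (Wt (-(r + s)) (r * s)).toAffine.Point)
    (S.subtype (fun T => T ∈ AddCommGroup.torsion (Wt (-(r + s)) (r * s)).toAffine.Point))
    ?_ ?_ ?_
  · rw [Finset.card_subtype, Finset.filter_true_of_mem hTm, hS]
  · intro x
    rw [Finset.mem_subtype, hS2]
    exact ⟨fun h => Subtype.ext h, fun h => congrArg Subtype.val h⟩
  · rintro ⟨x, hx⟩ ⟨y, hy⟩ h3 h4
    exact Subtype.ext (hnd x y (congrArg Subtype.val h3) (congrArg Subtype.val h4))

end Pool.Agent.XV.T
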