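import Pool.Agent.XV.T.Stm
import Pool.Agent.Y809.BSD14.Selb

/-! # The Selmer group of the isogeny, classes of `x` on `y² = x (x - 9 D) (x - 25 D)` -/

set_option autoImplicit false
set_option linter.style.haveILetI false

namespace Pool.Agent.XV.T.S1

open Finset
open Pool.Agent.Z700 (pr)
open Pool.Agent.XV (Pq Kb)
open Pool.Agent.Y700 (PC)
open Pool.Agent.Y814.BSD14 Pool.Agent.Y809.BSD14

section

variable {l : ℕ} [hl : Fact l.Prime]

/-- the primes `3` and `5`: the valuation of `x` is even -/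
theorem even_val2 {x y : ℚ_[l]} {a b : ℤ} (ha : ¬ IsSquare (a : ZMod l)) (hb : ¬ (l : ℤ) ∣ b)
    (hy : y ≠ 0) (h : y ^ 2 = x ^ 3 + a * x ^ 2 + ((l : ℤ) ^ 2 * b : ℤ) * x) :
    Even x.valuation := by
  have hl0 : (l : ℚ_[l]) ≠ 0 := by exact_mod_cast hl.out.ne_zero
  have hx := ne_zero_of_eq hy h
  have h' : y ^ 2 = x * (x ^ 2 + a * x + ((l : ℤ) ^ 2 * b : ℤ)) := by rw [h]; ring
  have hP : x ^ 2 + a * x + ((l : ℤ) ^ 2 * b : ℤ) ≠ 0 := by
    intro h0; rw [h0, mul_zero] at h'; exact hy (by simpa using h')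
  have hv := congrArg Padic.valuation h'
  rw [Padic.valuation_mul hx hP, Padic.valuation_pow] at hv
  push_cast at hv
  have hbn : ‖(b : ℚ_[l])‖ = 1 := by
    refine le_antisymm (Padic.norm_int_le_one b) (not_lt.1 fun h => hb ?_)
    exact Padic.norm_intCast_lt_one_iff.1 h
  have hb0 : (b : ℚ_[l]) ≠ 0 := by
    intro h0
    rw [h0, norm_zero] at hbn
    exact zero_ne_one hbn
  rcases lt_or_ge x.valuation 0 with h0 | h0
  · have h1 := val_eq_of_norm_eq hP (pow_ne_zero 2 hx)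
      (norm_quad_large a ((l : ℤ) ^ 2 * b) ((val_neg_of_one_lt hx).1 h0))
    rw [Padic.valuation_pow] at h1
    push_cast at h1
    exact ⟨y.valuation - x.valuation, by omega⟩
  · rcases (by omega : x.valuation = 0 ∨ x.valuation = 1 ∨ x.valuation = 2 ∨ 3 ≤ x.valuation)
      with h1 | h1 | h1 | h1
    · rw [h1]; exact ⟨0, rfl⟩
    · exfalso
      obtain ⟨u, rfl⟩ : ∃ u, x = l * u := ⟨x / l, by field_simp⟩
      obtain ⟨v, rfl⟩ : ∃ v, y = l * v := ⟨y / l, by field_simp⟩
      have hu0 : u ≠ 0 := right_ne_zero_of_mul hx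
      rw [Padic.valuation_mul hl0 hu0, Padic.valuation_p] at h1
      have hun : ‖u‖ = 1 := norm_eq_one_of_val hu0 (by omega)
      have h2 : v ^ 2 = u * (l * u ^ 2 + a * u + l * b) := by
        apply mul_left_cancel₀ (pow_ne_zero 2 hl0)
        push_cast at h
        linear_combination h
      obtain ⟨r, hr⟩ := exists_int hun.le
      have hvn : ‖v‖ ≤ 1 := by
        have h3 : ‖v‖ ^ 2 ≤ 1 := by
          rw [← norm_pow, h2]
          have : u * (l * u ^ 2 + a * u + l * b) =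
            ((r * (l * r ^ 2 + a * r + l * b) : ℤ_[l]) : ℚ_[l]) := by
            push_cast
            rw [hr]
          rw [this]
          exact PadicInt.norm_le_one _
        by_contra h4
        push Not at h4
        nlinarith
      obtain ⟨w, hw⟩ := exists_int hvn
      have h5 : w ^ 2 = r * (l * r ^ 2 + a * r + l * b) := by
        apply PadicInt.ext
        push_cast
        rw [hw, hr, h2]
      have h6 := congrArg (PadicInt.toZMod (p := l)) h5
      simp only [map_mul, map_add, map_pow, map_intCast, map_natCast] at h6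
      rw [ZMod.natCast_self] at h6
      have hr0 : PadicInt.toZMod r ≠ 0 := by
        intro h7
        have h3 : r ∈ RingHom.ker (PadicInt.toZMod (p := l)) := h7
        rw [PadicInt.ker_toZMod, IsLocalRing.mem_maximalIdeal, mem_nonunits_iff,
          PadicInt.isUnit_iff] at h3
        apply h3
        rw [PadicInt.norm_def, hr]
        exact hun
      apply ha
      refine ⟨PadicInt.toZMod w / PadicInt.toZMod r, ?_⟩
      rw [div_mul_div_comm, eq_div_iff (mul_ne_zero hr0 hr0)]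
      linear_combination -h6
    · rw [h1]; exact ⟨1, rfl⟩
    · have h2 : ((((l : ℤ) ^ 2 * b : ℤ) : ℚ_[l])).valuation = 2 := by
        push_cast
        rw [Padic.valuation_mul (pow_ne_zero 2 hl0) hb0, Padic.valuation_pow, Padic.valuation_p,
          val_of_norm_one hbn]
        norm_num
      have hB0 : (((l : ℤ) ^ 2 * b : ℤ) : ℚ_[l]) ≠ 0 := by
        push_cast
        exact mul_ne_zero (pow_ne_zero 2 hl0) hb0
      have h3 : ‖x ^ 2 + a * x‖ < ‖(((l : ℤ) ^ 2 * b : ℤ) : ℚ_[l])‖ := by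
        have h4 : ‖x ^ 2 + a * x‖ ≤ ‖x‖ := by
          have hx1 : ‖x‖ ≤ 1 := by
            have := (val_pos_of_lt_one hx).1 (by omega)
            exact this.le
          have ha1 : ‖(a : ℚ_[l])‖ ≤ 1 := Padic.norm_int_le_one a
          refine (Padic.nonarchimedean _ _).trans (max_le ?_ ?_)
          · rw [norm_pow]; nlinarith [norm_nonneg x]
          · rw [norm_mul]; nlinarith [norm_nonneg x]
        refine lt_of_le_of_lt h4 ?_
        rw [Padic.norm_eq_zpow_neg_valuation hx, Padic.norm_eq_zpow_neg_valuation hB0, h2]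
        have h5 : (1 : ℝ) < l := by exact_mod_cast hl.out.one_lt
        apply zpow_lt_zpow_right₀ h5
        omega
      have h6 : (x ^ 2 + a * x + ((l : ℤ) ^ 2 * b : ℤ)).valuation = 2 := by
        rw [← h2]
        apply val_eq_of_norm_eq hP hB0
        rw [Padic.add_eq_max_of_ne h3.ne]
        exact max_eq_right h3.le
      exact ⟨y.valuation - 1, by push_cast at h6 hv; omega⟩

theorem not_dvd_of_PC2 {a b : ℤ} {z : ℤ} (hz : Squarefree z) (ha : ¬ IsSquare (a : ZMod l))
    (hb : ¬ (l : ℤ) ∣ b) (h : PC a ((l : ℤ) ^ 2 * b) l z) : ¬ (l : ℤ) ∣ z := by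
  intro hd
  obtain ⟨x, y, hy, h1, h2⟩ := h
  have hx := ne_zero_of_eq hy h1
  have h3 := odd_val hx hz hd h2
  have h4 := even_val2 ha hb hy h1
  exact (Int.not_odd_iff_even.2 h4) h3

end

theorem ns3 : ¬ IsSquare (-34 * 1 : ZMod 3) := by decide
theorem ns5a : ¬ IsSquare (-34 * 2 : ZMod 5) := by decide
theorem ns5b : ¬ IsSquare (-34 * 3 : ZMod 5) := by decide

theorem key16 : ∀ z M n W E : ZMod 16, (z = 3 ∨ z = 7 ∨ z = 11 ∨ z = 15) →
    (M = 1 ∨ M = 5 ∨ M = 9 ∨ M = 13) →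
    (n = 0 ∨ n = 1 ∨ n = 4 ∨ n = 9) → (W = 0 ∨ W = 1 ∨ W = 4 ∨ W = 9) →
    (E = 0 ∨ E = 1 ∨ E = 4 ∨ E = 9) → ((W = 1 ∨ W = 9) ∨ (E = 1 ∨ E = 9)) →
    ¬ (n = z ^ 3 * W ^ 2 + (-34 * z ^ 2) * M * W * E + (225 * z) * M ^ 2 * E ^ 2) := by
  rintro z M n W E (rfl | rfl | rfl | rfl) (rfl | rfl | rfl | rfl) (rfl | rfl | rfl | rfl)
    (rfl | rfl | rfl | rfl) (rfl | rfl | rfl | rfl)
  all_goals decide

theorem not_three {M z : ℤ} (hM : M % 4 = 1) (hz : z % 4 = 3) :
    ¬ PC (-34 * M) (225 * M ^ 2) 2 z := by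
  rintro ⟨x, y, hy, h1, t, ht⟩
  have hz0 : (z : ℚ_[2]) ≠ 0 := by
    have : z ≠ 0 := by rintro rfl; norm_num at hz
    exact_mod_cast this
  have hx : x = z * (t / z) ^ 2 := by
    field_simp
    linear_combination ht
  set s := t / z with hs
  have ht0 : s ≠ 0 := by
    intro h0
    rw [h0] at hx
    apply hy
    rw [hx] at h1
    simpa using h1
  subst hx
  have hzz : (z : ZMod 16) = 3 ∨ (z : ZMod 16) = 7 ∨ (z : ZMod 16) = 11 ∨ (z : ZMod 16) = 15 := by
    have h : z % 16 = 3 ∨ z % 16 = 7 ∨ z % 16 = 11 ∨ z % 16 = 15 := by omega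
    have h2 : (z : ZMod 16) = ((z % 16 : ℤ) : ZMod 16) := by
      rw [ZMod.intCast_eq_intCast_iff]
      exact (Int.mod_modEq z 16).symm
    rcases h with h | h | h | h <;> rw [h2, h] <;> simp
  refine no_pt M (z ^ 3) (-34 * z ^ 2) (225 * z) ?_ s (y / s) ?_
  · intro n W E hn hW hE hu h
    refine key16 z M n W E hzz (mod4_16 M hM) hn hW hE hu (h.trans ?_)
    push_cast; ring
  · push_cast at h1 ⊢
    field_simp
    linear_combination h1

theorem ps_natAbs (q : ℕ) : (ps q).natAbs = q := by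
  unfold ps
  split_ifs <;> simp

theorem prod_natAbs (T : Finset ℕ) : (∏ q ∈ T, ps q).natAbs = pr T := by
  unfold pr
  induction T using Finset.induction_on with
  | empty => simp
  | insert a s ha ih => rw [prod_insert ha, Int.natAbs_mul, ih, ps_natAbs, prod_insert ha]

theorem ps_mod4 {q : ℕ} (h : q % 2 = 1) : ps q % 4 = 1 := by
  unfold ps
  split_ifs <;> omega

theorem prod_mod4 (T : Finset ℕ) (h : ∀ q ∈ T, q % 2 = 1) : (∏ q ∈ T, ps q) % 4 = 1 := by
  induction T using Finset.induction_on with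
  | empty => simp
  | insert a s ha ih =>
    rw [prod_insert ha, Int.mul_emod, ih fun q hq => h q (mem_insert_of_mem hq),
      ps_mod4 (h a (mem_insert_self a s))]
    norm_num

theorem eq_prod {z : ℤ} (T : Finset ℕ) (h4 : z % 4 = 1) (hT : ∀ q ∈ T, q % 2 = 1)
    (h : z.natAbs = pr T) : z = ∏ q ∈ T, ps q := by
  have h1 := prod_natAbs T
  have h2 := prod_mod4 T hT
  rw [← h] at h1
  rcases Int.natAbs_eq_natAbs_iff.1 h1 with h3 | h3
  · exact h3.symm
  · omega

theorem jac_one {p : ℕ} [Fact p.Prime] {a : ℤ} (h0 : (a : ZMod p) ≠ 0)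
    (h : IsSquare (a : ZMod p)) : jacobiSym a p = 1 := by
  rw [← jacobiSym.legendreSym.to_jacobiSym, legendreSym.eq_one_iff p h0]
  exact h

theorem pr_sqf {P : Finset ℕ} (hP : ∀ p ∈ P, p.Prime) : Squarefree (pr P) := by
  unfold pr
  induction P using Finset.induction_on with
  | empty => simp
  | insert a s ha ih =>
    rw [prod_insert ha, Nat.squarefree_mul]
    · exact ⟨(hP a (mem_insert_self a s)).squarefree, ih fun p hp => hP p (mem_insert_of_mem hp)⟩
    · rw [Nat.Prime.coprime_iff_not_dvd (hP a (mem_insert_self a s))]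
      intro h
      obtain ⟨b, hb, hab⟩ := (Prime.dvd_finsetProd_iff (hP a (mem_insert_self a s)).prime _).1 h
      have := (Nat.prime_dvd_prime_iff_eq (hP a (mem_insert_self a s))
        (hP b (mem_insert_of_mem hb))).1 hab
      exact ha (this ▸ hb)

theorem mem_of_dvd {P : Finset ℕ} (hP : ∀ p ∈ P, p.Prime) {q : ℕ} (hq : q.Prime) (h : q ∣ pr P) :
    q ∈ P := by
  obtain ⟨b, hb, hab⟩ := (Prime.dvd_finsetProd_iff hq.prime _).1 h
  have := (Nat.prime_dvd_prime_iff_eq hq (hP b hb)).1 hab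
  exact this ▸ hb

theorem dvd_of_mem {P : Finset ℕ} {q : ℕ} (h : q ∈ P) : q ∣ pr P := Finset.dvd_prod_of_mem _ h

end Pool.Agent.XV.T.S1

namespace Pool.Agent.XV.T

open Finset
open Pool.Agent.Z700 (pr)
open Pool.Agent.XV (Pq Kb)
open Pool.Agent.Y700 (PC)
open Pool.Agent.Y814.BSD14 Pool.Agent.Y809.BSD14
open Pool.Agent.XV.T.S1

theorem t_S1 : S_S1 := by
  intro N hN hK D hD z hz h
  have hprime : ∀ p ∈ N, p.Prime := fun p hp => (hN p hp).1
  have h60 : D % 60 = 37 ∨ D % 60 = 13 := by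
    rcases hK with h1 | h1 <;> omega
  have hD4 : D % 4 = 1 := by omega
  have hD3 : D % 3 = 1 := by omega
  have hD5 : D % 5 = 2 ∨ D % 5 = 3 := by omega
  have hodd : ∀ q ∈ N, q % 2 = 1 := by
    intro q hq
    rcases (hN q hq).1.eq_two_or_odd with h1 | h1
    · exact absurd h1 (hN q hq).2.1
    · exact h1
  have hDs : Squarefree D := by
    rw [← Int.squarefree_natAbs, hD, Int.natAbs_neg, Int.natAbs_natCast]
    exact pr_sqf hprime
  have hD0 : D ≠ 0 := hDs.ne_zero
  have hDpr : D = ∏ q ∈ N, ps q := by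
    apply eq_prod N hD4 hodd
    rw [hD, Int.natAbs_neg, Int.natAbs_natCast]
  have h' : ∀ (l : ℕ) [Fact l.Prime], PC (-34 * D) (225 * D ^ 2) l z := fun l _ => h l
  -- the primes `2, 3, 5`
  have P2 : Prime ((2 : ℕ) : ℤ) := Nat.prime_iff_prime_int.1 Nat.prime_two
  have P3 : Prime ((3 : ℕ) : ℤ) := Nat.prime_iff_prime_int.1 Nat.prime_three
  have P5 : Prime ((5 : ℕ) : ℤ) := Nat.prime_iff_prime_int.1 Nat.prime_five
  haveI f2 : Fact (Nat.Prime 2) := ⟨Nat.prime_two⟩
  haveI f3 : Fact (Nat.Prime 3) := ⟨Nat.prime_three⟩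
  haveI f5 : Fact (Nat.Prime 5) := ⟨Nat.prime_five⟩
  have z2 : ¬ ((2 : ℕ) : ℤ) ∣ z := by
    refine not_dvd_of_PC hz ?_ (h' 2)
    intro h0
    rcases P2.dvd_or_dvd h0 with h3 | h3
    · norm_num at h3
    · have := P2.dvd_of_dvd_pow h3
      push_cast at this
      omega
  have z3 : ¬ ((3 : ℕ) : ℤ) ∣ z := by
    have h1 := h' 3
    rw [show (225 : ℤ) * D ^ 2 = ((3 : ℕ) : ℤ) ^ 2 * (25 * D ^ 2) by push_cast; ring] at h1
    refine not_dvd_of_PC2 hz ?_ ?_ h1
    · have e : (D : ZMod 3) = 1 := by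
        have : (D : ZMod 3) = ((1 : ℤ) : ZMod 3) := by
          rw [ZMod.intCast_eq_intCast_iff]
          exact hD3
        rw [this, Int.cast_one]
      push_cast
      rw [e]
      exact ns3
    · intro h0
      rcases P3.dvd_or_dvd h0 with h3 | h3
      · norm_num at h3
      · have := P3.dvd_of_dvd_pow h3
        push_cast at this
        omega
  have z5 : ¬ ((5 : ℕ) : ℤ) ∣ z := by
    have h1 := h' 5
    rw [show (225 : ℤ) * D ^ 2 = ((5 : ℕ) : ℤ) ^ 2 * (9 * D ^ 2) by push_cast; ring] at h1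
    refine not_dvd_of_PC2 hz ?_ ?_ h1
    · have e : (D : ZMod 5) = 2 ∨ (D : ZMod 5) = 3 := by
        rcases hD5 with h2 | h2
        · left
          have : (D : ZMod 5) = ((2 : ℤ) : ZMod 5) := by
            rw [ZMod.intCast_eq_intCast_iff]
            exact h2
          rw [this]; rfl
        · right
          have : (D : ZMod 5) = ((3 : ℤ) : ZMod 5) := by
            rw [ZMod.intCast_eq_intCast_iff]
            exact h2
          rw [this]; rfl
      push_cast
      rcases e with e | e <;> rw [e]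
      · exact ns5a
      · exact ns5b
    · intro h0
      rcases P5.dvd_or_dvd h0 with h3 | h3
      · norm_num at h3
      · have := P5.dvd_of_dvd_pow h3
        push_cast at this
        omega
  have hz4 : z % 4 = 1 := by
    by_contra hcon
    push_cast at z2
    have h3 : z % 4 = 3 := by omega
    exact not_three hD4 h3 (h' 2)
  -- the primes dividing `z`
  have hnd225 : ∀ q : ℕ, q.Prime → q ≠ 3 → q ≠ 5 → ¬ (q : ℤ) ∣ 225 := by
    intro q hq n3 n5 h0
    have h1 : q ∣ 225 := by exact_mod_cast h0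
    rw [show (225 : ℕ) = 3 ^ 2 * 5 ^ 2 by norm_num] at h1
    rcases (Nat.Prime.dvd_mul hq).1 h1 with h2 | h2
    · exact n3 ((Nat.prime_dvd_prime_iff_eq hq Nat.prime_three).1 (hq.dvd_of_dvd_pow h2))
    · exact n5 ((Nat.prime_dvd_prime_iff_eq hq Nat.prime_five).1 (hq.dvd_of_dvd_pow h2))
  have hprz : ∀ q : ℕ, q.Prime → (q : ℤ) ∣ z → q ∈ N := by
    intro q hq hqz
    haveI : Fact q.Prime := ⟨hq⟩
    have n3 : q ≠ 3 := by rintro rfl; exact z3 hqz
    have n5 : q ≠ 5 := by rintro rfl; exact z5 hqz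
    have hqP := Nat.prime_iff_prime_int.1 hq
    by_contra hcon
    refine not_dvd_of_PC hz ?_ (h' q) hqz
    intro h0
    rcases hqP.dvd_or_dvd h0 with h1 | h1
    · exact hnd225 q hq n3 n5 h1
    · have h2 := hqP.dvd_of_dvd_pow h1
      rw [hD, dvd_neg] at h2
      exact hcon (mem_of_dvd hprime hq (by exact_mod_cast h2))
  have hz0 : z.natAbs ≠ 0 := Int.natAbs_ne_zero.2 hz.ne_zero
  obtain ⟨D0, hD0d⟩ : ∃ D0, D0 = z.natAbs.primeFactors := ⟨_, rfl⟩
  have hmem : ∀ q, q ∈ D0 ↔ q.Prime ∧ (q : ℤ) ∣ z := by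
    intro q
    rw [hD0d, Nat.mem_primeFactors, Int.natCast_dvd]
    tauto
  have hsub : D0 ⊆ N := by
    intro q hq
    obtain ⟨h1, h2⟩ := (hmem q).1 hq
    exact hprz q h1 h2
  have hzpr : z = ∏ q ∈ D0, ps q := by
    apply eq_prod D0 hz4 (fun q hq => hodd q (hsub hq))
    rw [hD0d]
    exact (Nat.prod_primeFactors_of_squarefree (Int.squarefree_natAbs.2 hz)).symm
  refine ⟨D0, hsub, hzpr, ?_⟩
  have hDR : D = z * ∏ q ∈ N \ D0, ps q := by
    rw [hDpr, hzpr, mul_comm]
    exact (Finset.prod_sdiff hsub).symm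
  intro p hp
  obtain ⟨hpp, p2, p3, p5⟩ := hN p hp
  haveI : Fact p.Prime := ⟨hpp⟩
  have hpP := Nat.prime_iff_prime_int.1 hpp
  have hpD : (p : ℤ) ∣ D := by
    rw [hD, dvd_neg]
    exact_mod_cast dvd_of_mem hp
  obtain ⟨D', hD'⟩ := hpD
  have hnd' := not_dvd_of_sqf hpp hDs hD'
  have hD'0 : (D' : ZMod p) ≠ 0 := by
    rw [Ne, ZMod.intCast_zmod_eq_zero_iff_dvd]
    exact hnd'
  unfold genS
  split_ifs with hpD0
  · obtain ⟨-, z', hz'⟩ := (hmem p).1 hpD0
    have hB : ¬ (p : ℤ) ∣ 225 * D' ^ 2 := by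
      intro h0
      rcases hpP.dvd_or_dvd h0 with h1 | h1
      · exact hnd225 p hpp p3 p5 h1
      · exact hnd' (hpP.dvd_of_dvd_pow h1)
    have h1 := h' p
    rw [show -34 * D = (p : ℤ) * (-34 * D') by rw [hD']; ring,
      show 225 * D ^ 2 = (p : ℤ) ^ 2 * (225 * D' ^ 2) by rw [hD']; ring] at h1
    obtain ⟨r, hr, -, hr2⟩ := root_of_PC hz ⟨z', hz'⟩ hB h1
    have hr3 := hr2 z' hz'
    have n3 : (3 : ZMod p) ≠ 0 := by exact_mod_cast cast_ne hpp Nat.prime_three p3
    have n5 : (5 : ZMod p) ≠ 0 := by exact_mod_cast cast_ne hpp Nat.prime_five p5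
    have h2 : IsSquare ((D' : ZMod p) * (z' : ZMod p)) := by
      have h3 : (r - 9 * D') * (r - 25 * D') = 0 := by
        push_cast at hr
        linear_combination hr
      obtain ⟨t, ht⟩ := hr3
      rcases mul_eq_zero.1 h3 with h4 | h4
      · refine ⟨t / 3, ?_⟩
        have h5 := sub_eq_zero.1 h4
        rw [h5] at ht
        field_simp
        linear_combination ht
      · refine ⟨t / 5, ?_⟩
        have h5 := sub_eq_zero.1 h4
        rw [h5] at ht
        field_simp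
        linear_combination ht
    have hrel : D' = z' * ∏ q ∈ N \ D0, ps q := by
      have hp0 : (p : ℤ) ≠ 0 := by exact_mod_cast hpp.ne_zero
      apply mul_left_cancel₀ hp0
      rw [← hD', hDR, hz']
      ring
    set R := ∏ q ∈ N \ D0, ps q with hR
    have hrel' : (D' : ZMod p) = (z' : ZMod p) * (R : ZMod p) := by
      rw [hrel]
      push_cast
      ring
    have hR0 : (R : ZMod p) ≠ 0 := fun h0 => hD'0 (by rw [hrel', h0, mul_zero])
    have hz'0 : (z' : ZMod p) ≠ 0 := fun h0 => hD'0 (by rw [hrel', h0, zero_mul])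
    apply jac_one hR0
    obtain ⟨t, ht⟩ := h2
    refine ⟨t / z', ?_⟩
    rw [div_mul_div_comm, eq_div_iff (mul_ne_zero hz'0 hz'0), ← ht, hrel']
    ring
  · have hpz : ¬ (p : ℤ) ∣ z := fun h0 => hpD0 ((hmem p).2 ⟨hpp, h0⟩)
    have h1 := h' p
    rw [hD'] at h1
    have h3 := sq_of_PC (A0 := -34) (B0 := 225) hpz hnd' (hnd225 p hpp p3 p5) (by
      refine ⟨15, ?_⟩
      push_cast
      norm_num) h1
    rw [← hzpr]
    apply jac_one _ h3
    rw [Ne, ZMod.intCast_zmod_eq_zero_iff_dvd]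
    exact hpz

end Pool.Agent.XV.T
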