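import Pool.Agent.XV.T.Red
import Pool.Agent.NH3.XD.Num

/-!
# The final statement of project XV for the discriminants of the class `b`

`S_OUT` is the interface for the hand-ins: for all squarefree `D < 0` with `D = 13, 37 mod 60` the three
conditions `KrD D` (`4`-rank zero), `NoS D` / `RZ D` (finitely many points, no `Ш[2]`; two models of the
curve) and the nonvanishing with the `2`-part of the conjecture; `RZ D` implies the rank form.
-/

set_option autoImplicit false

namespace Pool.Agent.XV.T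

open Finset WeierstrassCurve
open Pool.Agent.Z700 (pr)
open Pool.Agent.XV (Pq Kb gen Kr SyM)
open Pool.Agent.Y700 (PC Omega IsL tamProd EQ tam)
open Pool.Agent.Z702 (WZ LocI sh)
open Pool.Agent.TH841.SH.D (Sha)
open Pool.Agent.Y687 (SS RankBSD)
open Pool.Agent.NH3.XD (DB KrD)

/-- finitely many rational points and no element of order two in `Ш`, for the twist by `D` of
`X_0(15)` in the form `y² = x³ - 12987 D² x - 263466 D³` -/
def RZ (D : ℤ) : Prop := Finite (sh (-12987 * D ^ 2) (-263466 * D ^ 3)).toAffine.Point ∧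
  ∀ x : Sha (sh (-12987 * D ^ 2) (-263466 * D ^ 3)), x + x = 0 → x = 0

/-- the final statement -/
def S_OUT : Prop := ∀ D : ℤ, DB D → Full15 D.natAbs.primeFactors D ∧ (NoS D ↔ KrD D) ∧
  (RZ D ↔ KrD D) ∧ (RZ D → RankBSD (-12987 * D ^ 2) (-263466 * D ^ 3)) ∧
  0 < Omega (W15 D) ∧ tamProd (W15 D) = 4 ^ (D.natAbs.primeFactors.card + 1) ∧
  ∃ k : ℕ, Odd k ∧ Nat.card (AddCommGroup.torsion (EQ (W15 D)).toAffine.Point) = 4 * k

theorem db_pq {D : ℤ} (h : DB D) : Squarefree D.natAbs ∧ Pq D.natAbs.primeFactors ∧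
    Kb (pr D.natAbs.primeFactors) ∧ D = -(pr D.natAbs.primeFactors : ℤ) ∧ D % 4 = 1 := by
  obtain ⟨h0, hs, hc⟩ := h
  have hs' : Squarefree D.natAbs := Int.squarefree_natAbs.2 hs
  have e := pr_pf hs'
  refine ⟨hs', ?_, ?_, ?_, by omega⟩
  · intro p hp
    have hd := Nat.dvd_of_mem_primeFactors hp
    have hP := Nat.prime_of_mem_primeFactors hp
    refine ⟨hP, ?_, ?_, ?_⟩
    · rintro rfl; omega
    · rintro rfl; omega
    · rintro rfl; omega
  · rw [e]
    unfold Kb
    omega
  · rw [e]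
    omega

theorem krD_redei {D : ℤ} (h : DB D) : KrD D ↔ Redei D.natAbs :=
  kr_redei (db_pq h).1 (db_pq h).2.1

/-- the final statement from the parts -/
theorem out_of (hM : Pool.Agent.XV.S_MAIN) (hV : Pool.Agent.XV.S_V5) (hE : Pool.Agent.XV.S_E56)
    (hMod : S_MOD) (hDsc : S_DSC) (hT : S_TRV) (hMin : S_MN15) (hTam : S_TMP) (hTor : S_TS4)
    (hI : S_INC) : S_OUT := by
  intro D hD
  obtain ⟨hs, hN, hb, e, h4⟩ := db_pq hD
  have hF := full15_of hM hV hE hMod hDsc hT hMin hTam hTor hN hb e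
  have hns : NoS D ↔ KrD D := (hDsc _ hN hb D e).symm
  obtain ⟨-, -, -, t4, t5⟩ := hT D h4
  have hrz : RZ D ↔ NoS D := and_congr t4.symm t5.symm
  refine ⟨hF, hns, hrz.trans hns, fun h => rank15_of hT hI h4 hF (hrz.1 h), ?_,
    hTam _ hN hb D e, torsion_of hT hTor hN hb e⟩
  obtain ⟨s, a, Om, hOm, -, -, hf⟩ := hMod
  have hcop : Nat.Coprime (pr D.natAbs.primeFactors) 15 := by
    rw [show (15 : ℕ) = 3 * 5 by norm_num]
    refine Nat.Coprime.mul_right ?_ ?_
    · rw [Nat.coprime_comm, Nat.Prime.coprime_iff_not_dvd Nat.prime_three]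
      unfold Kb at hb; omega
    · rw [Nat.coprime_comm, Nat.Prime.coprime_iff_not_dvd Nat.prime_five]
      unfold Kb at hb; omega
  obtain ⟨f, ε, -, -, -, hΩ⟩ := hf (pr D.natAbs.primeFactors) (by rw [pr_pf hs]; exact hs)
    (by unfold Kb at hb; omega) hcop
  rw [← e] at hΩ
  rw [hΩ]
  have h0 : (0 : ℝ) < (pr D.natAbs.primeFactors : ℝ) := by
    have : 0 < pr D.natAbs.primeFactors := by unfold Kb at hb; omega
    exact_mod_cast this
  exact div_pos (by positivity) (Real.sqrt_pos.2 h0)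

end Pool.Agent.XV.T
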