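import Pool.Agent.XR.All
import Pool.Agent.XV.T.Out

/-!
# Project XV: the criterion with the class group
-/

set_option autoImplicit false

namespace Pool.Agent.XV.T

open Pool.Agent.NH3.XD (DB KrD)
open Pool.Agent.Z700 (pr)

/-- Rédei's condition and the class group of `ℚ(√D)` -/
theorem krD_noFour {D : ℤ} (h : DB D) : KrD D ↔ XR.NoFour D := by
  obtain ⟨h0, hsq, h60⟩ := h
  have hnat : ((D.natAbs : ℕ) : ℤ) = -D := by omega
  have hsn : Squarefree D.natAbs := Int.squarefree_natAbs.2 hsq
  have hpr : pr D.natAbs.primeFactors = D.natAbs := Nat.prod_primeFactors_of_squarefree hsn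
  have hN : ∀ p ∈ D.natAbs.primeFactors, p.Prime ∧ p ≠ 2 := by
    intro p hp
    refine ⟨Nat.prime_of_mem_primeFactors hp, ?_⟩
    rintro rfl
    have := Nat.dvd_of_mem_primeFactors hp
    omega
  have h4 : pr D.natAbs.primeFactors % 4 = 3 := by
    rw [hpr]
    omega
  have h3 : 3 < pr D.natAbs.primeFactors := by
    rw [hpr]
    omega
  have key := XR.f_XR3a D.natAbs.primeFactors hN h4 h3
  rw [hpr, hnat, neg_neg] at key
  exact key

end Pool.Agent.XV.T
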