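import Pool.Agent.XV.T.Stm
import Pool.Agent.Y700.Lm

/-!
# Project XV, T8-8: from the complete Euler product to the incomplete one, the rank form
-/

set_option autoImplicit false
set_option linter.style.haveILetI false

namespace Pool.Agent.XV.T

open Finset WeierstrassCurve
open Pool.Agent.W97.MT (ap affCount)
open Pool.Agent.Y700 (IsL EQ)
open Pool.Agent.Y687 (fac RankBSD rankBSD)
open Pool.Agent.Z702 (sh)

namespace INC

theorem aff_le (W : WeierstrassCurve ℤ) (p : ℕ) [Fact p.Prime] : affCount W p ≤ 2 * p := by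
  classical
  unfold affCount
  set V := W.map (Int.castRingHom (ZMod p)) with hV
  have e1 : Nat.card {P : ZMod p × ZMod p // V.toAffine.Equation P.1 P.2} =
      (univ.filter fun P : ZMod p × ZMod p => V.toAffine.Equation P.1 P.2).card := by
    rw [Nat.card_eq_fintype_card, Fintype.card_subtype]
  rw [e1]
  have e2 : (univ.filter fun P : ZMod p × ZMod p => V.toAffine.Equation P.1 P.2).card ≤
      ∑ x : ZMod p, (univ.filter fun y : ZMod p => V.toAffine.Equation x y).card := by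
    rw [Finset.card_eq_sum_card_fiberwise (f := fun P : ZMod p × ZMod p => P.1) (t := univ)
      (fun _ _ => Finset.mem_coe.2 (mem_univ _))]
    refine Finset.sum_le_sum fun x _ => ?_
    refine Finset.card_le_card_of_injOn (fun P => P.2) ?_ ?_
    · intro P hP
      rw [Finset.mem_coe, Finset.mem_filter, Finset.mem_filter] at hP
      rw [Finset.mem_coe, Finset.mem_filter]
      refine ⟨mem_univ _, ?_⟩
      rw [← hP.2]
      exact hP.1.2
    · intro P hP Q hQ h
      rw [Finset.mem_coe, Finset.mem_filter] at hP hQ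
      exact Prod.ext (hP.2.trans hQ.2.symm) h
  refine e2.trans ?_
  have e3 : ∀ x : ZMod p, (univ.filter fun y : ZMod p => V.toAffine.Equation x y).card ≤ 2 := by
    intro x
    rcases (univ.filter fun y : ZMod p => V.toAffine.Equation x y).eq_empty_or_nonempty with h | h
    · rw [h]; simp
    · obtain ⟨y0, hy0⟩ := h
      have hy0' := (mem_filter.1 hy0).2
      rw [Affine.equation_iff] at hy0'
      have hsub : (univ.filter fun y : ZMod p => V.toAffine.Equation x y) ⊆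
          {y0, -y0 - V.a₁ * x - V.a₃} := by
        intro y hy
        have hy' := (mem_filter.1 hy).2
        rw [Affine.equation_iff] at hy'
        have h0 : (y - y0) * (y - (-y0 - V.a₁ * x - V.a₃)) = 0 := by
          linear_combination hy' - hy0'
        rw [mem_insert, mem_singleton]
        rcases mul_eq_zero.1 h0 with h | h
        · left; linear_combination h
        · right; linear_combination h
      refine (card_le_card hsub).trans ?_
      exact card_le_two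
  refine (Finset.sum_le_sum fun x _ => e3 x).trans ?_
  rw [Finset.sum_const, Finset.card_univ, ZMod.card, smul_eq_mul, mul_comm]

theorem W15_coeff {D : ℤ} (hD : D % 4 = 1) : ∃ a b c : ℤ, W15 D = ⟨1, a, 1, b, c⟩ ∧
    4 * a = 5 * D - 1 ∧ 2 * b = -(19 * D ^ 2 + 1) ∧ 4 * c = -(39 * D ^ 3 + 1) := by
  obtain ⟨k, rfl⟩ : ∃ k, D = 4 * k + 1 := ⟨D / 4, by omega⟩
  refine ⟨5 * k + 1, -(152 * k ^ 2 + 76 * k + 10), -(624 * k ^ 3 + 468 * k ^ 2 + 117 * k + 10),
    ?_, by ring, by ring, by ring⟩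
  unfold W15
  have e1 : (5 * (4 * k + 1) - 1) / 4 = 5 * k + 1 := by omega
  have e2 : -((19 * (4 * k + 1) ^ 2 + 1) / 2) = -(152 * k ^ 2 + 76 * k + 10) := by
    have : 19 * (4 * k + 1) ^ 2 + 1 = 2 * (152 * k ^ 2 + 76 * k + 10) := by ring
    rw [this, Int.mul_ediv_cancel_left _ (by norm_num)]
  have e3 : -((39 * (4 * k + 1) ^ 3 + 1) / 4) =
      -(624 * k ^ 3 + 468 * k ^ 2 + 117 * k + 10) := by
    have : 39 * (4 * k + 1) ^ 3 + 1 = 4 * (624 * k ^ 3 + 468 * k ^ 2 + 117 * k + 10) := by ring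
    rw [this, Int.mul_ediv_cancel_left _ (by norm_num)]
  rw [e1, e2, e3]

theorem Delta_W15 {D : ℤ} (hD : D % 4 = 1) : (W15 D).Δ = 50625 * D ^ 6 := by
  obtain ⟨a, b, c, hW, ha, hb, hc⟩ := W15_coeff hD
  rw [hW]
  unfold WeierstrassCurve.Δ WeierstrassCurve.b₂ WeierstrassCurve.b₄ WeierstrassCurve.b₆
    WeierstrassCurve.b₈
  simp only
  have e2 : (1 : ℤ) ^ 2 + 4 * a = 5 * D := by linear_combination ha
  have e4 : (2 : ℤ) * b + 1 * 1 = -19 * D ^ 2 := by linear_combination hb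
  have e6 : (1 : ℤ) ^ 2 + 4 * c = -39 * D ^ 3 := by linear_combination hc
  have e8 : 4 * ((1 : ℤ) ^ 2 * c + 4 * a * c - 1 * 1 * b + a * 1 ^ 2 - b ^ 2) =
      (5 * D) * (-39 * D ^ 3) - (-19 * D ^ 2) ^ 2 := by
    rw [← e2, ← e4, ← e6]
    ring
  rw [e2, e4, e6]
  have h4 : (4 : ℤ) ≠ 0 := by norm_num
  apply mul_left_cancel₀ h4
  linear_combination (-(5 * D) ^ 2) * e8

theorem aff_pos {D : ℤ} (hD : D % 4 = 1) (p : ℕ) [Fact p.Prime] : 0 < affCount (W15 D) p := by
  classical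
  obtain ⟨a, b, c, hW, ha, hb, hc⟩ := W15_coeff hD
  unfold affCount
  rw [Nat.card_pos_iff]
  obtain ⟨k, hk⟩ : ∃ k, D = 4 * k + 1 := ⟨D / 4, by omega⟩
  refine ⟨⟨⟨(((-D : ℤ) : ZMod p), ((2 * k : ℤ) : ZMod p)), ?_⟩⟩, inferInstance⟩
  rw [Affine.equation_iff]
  have h : (2 * k) ^ 2 + (W15 D).a₁ * (-D) * (2 * k) + (W15 D).a₃ * (2 * k) =
      (-D) ^ 3 + (W15 D).a₂ * (-D) ^ 2 + (W15 D).a₄ * (-D) + (W15 D).a₆ := by
    rw [hW]
    simp only
    have h4 : (4 : ℤ) ≠ 0 := by norm_num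
    apply mul_left_cancel₀ h4
    rw [hk] at ha hb hc ⊢
    linear_combination -(4 * k + 1) ^ 2 * ha + 2 * (4 * k + 1) * hb - hc
  have h2 := congrArg (fun z : ℤ => (z : ZMod p)) h
  push_cast at h2
  simp only [WeierstrassCurve.map_a₁, WeierstrassCurve.map_a₂, WeierstrassCurve.map_a₃,
    WeierstrassCurve.map_a₄, WeierstrassCurve.map_a₆, eq_intCast]
  push_cast
  exact h2

/-- the Euler factor -/
noncomputable def Ef (W : WeierstrassCurve ℤ) (p : ℕ) (s : ℂ) : ℂ :=
  1 - (ap W p : ℂ) * (p : ℂ) ^ (-s) + (if (p : ℤ) ∣ W.Δ then 0 else (p : ℂ) ^ (1 - 2 * s))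

theorem ef_one {D : ℤ} (hD : D % 4 = 1) {p : ℕ} (hp : p.Prime) : Ef (W15 D) p 1 ≠ 0 := by
  haveI : Fact p.Prime := ⟨hp⟩
  have h1 := aff_pos hD p
  have hp0 : (p : ℂ) ≠ 0 := by exact_mod_cast hp.ne_zero
  have e1 : (p : ℂ) ^ (-(1 : ℂ)) = (p : ℂ)⁻¹ := by
    rw [Complex.cpow_neg, Complex.cpow_one]
  have e2 : (p : ℂ) ^ (1 - 2 * (1 : ℂ)) = (p : ℂ)⁻¹ := by
    rw [show (1 - 2 * (1 : ℂ)) = -1 by norm_num, Complex.cpow_neg, Complex.cpow_one]
  have hap : (ap (W15 D) p : ℂ) = (p : ℂ) - (affCount (W15 D) p : ℂ) := by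
    unfold ap
    push_cast
    rfl
  unfold Ef
  rw [e1, e2, hap]
  intro h0
  have h2 : ∃ δ : ℕ, ((affCount (W15 D) p + δ : ℕ) : ℂ) = 0 := by
    split_ifs at h0
    · refine ⟨0, ?_⟩
      push_cast
      field_simp at h0
      linear_combination h0
    · refine ⟨1, ?_⟩
      push_cast
      field_simp at h0
      linear_combination h0
  obtain ⟨δ, h3⟩ := h2
  rw [Nat.cast_eq_zero] at h3
  omega

theorem ef_ne {D : ℤ} {p : ℕ} (hp : p.Prime)
    (hb : (p : ℤ) ∣ (W15 D).Δ ∨ p = 2) {s : ℂ} (hs : (3 : ℝ) / 2 < s.re) : Ef (W15 D) p s ≠ 0 := by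
  haveI : Fact p.Prime := ⟨hp⟩
  have h1 := aff_le (W15 D) p
  have hp1 : (1 : ℝ) < p := by exact_mod_cast hp.one_lt
  have hp0 : (0 : ℝ) < p := by linarith
  have hap : |(ap (W15 D) p : ℝ)| ≤ p := by
    have h2 : |ap (W15 D) p| ≤ p := by
      unfold ap
      rw [abs_le]
      constructor <;> omega
    exact_mod_cast h2
  have n1 : ‖(p : ℂ) ^ (-s)‖ < (p : ℝ) ^ (-(3 / 2) : ℝ) := by
    rw [Complex.norm_natCast_cpow_of_pos hp.pos, Complex.neg_re]
    exact Real.rpow_lt_rpow_of_exponent_lt hp1 (by linarith)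
  have n2 : ‖(ap (W15 D) p : ℂ) * (p : ℂ) ^ (-s)‖ ≤ p * (p : ℝ) ^ (-(3 / 2) : ℝ) := by
    rw [norm_mul]
    have e : ‖(ap (W15 D) p : ℂ)‖ = |(ap (W15 D) p : ℝ)| := by
      rw [Complex.norm_intCast]
    rw [e]
    exact mul_le_mul hap n1.le (norm_nonneg _) hp0.le
  have e3 : (p : ℝ) * (p : ℝ) ^ (-(3 / 2) : ℝ) = (p : ℝ) ^ (-(1 / 2) : ℝ) := by
    have h := Real.rpow_add hp0 1 (-(3 / 2))
    rw [Real.rpow_one] at h
    rw [← h]
    norm_num
  rw [e3] at n2
  intro h0
  unfold Ef at h0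
  by_cases hd : (p : ℤ) ∣ (W15 D).Δ
  · rw [if_pos hd, add_zero, sub_eq_zero] at h0
    rw [← h0, norm_one] at n2
    have h3 : (p : ℝ) ^ (-(1 / 2) : ℝ) < 1 := Real.rpow_lt_one_of_one_lt_of_neg hp1 (by norm_num)
    linarith
  · have hp2 : p = 2 := by
      rcases hb with h | h
      · exact absurd h hd
      · exact h
    rw [if_neg hd] at h0
    have n3 : ‖(p : ℂ) ^ (1 - 2 * s)‖ < (p : ℝ) ^ (-2 : ℝ) := by
      rw [Complex.norm_natCast_cpow_of_pos hp.pos]
      apply Real.rpow_lt_rpow_of_exponent_lt hp1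
      simp only [Complex.sub_re, Complex.one_re, Complex.mul_re, Complex.re_ofNat, Complex.im_ofNat,
        zero_mul, sub_zero]
      linarith
    have h4 : (1 : ℂ) = (ap (W15 D) p : ℂ) * (p : ℂ) ^ (-s) - (p : ℂ) ^ (1 - 2 * s) := by
      linear_combination h0
    have h5 : (1 : ℝ) ≤ (p : ℝ) ^ (-(1 / 2) : ℝ) + (p : ℝ) ^ (-2 : ℝ) := by
      calc (1 : ℝ) = ‖(1 : ℂ)‖ := by rw [norm_one]
        _ = ‖(ap (W15 D) p : ℂ) * (p : ℂ) ^ (-s) - (p : ℂ) ^ (1 - 2 * s)‖ := by rw [← h4]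
        _ ≤ _ := (norm_sub_le _ _).trans (add_le_add n2 n3.le)
    subst hp2
    have h6 : ((2 : ℕ) : ℝ) ^ (-(1 / 2) : ℝ) ≤ 37 / 50 := by
      rw [Real.rpow_neg (by norm_num), ← Real.sqrt_eq_rpow]
      rw [inv_le_comm₀ (Real.sqrt_pos.2 (by norm_num)) (by norm_num)]
      apply Real.le_sqrt_of_sq_le
      norm_num
    have h7 : ((2 : ℕ) : ℝ) ^ (-2 : ℝ) = 1 / 4 := by
      rw [show (-2 : ℝ) = ((-2 : ℤ) : ℝ) by norm_num, Real.rpow_intCast]
      norm_num
    rw [h7] at h5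
    linarith

theorem ef_diff (W : WeierstrassCurve ℤ) {p : ℕ} (hp : p.Prime) : Differentiable ℂ (Ef W p) := by
  have hp0 : (p : ℂ) ≠ 0 := by exact_mod_cast hp.ne_zero
  unfold Ef
  have h1 : Differentiable ℂ fun s : ℂ => (p : ℂ) ^ (-s) := by
    intro s
    exact (differentiableAt_id.neg).const_cpow (Or.inl hp0)
  have h2 : Differentiable ℂ fun s : ℂ => (p : ℂ) ^ (1 - 2 * s) := by
    intro s
    exact ((differentiableAt_const 1).sub ((differentiableAt_const 2).mul differentiableAt_id)).const_cpow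
      (Or.inl hp0)
  split_ifs
  · exact ((differentiable_const 1).sub ((differentiable_const _).mul h1)).add (differentiable_const 0)
  · exact ((differentiable_const 1).sub ((differentiable_const _).mul h1)).add h2

theorem disc_eq (D : ℤ) : 2 * (4 * (-12987 * D ^ 2) ^ 3 + 27 * (-263466 * D ^ 3) ^ 2) =
    -(2 ^ 9 * 3 ^ 16 * 5 ^ 4) * D ^ 6 := by ring

/-- the numbers of points of the two models -/
theorem card_pts {D : ℤ} {p : ℕ} [Fact p.Prime] (h2 : p ≠ 2) (h3 : p ≠ 3) (h4 : D % 4 = 1) :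
    Nat.card {q : ZMod p × ZMod p // q.2 ^ 2 = q.1 ^ 3 + ((-12987 * D ^ 2 : ℤ) : ZMod p) * q.1 +
      ((-263466 * D ^ 3 : ℤ) : ZMod p)} = affCount (W15 D) p := by
  have hpp : p.Prime := Fact.out
  obtain ⟨a, b, c, hW, ha, hb, hc⟩ := W15_coeff h4
  have c2 : (2 : ZMod p) ≠ 0 := by
    intro h
    have h' : ((2 : ℕ) : ZMod p) = 0 := by exact_mod_cast h
    rw [ZMod.natCast_eq_zero_iff] at h'
    exact h2 ((Nat.prime_dvd_prime_iff_eq hpp Nat.prime_two).1 h')
  have c3 : (3 : ZMod p) ≠ 0 := by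
    intro h
    have h' : ((3 : ℕ) : ZMod p) = 0 := by exact_mod_cast h
    rw [ZMod.natCast_eq_zero_iff] at h'
    exact h3 ((Nat.prime_dvd_prime_iff_eq hpp Nat.prime_three).1 h')
  have c36 : (36 : ZMod p) ≠ 0 := by
    have : (36 : ZMod p) = 2 ^ 2 * 3 ^ 2 := by norm_num
    rw [this]
    exact mul_ne_zero (pow_ne_zero _ c2) (pow_ne_zero _ c3)
  have c216 : (216 : ZMod p) ≠ 0 := by
    have : (216 : ZMod p) = 2 ^ 3 * 3 ^ 3 := by norm_num
    rw [this]
    exact mul_ne_zero (pow_ne_zero _ c2) (pow_ne_zero _ c3)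
  have c4 : (4 : ZMod p) ≠ 0 := by
    have : (4 : ZMod p) = 2 ^ 2 := by norm_num
    rw [this]
    exact pow_ne_zero _ c2
  have ha' : 4 * (a : ZMod p) = 5 * D - 1 := by
    have := congrArg (fun z : ℤ => (z : ZMod p)) ha
    push_cast at this
    exact this
  have hb' : 2 * (b : ZMod p) = -(19 * (D : ZMod p) ^ 2 + 1) := by
    have := congrArg (fun z : ℤ => (z : ZMod p)) hb
    push_cast at this
    exact this
  have hc' : 4 * (c : ZMod p) = -(39 * (D : ZMod p) ^ 3 + 1) := by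
    have := congrArg (fun z : ℤ => (z : ZMod p)) hc
    push_cast at this
    exact this
  unfold affCount
  refine (Nat.card_congr (Equiv.subtypeEquiv (α := ZMod p × ZMod p) (β := ZMod p × ZMod p)
    { toFun := fun q => (36 * q.1 + 15 * (D : ZMod p), 216 * q.2 + 108 * q.1 + 108)
      invFun := fun q => ((q.1 - 15 * (D : ZMod p)) / 36,
        (q.2 - 108 * ((q.1 - 15 * (D : ZMod p)) / 36) - 108) / 216)
      left_inv := ?_
      right_inv := ?_ } ?_)).symm
  · rintro ⟨x, y⟩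
    ext
    · change (36 * x + 15 * D - 15 * D) / 36 = x
      field_simp
      ring
    · change (216 * y + 108 * x + 108 - 108 * ((36 * x + 15 * D - 15 * D) / 36) - 108) / 216 = y
      have e : (36 * x + 15 * D - 15 * D) / 36 = x := by
        field_simp
        ring
      rw [e]
      field_simp
      ring
  · rintro ⟨x, y⟩
    ext
    · change 36 * ((x - 15 * D) / 36) + 15 * D = x
      field_simp
      ring
    · change 216 * ((y - 108 * ((x - 15 * D) / 36) - 108) / 216) + 108 * ((x - 15 * D) / 36) + 108 = y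
      rw [mul_div_cancel₀ _ c216]
      ring
  · rintro ⟨x, y⟩
    rw [Affine.equation_iff]
    simp only [hW, WeierstrassCurve.map_a₁, WeierstrassCurve.map_a₂, WeierstrassCurve.map_a₃,
      WeierstrassCurve.map_a₄, WeierstrassCurve.map_a₆, eq_intCast, Equiv.coe_fn_mk]
    push_cast
    have key : (216 * y + 108 * x + 108) ^ 2 - ((36 * x + 15 * D) ^ 3 +
        -12987 * (D : ZMod p) ^ 2 * (36 * x + 15 * D) + -263466 * (D : ZMod p) ^ 3) =
        216 ^ 2 * (y ^ 2 + 1 * x * y + 1 * y - (x ^ 3 + a * x ^ 2 + b * x + c)) := by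
      linear_combination (11664 * x ^ 2) * ha' + (23328 * x) * hb' + 11664 * hc'
    constructor
    · intro h
      rw [← sub_eq_zero, key, h, sub_self, mul_zero]
    · intro h
      rw [h, sub_self] at key
      have h5 := (mul_eq_zero.1 key.symm).resolve_left (pow_ne_zero _ c216)
      exact sub_eq_zero.1 h5

/-- **from the complete Euler product to the incomplete one** -/
theorem inc_of {D : ℤ} (h4 : D % 4 = 1) {f : ℂ → ℂ} (hf : IsL (W15 D) f) (h1 : f 1 ≠ 0) :
    ∃ F : ℂ → ℂ, Differentiable ℂ F ∧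
      (∀ s : ℂ, (3 : ℝ) / 2 < s.re →
        HasProd (fun l : {l : ℕ // l.Prime ∧
            ¬ ((l : ℤ) ∣ 2 * (4 * (-12987 * D ^ 2) ^ 3 + 27 * (-263466 * D ^ 3) ^ 2))} =>
          fac (-12987 * D ^ 2) (-263466 * D ^ 3) s l) (F s)) ∧ F 1 ≠ 0 := by
  classical
  have hD0 : D ≠ 0 := by rintro rfl; omega
  set T : Finset ℕ := (30 * D.natAbs).primeFactors with hT
  have hTn : 30 * D.natAbs ≠ 0 := by
    have := Int.natAbs_ne_zero.2 hD0
    omega
  have memT : ∀ p : ℕ, p ∈ T ↔ p.Prime ∧ ((p : ℤ) ∣ 2 * (4 * (-12987 * D ^ 2) ^ 3 +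
      27 * (-263466 * D ^ 3) ^ 2)) := by
    intro p
    rw [hT, Nat.mem_primeFactors_of_ne_zero hTn]
    refine and_congr_right fun hp => ?_
    have hP := Nat.prime_iff_prime_int.1 hp
    rw [disc_eq]
    constructor
    · intro h
      have h2 : (p : ℤ) ∣ 30 * D := by
        have h3 : (p : ℤ) ∣ ((30 * D.natAbs : ℕ) : ℤ) := by exact_mod_cast h
        rw [← Int.natAbs_dvd_natAbs] at h3 ⊢
        rw [Int.natAbs_natCast] at h3
        rw [Int.natAbs_mul]
        exact h3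
      have e : -(2 ^ 9 * 3 ^ 16 * 5 ^ 4) * D ^ 6 =
          (30 * D) * (-(2 ^ 8 * 3 ^ 15 * 5 ^ 3) * D ^ 5) := by
        ring
      rw [e]
      exact Dvd.dvd.mul_right h2 _
    · intro h
      have h2 : (p : ℤ) ∣ 30 * D := by
        have e : (30 * D) ^ 16 = (-(2 ^ 9 * 3 ^ 16 * 5 ^ 4) * D ^ 6) * (-(2 ^ 7 * 5 ^ 12) * D ^ 10) := by
          ring
        apply hP.dvd_of_dvd_pow (n := 16)
        rw [e]
        exact Dvd.dvd.mul_right h _
      have h3 : (p : ℤ).natAbs ∣ (30 * D).natAbs := Int.natAbs_dvd_natAbs.2 h2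
      rw [Int.natAbs_natCast, Int.natAbs_mul] at h3
      exact h3
  have hTp : ∀ p ∈ T, p.Prime := fun p hp => ((memT p).1 hp).1
  have hbad : ∀ p ∈ T, (p : ℤ) ∣ (W15 D).Δ ∨ p = 2 := by
    intro p hp
    have hpp := hTp p hp
    have hP := Nat.prime_iff_prime_int.1 hpp
    rw [hT, Nat.mem_primeFactors_of_ne_zero hTn] at hp
    rw [Delta_W15 h4]
    have h2 : (p : ℤ) ∣ 30 * D := by
      have h3 : (p : ℤ) ∣ ((30 * D.natAbs : ℕ) : ℤ) := by exact_mod_cast hp.2
      rw [← Int.natAbs_dvd_natAbs] at h3 ⊢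
      rw [Int.natAbs_natCast] at h3
      rw [Int.natAbs_mul]
      exact h3
    rcases hP.dvd_or_dvd h2 with h | h
    · have h5 : p ∣ 30 := by exact_mod_cast h
      have h6 : p ∣ 15 * 2 := by simpa using h5
      rcases (Nat.Prime.dvd_mul hpp).1 h6 with h7 | h7
      · left
        have h8 : (p : ℤ) ∣ 15 := by exact_mod_cast h7
        have e : 50625 * D ^ 6 = 15 * (3375 * D ^ 6) := by ring
        rw [e]
        exact Dvd.dvd.mul_right h8 _
      · right
        exact (Nat.prime_dvd_prime_iff_eq hpp Nat.prime_two).1 h7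
    · left
      exact Dvd.dvd.mul_left (Dvd.dvd.pow h (by norm_num)) _
  refine ⟨fun s => f s * ∏ p ∈ T, Ef (W15 D) p s, ?_, ?_, ?_⟩
  · refine hf.1.mul ?_
    exact Differentiable.fun_finsetProd fun p hp => ef_diff _ (hTp p hp)
  · intro s hs
    have h2 := hf.2 s (by exact_mod_cast hs)
    set g : ℕ → ℂ := fun p => if p.Prime then (Ef (W15 D) p s)⁻¹ else 1 with hg
    have h3 : HasProd g (f s) := by
      rw [← hasProd_subtype_iff_of_mulSupport_subset (s := {p : ℕ | p.Prime})]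
      · refine (congrArg (fun G => HasProd G (f s)) (funext fun p => ?_)).mp h2
        show _ = g p
        rw [hg]
        simp only
        rw [if_pos (show Nat.Prime (p : ℕ) from p.2)]
        rfl
      · intro p hp
        rw [Function.mem_mulSupport] at hp
        by_contra h
        apply hp
        rw [hg]
        simp only
        rw [if_neg (show ¬ Nat.Prime p from h)]
    set h : ℕ → ℂ := fun p => if p ∈ T then Ef (W15 D) p s else 1 with hh
    have h4' : HasProd h (∏ p ∈ T, h p) := hasProd_prod_of_ne_finset_one fun p hp => by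
      rw [hh]
      simp only
      rw [if_neg hp]
    have h5 : ∏ p ∈ T, h p = ∏ p ∈ T, Ef (W15 D) p s := by
      refine Finset.prod_congr rfl fun p hp => ?_
      rw [hh]
      simp only
      rw [if_pos hp]
    rw [h5] at h4'
    have h6 := h3.mul h4'
    have h7 : (fun p => g p * h p) = fun p : ℕ => if p.Prime ∧ ¬ ((p : ℤ) ∣
        2 * (4 * (-12987 * D ^ 2) ^ 3 + 27 * (-263466 * D ^ 3) ^ 2)) then
        fac (-12987 * D ^ 2) (-263466 * D ^ 3) s p else 1 := by
      funext p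
      rw [hg, hh]
      simp only
      by_cases hp : p.Prime
      · by_cases hpT : p ∈ T
        · rw [if_pos hp, if_pos hpT, if_neg (fun h => h.2 ((memT p).1 hpT).2),
            inv_mul_cancel₀ (ef_ne hp (hbad p hpT) hs)]
        · have hnd : ¬ ((p : ℤ) ∣ 2 * (4 * (-12987 * D ^ 2) ^ 3 + 27 * (-263466 * D ^ 3) ^ 2)) :=
            fun h => hpT ((memT p).2 ⟨hp, h⟩)
          rw [if_pos hp, if_neg hpT, if_pos ⟨hp, hnd⟩, mul_one]
          have hdv : ∀ k : ℕ, p ∣ k → k ∣ 30 * D.natAbs → False := by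
            intro k h1 h2
            apply hpT
            rw [hT, Nat.mem_primeFactors_of_ne_zero hTn]
            exact ⟨hp, h1.trans h2⟩
          have hp2 : p ≠ 2 := by
            rintro rfl
            exact hdv 2 (dvd_refl _) (Dvd.dvd.mul_right (by norm_num) _)
          have hp3 : p ≠ 3 := by
            rintro rfl
            exact hdv 3 (dvd_refl _) (Dvd.dvd.mul_right (by norm_num) _)
          haveI : Fact p.Prime := ⟨hp⟩
          have hc := card_pts hp2 hp3 h4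
          have hΔ : ¬ (p : ℤ) ∣ (W15 D).Δ := by
            rw [Delta_W15 h4]
            intro h
            apply hnd
            rw [disc_eq]
            have e : -(2 ^ 9 * 3 ^ 16 * 5 ^ 4) * D ^ 6 = (50625 * D ^ 6) * (-(2 ^ 9 * 3 ^ 12)) := by
              ring
            rw [e]
            exact Dvd.dvd.mul_right h _
          unfold Ef fac ap
          rw [if_neg hΔ, hc]
      · rw [if_neg hp, if_neg (fun h => hp ((memT p).1 h).1), if_neg (fun h => hp h.1), mul_one]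
    rw [h7] at h6
    rw [← hasProd_subtype_iff_of_mulSupport_subset (s := {l : ℕ | l.Prime ∧
      ¬ ((l : ℤ) ∣ 2 * (4 * (-12987 * D ^ 2) ^ 3 + 27 * (-263466 * D ^ 3) ^ 2))})] at h6
    · refine (congrArg (fun G => HasProd G _) (funext fun p => ?_)).mp h6
      simp only [Function.comp_apply]
      exact if_pos p.2
    · intro p hp
      rw [Function.mem_mulSupport] at hp
      by_contra hcon
      exact hp (if_neg hcon)
  · exact mul_ne_zero h1 (Finset.prod_ne_zero_iff.2 fun p hp => ef_one h4 (hTp p hp))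

theorem finite_pts {A B : ℤ} (hd : 4 * A ^ 3 + 27 * B ^ 2 ≠ 0)
    (h : Finite (sh A B).toAffine.Point) :
    {q : ℚ × ℚ | q.2 ^ 2 = q.1 ^ 3 + (A : ℚ) * q.1 + (B : ℚ)}.Finite := by
  have hΔ : (sh A B).Δ ≠ 0 := by
    have e : (sh A B).Δ = -16 * ((4 * A ^ 3 + 27 * B ^ 2 : ℤ) : ℚ) := by
      unfold sh WeierstrassCurve.Δ WeierstrassCurve.b₂ WeierstrassCurve.b₄ WeierstrassCurve.b₆
        WeierstrassCurve.b₈
      push_cast
      ring
    rw [e]
    exact mul_ne_zero (by norm_num) (by exact_mod_cast hd)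
  have hns : ∀ q : ℚ × ℚ, q.2 ^ 2 = q.1 ^ 3 + (A : ℚ) * q.1 + (B : ℚ) →
      (sh A B).toAffine.Nonsingular q.1 q.2 := by
    intro q hq
    refine (Affine.equation_iff_nonsingular_of_Δ_ne_zero hΔ).1 ?_
    rw [Affine.equation_iff]
    show q.2 ^ 2 + 0 * q.1 * q.2 + 0 * q.2 = q.1 ^ 3 + 0 * q.1 ^ 2 + (A : ℚ) * q.1 + (B : ℚ)
    linarith
  rw [← Set.finite_coe_iff]
  let g : {q : ℚ × ℚ | q.2 ^ 2 = q.1 ^ 3 + (A : ℚ) * q.1 + (B : ℚ)} → (sh A B).toAffine.Point :=
    fun q => Affine.Point.some q.1.1 q.1.2 (hns q.1 q.2)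
  refine Finite.of_injective g ?_
  rintro ⟨⟨x, y⟩, hq⟩ ⟨⟨x', y'⟩, hq'⟩ h
  simp only [g, Affine.Point.some.injEq] at h
  obtain ⟨rfl, rfl⟩ := h
  rfl

theorem disc_ne {D : ℤ} (hD : D ≠ 0) :
    4 * (-12987 * D ^ 2) ^ 3 + 27 * (-263466 * D ^ 3) ^ 2 ≠ 0 := by
  have e : 4 * (-12987 * D ^ 2) ^ 3 + 27 * (-263466 * D ^ 3) ^ 2 =
    -(2 ^ 8 * 3 ^ 16 * 5 ^ 4) * D ^ 6 := by ring
  rw [e]
  exact mul_ne_zero (by norm_num) (pow_ne_zero 6 hD)

end INC

/-- T8-8: the incomplete L-function -/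
theorem t_INC : S_INC := by
  intro D h4 hD f hf h1 hfin
  obtain ⟨F, g1, g2, g3⟩ := INC.inc_of h4 hf h1
  exact rankBSD g1 g2 g3 (INC.finite_pts (INC.disc_ne hD) hfin)

end Pool.Agent.XV.T
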