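import Pool.Agent.XV.Main
import Pool.Agent.XV.T3.Fin
import Pool.Agent.XV.T3.All
import Pool.Agent.XV.E
import Pool.Agent.XV.Card
import Pool.Agent.XV.Cm
import Pool.Agent.XV.Coc
import Pool.Agent.XV.Parb
import Pool.Agent.XV.Sq
import Pool.Agent.XV.Dia
import Pool.Agent.XV.C1
import Pool.Agent.XV.C1A
import Pool.Agent.XV.C2
import Pool.Agent.XV.Cnt5
import Pool.Agent.XV.Lvl
import Pool.Agent.XV.Phi
import Pool.Agent.XV.Uod
import Pool.Agent.XV.Van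
import Pool.Agent.XV.Wt
import Pool.Agent.XV.PC
import Pool.Agent.XV.MT.All

/-!
# Project XV: the main statements, unconditionally
-/

set_option autoImplicit false

namespace Pool.Agent.XV

theorem f_VAN5 : S_VAN5 := t_VAN5 t_PHI t_REF

theorem f_VAN3 : S_VAN3 := t_VAN3 t_PHI t_REF f_V4

theorem f_SQ : S_SQ :=
  t_SQ t_PHI t_REF f_V4 f_VAN5 f_VAN3 t_EQ3 (t_WTV t_PHI) t_WPN f_PS

theorem f_CARD : S_CARD := t_CARD t_PC

theorem f_CLS : S_CLS := t_CLS f_CARD t_LVL t_C20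

theorem f_FE : S_FE := t_FE t_COC t_PARI t_UODQ

theorem f_DIA : S_DIA := t_DIA (t_C1 t_C1A t_PARI) t_C2 f_SQ t_WPN

/-- the values of the class `b` and of the class `d` -/
theorem f_E56 : S_E56 := t_E56 f_DIA f_FE f_CLS t_CM

theorem f_SYE : ∃ (s : ℚ → ℤ) (a : ℕ → ℤ), SyM s a ∧ s (1 / 4) ≠ 0 := by
  obtain ⟨t, sp, sm, Op, Om, -, -, -, -, -, -, h1, h2⟩ := MT.t_G1
  exact ⟨sm, _, h1, h2⟩

theorem f_E14 : S_E14 :=
  t_E14 f_DIA f_E56 t_UODQ (t_PARB t_COC t_PARI) t_COC t_PARI t_CM f_SYE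

/-- **the structure theorem** -/
theorem f_MAIN : S_MAIN :=
  t_MAIN f_E14 f_VAN5 f_VAN3 u_V5 f_V3 t_EQ3 (t_EV3 t_PHI t_REF) (t_CNT5 t_PHI t_REF) t_PHI

end Pool.Agent.XV
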