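import Pool.Agent.XV.T.Stm
import Pool.Agent.Z702.LocZ
import Pool.Agent.Z894.LG
import Pool.Agent.Z864.LQ.Lq

/-!
# Project XV, part T7-7: local solubility
-/

set_option autoImplicit false

namespace Pool.Agent.XV.T.LOCH

open Finset
open Pool.Agent.Z700 (pr)
open Pool.Agent.XV (Pq Kb gen)
open Pool.Agent.Z702 (LocI padic_sq padic_sq2)
open Pool.Agent.TH841.LS.LOCA0

/-- the point `(-4 D, 0)` -/
lemma loc_D {K : Type} [Field K] [CharZero K] {D d : ℤ} (hD : D ≠ 0) (hd : d ≠ 0)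
    (h : IsSquare ((-D * d : ℤ) : K)) : LocI K (aD D) (bD D) d := by
  obtain ⟨s, hs⟩ := h
  have hD' : (D : K) ≠ 0 := by exact_mod_cast hD
  have hd' : (d : K) ≠ 0 := by exact_mod_cast hd
  refine ⟨-4 * D, 0, 2 * s / d, mul_ne_zero (by norm_num) hD', ?_, ?_⟩
  · unfold aD bD
    push_cast
    ring
  · push_cast at hs
    field_simp
    linear_combination 4 * hs

/-- a point with integral `X` -/
lemma loc_X {K : Type} [Field K] [CharZero K] {D d X c e f : ℤ} (hX : X ≠ 0) (hd : d ≠ 0)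
    (he : e ≠ 0) (h1 : IsSquare ((c : ℤ) : K)) (h2 : X * (X + 4 * D) * (X + 64 * D) = f ^ 2 * c)
    (h3 : IsSquare ((e : ℤ) : K)) (g : ℤ) (h4 : X * d = g ^ 2 * e) : LocI K (aD D) (bD D) d := by
  obtain ⟨s, hs⟩ := h1
  obtain ⟨t, ht⟩ := h3
  have hX' : (X : K) ≠ 0 := by exact_mod_cast hX
  have hd' : (d : K) ≠ 0 := by exact_mod_cast hd
  have h2' := congrArg (Int.cast : ℤ → K) h2
  have h4' := congrArg (Int.cast : ℤ → K) h4
  push_cast at h2' h4'
  refine ⟨X, f * s, g * t / d, hX', ?_, ?_⟩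
  · unfold aD bD
    push_cast
    linear_combination -h2' - (f : K) ^ 2 * hs
  · field_simp
    linear_combination h4' + (g : K) ^ 2 * ht

theorem t_LGF' : S_LGF := by
  intro p hp D d h2 h3 h5 hD hd
  have hDz : (D : ZMod p) ≠ 0 := by
    intro h0
    exact hD ((ZMod.intCast_zmod_eq_zero_iff_dvd D p).1 h0)
  have hdz : (d : ZMod p) ≠ 0 := by
    intro h0
    exact hd ((ZMod.intCast_zmod_eq_zero_iff_dvd d p).1 h0)
  have hne : ∀ n : ℕ, n.Prime → p ≠ n → (n : ZMod p) ≠ 0 := by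
    intro n hn hpn h0
    rw [ZMod.natCast_eq_zero_iff] at h0
    exact hpn ((Nat.prime_dvd_prime_iff_eq hp.out hn).1 h0)
  have h2z : (2 : ZMod p) ≠ 0 := by exact_mod_cast hne 2 Nat.prime_two h2
  have h3z : (3 : ZMod p) ≠ 0 := by exact_mod_cast hne 3 Nat.prime_three h3
  have h5z : (5 : ZMod p) ≠ 0 := by exact_mod_cast hne 5 (by norm_num) h5
  have hD0 : D ≠ 0 := by
    rintro rfl
    exact hD (dvd_zero _)
  have hd0 : d ≠ 0 := by
    rintro rfl
    exact hd (dvd_zero _)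
  have hb0 : bD D ≠ 0 := by unfold bD; positivity
  have hc0 : aD D ^ 2 - 4 * bD D ≠ 0 := by
    have : aD D ^ 2 - 4 * bD D = 256 * D ^ 2 := by unfold aD bD; ring
    rw [this]
    positivity
  obtain ⟨hq, -⟩ := Pool.Agent.Z864.LQ.t_LQ (aD D) (bD D) d hb0 hc0 hd0
  rcases quadraticChar_dichotomy hdz with hd1 | hd1
  · apply hq p
    left
    exact padic_sq h2 hd ((quadraticChar_one_iff_isSquare hdz).mp hd1)
  · refine Pool.Agent.Z894.LG.aux p _ _ d h2 ?_ ?_ hd0 hd1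
    · have e : ((bD D : ℤ) : ZMod p) = (3 * 5 * D) ^ 2 := by unfold bD; push_cast; ring
      rw [e]
      exact pow_ne_zero 2 (mul_ne_zero (mul_ne_zero h3z h5z) hDz)
    · have e : ((aD D : ℤ) : ZMod p) ^ 2 - 4 * ((bD D : ℤ) : ZMod p) = (2 ^ 4 * D) ^ 2 := by
        unfold aD bD; push_cast; ring
      rw [e]
      exact quadraticChar_sq_one' (mul_ne_zero (pow_ne_zero 4 h2z) hDz)

lemma not_dvd_pr {N : Finset ℕ} (hN : ∀ p ∈ N, p.Prime) {p : ℕ} (hp : p.Prime) (hpN : p ∉ N) :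
    ¬ (p : ℤ) ∣ (pr N : ℤ) := by
  intro h
  have h' : p ∣ pr N := by exact_mod_cast h
  unfold pr at h'
  rw [Prime.dvd_finsetProd_iff hp.prime] at h'
  obtain ⟨r, hr, hpr⟩ := h'
  have := (Nat.prime_dvd_prime_iff_eq hp (hN r hr)).mp hpr
  exact hpN (this ▸ hr)

lemma sq_of_jacobi {p : ℕ} [hp : Fact p.Prime] {n : ℤ} (h : jacobiSym n p = 1) :
    IsSquare (n : ZMod p) := by
  rw [← jacobiSym.legendreSym.to_jacobiSym] at h
  have hn : (n : ZMod p) ≠ 0 := by
    intro h0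
    rw [(legendreSym.eq_zero_iff p n).mpr h0] at h
    exact zero_ne_one h
  exact (legendreSym.eq_one_iff p hn).mp h

end Pool.Agent.XV.T.LOCH

namespace Pool.Agent.XV.T

open Finset LOCH
open Pool.Agent.Z700 (pr)
open Pool.Agent.XV (Pq Kb gen)
open Pool.Agent.Z702 (LocI padic_sq padic_sq2)

theorem t_LGF : S_LGF := t_LGF'

theorem t_LOC (h : S_LGF) : S_LOC := by
  classical
  intro N hN hb D hD D0 hD0 hg
  have hNp : ∀ p ∈ N, p.Prime := fun p hp => (hN p hp).1
  have hn0 : 0 < pr N := prod_pos fun p hp => (hNp p hp).pos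
  have hd0 : 0 < pr D0 := prod_pos fun p hp => (hNp p (hD0 hp)).pos
  have hdz : (pr D0 : ℤ) ≠ 0 := by exact_mod_cast hd0.ne'
  have hDz : D ≠ 0 := by rw [hD]; simpa using hn0.ne'
  have hb0 : bD D ≠ 0 := by unfold bD; positivity
  have hc0 : aD D ^ 2 - 4 * bD D ≠ 0 := by
    have : aD D ^ 2 - 4 * bD D = 256 * D ^ 2 := by unfold aD bD; ring
    rw [this]
    positivity
  obtain ⟨hq, hqR⟩ := Pool.Agent.Z864.LQ.t_LQ (aD D) (bD D) (pr D0 : ℤ) hb0 hc0 hdz
  refine ⟨fun p hp => ?_, hqR (by exact_mod_cast hd0)⟩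
  have hmul : pr N = pr D0 * pr (N \ D0) := by
    unfold pr
    rw [mul_comm]
    exact (prod_sdiff hD0).symm
  have hpn : ∀ l : ℕ, l ∉ N → l.Prime → ¬ (l : ℤ) ∣ (pr D0 : ℤ) := fun l hl hlp =>
    not_dvd_pr (fun q hq => hNp q (hD0 hq)) hlp (fun h' => hl (hD0 h'))
  have hNm : (pr N : ℤ) % 60 = 23 ∨ (pr N : ℤ) % 60 = 47 := by
    rcases hb with hb | hb
    · left; exact_mod_cast hb
    · right; exact_mod_cast hb
  by_cases p2 : p = 2
  · subst p2
    have h2N : 2 ∉ N := fun h' => (hN 2 h').2.1 rfl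
    have hd2 := hpn 2 h2N Nat.prime_two
    have hD8 : D % 8 = 1 ∨ D % 8 = 5 := by omega
    set d : ℤ := (pr D0 : ℤ) with hdd
    have hd8 : d % 8 = 1 ∨ d % 8 = 3 ∨ d % 8 = 5 ∨ d % 8 = 7 := by
      have : ¬ (2 : ℤ) ∣ d := by exact_mod_cast hd2
      omega
    have hm : ∀ {x y z w : ℤ}, x % 8 = z → y % 8 = w → (x * y) % 8 = (z * w) % 8 := by
      intro x y z w h1 h2
      rw [Int.mul_emod, h1, h2]
    rcases hD8 with hD8 | hD8 <;> rcases hd8 with hd8 | hd8 | hd8 | hd8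
    · exact hq 2 (Or.inl (padic_sq2 hd8))
    · -- D = 1, d = 3: X = 48
      refine loc_X (X := 48) (c := 3 * ((12 + D) * (3 + 4 * D))) (e := 3 * d) (f := 32) (by norm_num)
        hdz (mul_ne_zero (by norm_num) hdz) (padic_sq2 ?_) (by ring) (padic_sq2 (by omega)) 4
        (by ring)
      have h1 : ((12 + D) * (3 + 4 * D)) % 8 = (5 * 7) % 8 := hm (by omega) (by omega)
      omega
    · -- D = 1, d = 5: X = 80
      refine loc_X (X := 80) (c := 5 * ((20 + D) * (5 + 4 * D))) (e := 5 * d) (f := 32) (by norm_num)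
        hdz (mul_ne_zero (by norm_num) hdz) (padic_sq2 ?_) (by ring) (padic_sq2 (by omega)) 4
        (by ring)
      have h1 : ((20 + D) * (5 + 4 * D)) % 8 = (5 * 1) % 8 := hm (by omega) (by omega)
      omega
    · -- D = 1, d = 7
      refine loc_D hDz hdz (padic_sq2 ?_)
      have h1 : (-D * d) % 8 = (7 * 7) % 8 := hm (by omega) (by omega)
      omega
    · exact hq 2 (Or.inl (padic_sq2 hd8))
    · -- D = 5, d = 3
      refine loc_D hDz hdz (padic_sq2 ?_)
      have h1 : (-D * d) % 8 = (3 * 3) % 8 := hm (by omega) (by omega)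
      omega
    · -- D = 5, d = 5: X = 5
      refine loc_X (X := 5) (c := 5 * ((5 + 4 * D) * (5 + 64 * D))) (e := 5 * d) (f := 1)
        (by norm_num) hdz (mul_ne_zero (by norm_num) hdz) (padic_sq2 ?_) (by ring)
        (padic_sq2 (by omega)) 1 (by ring)
      have h1 : ((5 + 4 * D) * (5 + 64 * D)) % 8 = (1 * 5) % 8 := hm (by omega) (by omega)
      omega
    · -- D = 5, d = 7: X = 16 - 4 D
      refine loc_X (X := 4 * (4 - D)) (c := (4 - D) * (4 + 15 * D)) (e := (4 - D) * d) (f := 16)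
        (by omega) hdz (mul_ne_zero (by omega) hdz) (padic_sq2 ?_) (by ring)
        (padic_sq2 ?_) 2 (by ring)
      · have h1 : ((4 - D) * (4 + 15 * D)) % 8 = (7 * 7) % 8 := hm (by omega) (by omega)
        omega
      · have h1 : ((4 - D) * d) % 8 = (7 * 7) % 8 := hm (by omega) (by omega)
        omega
  by_cases p3 : p = 3
  · subst p3
    have h3N : 3 ∉ N := fun h' => (hN 3 h').2.2.1 rfl
    have hd3 := hpn 3 h3N Nat.prime_three
    have hd3' : ¬ (3 : ℤ) ∣ (pr D0 : ℤ) := by exact_mod_cast hd3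
    have hD3 : D % 3 = 1 := by omega
    have hd : (pr D0 : ℤ) % 3 = 1 ∨ (pr D0 : ℤ) % 3 = 2 := by omega
    rcases hd with hd | hd
    · refine hq 3 (Or.inl (padic_sq (by norm_num) hd3 ?_))
      have e : (((pr D0 : ℤ)) : ZMod 3) = ((1 : ℤ) : ZMod 3) := by
        rw [ZMod.intCast_eq_intCast_iff']
        exact_mod_cast hd
      rw [e]
      exact ⟨1, by norm_num⟩
    · have h1 : (-D * (pr D0 : ℤ)) % 3 = 1 := by
        rw [Int.mul_emod, hd]
        have : (-D) % 3 = 2 := by omega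
        rw [this]
        norm_num
      refine loc_D hDz hdz (padic_sq (by norm_num) ?_ ?_)
      · intro h2
        have h2' : (3 : ℤ) ∣ -D * (pr D0 : ℤ) := by exact_mod_cast h2
        omega
      · have e : (((-D * (pr D0 : ℤ) : ℤ)) : ZMod 3) = ((1 : ℤ) : ZMod 3) := by
          rw [ZMod.intCast_eq_intCast_iff']
          exact_mod_cast h1
        rw [e]
        exact ⟨1, by norm_num⟩
  by_cases p5 : p = 5
  · subst p5
    have h5N : 5 ∉ N := fun h' => (hN 5 h').2.2.2 rfl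
    have hd5 := hpn 5 h5N (by norm_num)
    have hd5' : ¬ (5 : ℤ) ∣ (pr D0 : ℤ) := by exact_mod_cast hd5
    have hD5 : (-D) % 5 = 2 ∨ (-D) % 5 = 3 := by omega
    have sq5 : ∀ n : ℤ, n % 5 = 1 ∨ n % 5 = 4 → IsSquare (n : ZMod 5) := by
      intro n hn
      rcases hn with hn | hn
      · have e : (n : ZMod 5) = ((1 : ℤ) : ZMod 5) := by
          rw [ZMod.intCast_eq_intCast_iff']
          exact_mod_cast hn
        rw [e]
        exact ⟨1, by norm_num⟩
      · have e : (n : ZMod 5) = ((4 : ℤ) : ZMod 5) := by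
          rw [ZMod.intCast_eq_intCast_iff']
          exact_mod_cast hn
        rw [e]
        exact ⟨2, by norm_num⟩
    have hd : ((pr D0 : ℤ) % 5 = 1 ∨ (pr D0 : ℤ) % 5 = 4) ∨
        ((pr D0 : ℤ) % 5 = 2 ∨ (pr D0 : ℤ) % 5 = 3) := by omega
    rcases hd with hd | hd
    · exact hq 5 (Or.inl (padic_sq (by norm_num) hd5 (sq5 _ hd)))
    · have h1 : (-D * (pr D0 : ℤ)) % 5 = 1 ∨ (-D * (pr D0 : ℤ)) % 5 = 4 := by
        rcases hD5 with h1 | h1 <;> rcases hd with h2 | h2 <;> rw [Int.mul_emod, h1, h2] <;>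
          norm_num
      refine loc_D hDz hdz (padic_sq (by norm_num) ?_ (sq5 _ h1))
      intro h2
      have h2' : (5 : ℤ) ∣ -D * (pr D0 : ℤ) := by exact_mod_cast h2
      omega
  by_cases pN : p ∈ N
  · by_cases pD : p ∈ D0
    · have h1 := hg p pN
      unfold gen at h1
      rw [if_pos pD] at h1
      have h2 : ¬ (p : ℤ) ∣ (pr (N \ D0) : ℤ) :=
        not_dvd_pr (fun q hq => hNp q (mem_sdiff.mp hq).1) hp.out
          (fun h' => (mem_sdiff.mp h').2 pD)
      obtain ⟨s, hs⟩ := padic_sq p2 h2 (sq_of_jacobi h1)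
      refine loc_D hDz hdz ⟨(pr D0 : ℚ_[p]) * s, ?_⟩
      rw [hD, hmul]
      push_cast at hs ⊢
      linear_combination ((pr D0 : ℕ) : ℚ_[p]) ^ 2 * hs
    · have h1 := hg p pN
      unfold gen at h1
      rw [if_neg pD] at h1
      have h2 : ¬ (p : ℤ) ∣ (pr D0 : ℤ) :=
        not_dvd_pr (fun q hq => hNp q (hD0 hq)) hp.out pD
      exact hq p (Or.inl (padic_sq p2 h2 (sq_of_jacobi h1)))
  · refine h p D _ p2 p3 p5 ?_ (hpn p pN hp.out)
    rw [hD]
    intro h1
    exact not_dvd_pr hNp hp.out pN (by simpa using h1)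

end Pool.Agent.XV.T
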