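import Mathlib
import Pool.Agent.XV.T.Stm

/-!
# Project XV, T8-2: minimality of the equation of the twists of `X_0(15)`
-/

set_option autoImplicit false

namespace Pool.Agent.XV.T

open Pool.Agent.W97.MT (IsGloballyMinimal)

namespace Mn

theorem W15_k (k : ℤ) : W15 (4 * k + 1) =
    ⟨1, 5 * k + 1, 1, -(152 * k ^ 2 + 76 * k + 10), -(624 * k ^ 3 + 468 * k ^ 2 + 117 * k + 10)⟩ := by
  have h1 : (5 * (4 * k + 1) - 1) / 4 = 5 * k + 1 := by omega
  have h2 : (19 * (4 * k + 1) ^ 2 + 1) / 2 = 152 * k ^ 2 + 76 * k + 10 := by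
    rw [show 19 * (4 * k + 1) ^ 2 + 1 = 2 * (152 * k ^ 2 + 76 * k + 10) by ring]
    exact Int.mul_ediv_cancel_left _ (by norm_num)
  have h3 : (39 * (4 * k + 1) ^ 3 + 1) / 4 = 624 * k ^ 3 + 468 * k ^ 2 + 117 * k + 10 := by
    rw [show 39 * (4 * k + 1) ^ 3 + 1 = 4 * (624 * k ^ 3 + 468 * k ^ 2 + 117 * k + 10) by ring]
    exact Int.mul_ediv_cancel_left _ (by norm_num)
  unfold W15
  rw [h1, h2, h3]

theorem W15_Δ (k : ℤ) : (W15 (4 * k + 1)).Δ = 50625 * (4 * k + 1) ^ 6 := by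
  rw [W15_k]
  simp only [WeierstrassCurve.Δ, WeierstrassCurve.b₂, WeierstrassCurve.b₄, WeierstrassCurve.b₆,
    WeierstrassCurve.b₈]
  ring

theorem sqf15 {M : ℤ} (hs : Squarefree M) (h3 : ¬ (3 : ℤ) ∣ M) (h5 : ¬ (5 : ℤ) ∣ M) :
    Squarefree (15 * M) := by
  have c3 : IsCoprime (3 : ℤ) M := by
    refine (Prime.coprime_iff_not_dvd ?_).2 h3
    exact_mod_cast Nat.prime_iff_prime_int.1 (by norm_num : Nat.Prime 3)
  have c5 : IsCoprime (5 : ℤ) M := by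
    refine (Prime.coprime_iff_not_dvd ?_).2 h5
    exact_mod_cast Nat.prime_iff_prime_int.1 (by norm_num : Nat.Prime 5)
  have c15 : IsCoprime (15 : ℤ) M := by
    have := c3.mul_left c5
    norm_num at this
    exact this
  refine squarefree_mul_iff.2 ⟨c15.isRelPrime, ?_, hs⟩
  have : Squarefree (15 : ℕ) := by
    rw [Nat.squarefree_iff_nodup_primeFactorsList (by norm_num)]
    simp
  exact_mod_cast Int.squarefree_natCast.2 this

end Mn

open Mn in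
/-- **T8-2** -/
theorem t_MN15 : S_MN15 := by
  intro M hM hs h3' h5'
  obtain ⟨k, rfl⟩ : ∃ k, M = 4 * k + 1 := ⟨M / 4, by omega⟩
  have hΔ := W15_Δ k
  have hM0 : (4 * k + 1 : ℤ) ≠ 0 := by omega
  refine ⟨⟨?_, ?_⟩, hΔ⟩
  · rw [hΔ]
    exact mul_ne_zero (by norm_num) (pow_ne_zero _ hM0)
  · intro W' C h
    have h1 := congrArg WeierstrassCurve.Δ h
    rw [WeierstrassCurve.variableChange_Δ, WeierstrassCurve.map_Δ, WeierstrassCurve.map_Δ] at h1
    simp only [eq_intCast] at h1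
    obtain ⟨q, hq⟩ : ∃ q : ℚ, q = ((C.u⁻¹ : ℚˣ) : ℚ) := ⟨_, rfl⟩
    rw [← hq] at h1
    have hq0 : q ≠ 0 := by rw [hq]; exact Units.ne_zero _
    have h2 : (q.num : ℚ) ^ 12 * ((W15 (4 * k + 1)).Δ : ℚ) = (W'.Δ : ℚ) * (q.den : ℚ) ^ 12 := by
      have hd : (q.den : ℚ) ≠ 0 := by exact_mod_cast q.den_ne_zero
      rw [← h1]
      have hnd : q * q.den = q.num := Rat.mul_den_eq_num q
      rw [← hnd]
      ring
    have h3 : q.num ^ 12 * (W15 (4 * k + 1)).Δ = W'.Δ * (q.den : ℤ) ^ 12 := by exact_mod_cast h2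
    have hcop : IsCoprime ((q.den : ℤ) ^ 12) (q.num ^ 12) := by
      refine IsCoprime.pow ?_
      rw [Int.isCoprime_iff_gcd_eq_one, Int.gcd_comm]
      exact q.reduced
    have h4 : (q.den : ℤ) ^ 12 ∣ (W15 (4 * k + 1)).Δ :=
      hcop.dvd_of_dvd_mul_left ⟨W'.Δ, by rw [h3]; ring⟩
    have h5 : ((q.den : ℤ) ^ 2) ^ 6 ∣ (15 * (4 * k + 1)) ^ 6 := by
      rw [← pow_mul]
      refine h4.trans ?_
      rw [hΔ]
      exact ⟨225, by ring⟩
    have h6 : (q.den : ℤ) ^ 2 ∣ 15 * (4 * k + 1) := (Int.pow_dvd_pow_iff (by norm_num)).1 h5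
    rw [pow_two] at h6
    have h7 := sqf15 hs h3' h5' _ h6
    have h8 : q.den = 1 := by
      rcases Int.isUnit_iff.1 h7 with h | h
      · exact_mod_cast h
      · omega
    rw [h8] at h3
    have h9 : W'.Δ = q.num ^ 12 * (W15 (4 * k + 1)).Δ := by rw [h3]; simp
    rw [h9, abs_mul]
    have h10 : 1 ≤ |q.num ^ 12| := by
      apply Int.one_le_abs
      exact pow_ne_zero _ (Rat.num_ne_zero.2 hq0)
    nlinarith [abs_nonneg (W15 (4 * k + 1)).Δ]

end Pool.Agent.XV.T
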