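import Pool.Agent.XV.T.Stm
import Pool.Agent.Y809.BSD14.Selb

/-!
# XV-T7-4: the Selmer group of the dual isogeny

The classes of `x` on `y² = x (x + 4 D) (x + 64 D)`, `D = -pr N`, which are everywhere locally soluble and
positive are products `pr D0`, `D0 ⊆ N`, with trivial Rédei symbols.
-/

set_option autoImplicit false
set_option linter.style.haveILetI false

namespace Pool.Agent.XV.T

open Finset
open Pool.Agent.Z700 (pr)
open Pool.Agent.XV (Pq Kb gen)
open Pool.Agent.Y700 (PC)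
open Pool.Agent.Y814.BSD14 Pool.Agent.Y809.BSD14

namespace S2

theorem dich (a : ℤ_[2]) : (∃ b, a = 2 * b) ∨ ∃ b, a * b = 1 := by
  by_cases h : IsUnit a
  · obtain ⟨u, rfl⟩ := h
    exact Or.inr ⟨(u⁻¹ : ℤ_[2]ˣ), by simp⟩
  · left
    have h1 : a ∈ IsLocalRing.maximalIdeal ℤ_[2] := by
      rw [IsLocalRing.mem_maximalIdeal]; exact h
    rw [PadicInt.maximalIdeal_eq_span_p, Ideal.mem_span_singleton] at h1
    obtain ⟨b, hb⟩ := h1
    exact ⟨b, by rw [hb]; norm_num⟩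

theorem f4 : Nonempty (ℤ_[2] →+* ZMod 4) := ⟨by simpa using PadicInt.toZModPow (p := 2) 2⟩

theorem u4 : ∀ x y : ZMod 4, x * y = 1 → x ^ 2 = 1 := by decide

theorem halve {a c : ℤ_[2]} (h : a ^ 2 = 4 * c) : ∃ b, a = 2 * b ∧ b ^ 2 = c := by
  rcases dich a with ⟨b, rfl⟩ | ⟨b, hb⟩
  · refine ⟨b, rfl, ?_⟩
    have h4 : (4 : ℤ_[2]) ≠ 0 := by norm_num
    apply mul_left_cancel₀ h4
    linear_combination h
  · exfalso
    obtain ⟨f⟩ := f4
    have h1 := u4 (f a) (f b) (by rw [← map_mul, hb, map_one])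
    have h2 := congrArg f h
    rw [map_pow, h1, map_mul, show f 4 = 0 by
      rw [show (4 : ℤ_[2]) = ((4 : ℕ) : ℤ_[2]) by norm_num, map_natCast]; rfl, zero_mul] at h2
    exact absurd h2 (by decide)

/-- a `2`-adic number as a quotient of two integers, one of them a unit -/
theorem frac (s : ℚ_[2]) : ∃ r e : ℤ_[2], (e : ℚ_[2]) ≠ 0 ∧ s = (r : ℚ_[2]) / e ∧
    ((∃ r', r * r' = 1) ∨ ∃ e', e * e' = 1) := two_adic_frac s

theorem zsq : ∀ x : ZMod 4, x ^ 2 = 0 ∨ x ^ 2 = 1 := by decide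

/-- no solution at `2` with `z` even -/
theorem no2 {D w : ℤ} (hD : D % 4 = 1) (hw : w % 2 = 1) (s N : ℚ_[2])
    (h : N ^ 2 = 2 * w ^ 3 * s ^ 4 + 68 * D * w ^ 2 * s ^ 2 + 128 * w * D ^ 2) : False := by
  obtain ⟨r, e, he, hs, hu⟩ := frac s
  obtain ⟨f⟩ := f4
  have f4' : f 4 = 0 := by
    rw [show (4 : ℤ_[2]) = ((4 : ℕ) : ℤ_[2]) by norm_num, map_natCast]; rfl
  have f2' : f 2 = 2 := by
    rw [show (2 : ℤ_[2]) = ((2 : ℕ) : ℤ_[2]) by norm_num, map_natCast]; rfl
  have fD : f (D : ℤ_[2]) = 1 := by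
    rw [map_intCast]
    have : (D : ZMod 4) = ((D % 4 : ℤ) : ZMod 4) := by
      rw [ZMod.intCast_eq_intCast_iff]
      exact (Int.mod_modEq D 4).symm
    rw [this, hD]; rfl
  have fw : f (w : ℤ_[2]) = 1 ∨ f (w : ℤ_[2]) = 3 := by
    rw [map_intCast]
    have h0 : w % 4 = 1 ∨ w % 4 = 3 := by omega
    have : (w : ZMod 4) = ((w % 4 : ℤ) : ZMod 4) := by
      rw [ZMod.intCast_eq_intCast_iff]
      exact (Int.mod_modEq w 4).symm
    rcases h0 with h0 | h0 <;> rw [this, h0]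
    · left; rfl
    · right; rfl
  set P : ℤ_[2] := 2 * w ^ 3 * r ^ 4 + 68 * D * w ^ 2 * r ^ 2 * e ^ 2 + 128 * w * D ^ 2 * e ^ 4
    with hP
  have h1 : (N * e ^ 2) ^ 2 = (P : ℚ_[2]) := by
    have c2 : ((2 : ℤ_[2]) : ℚ_[2]) = 2 := rfl
    have c68 : ((68 : ℤ_[2]) : ℚ_[2]) = 68 := rfl
    have c128 : ((128 : ℤ_[2]) : ℚ_[2]) = 128 := rfl
    rw [mul_pow, h, hs, hP]
    push_cast
    rw [c2, c68, c128]
    field_simp
  have h2 : ‖N * (e : ℚ_[2]) ^ 2‖ ≤ 1 := by
    have h3 : ‖N * (e : ℚ_[2]) ^ 2‖ ^ 2 ≤ 1 := by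
      rw [← norm_pow, h1]; exact P.2
    by_contra h4
    push Not at h4
    nlinarith
  obtain ⟨n, hn⟩ : ∃ n : ℤ_[2], (n : ℚ_[2]) = N * (e : ℚ_[2]) ^ 2 := ⟨⟨_, h2⟩, rfl⟩
  have h5 : n ^ 2 = P := by
    apply PadicInt.ext
    push_cast
    rw [hn, h1]
  have h68 : (68 : ℤ_[2]) = 4 * 17 := by norm_num
  have h128 : (128 : ℤ_[2]) = 4 * 32 := by norm_num
  have h17 : f 17 = 1 := by
    rw [show (17 : ℤ_[2]) = ((17 : ℕ) : ℤ_[2]) by norm_num, map_natCast]; rfl
  have h8 : f 8 = 0 := by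
    rw [show (8 : ℤ_[2]) = ((8 : ℕ) : ℤ_[2]) by norm_num, map_natCast]; rfl
  rcases dich r with ⟨r1, rfl⟩ | ⟨r', hr'⟩
  · have he1 : f e ^ 2 = 1 := by
      rcases hu with ⟨r', hr'⟩ | ⟨e', he'⟩
      · exfalso
        have h6 := congrArg f hr'
        rw [map_mul, map_mul, map_one, f2'] at h6
        revert h6
        generalize f r1 = a
        generalize f r' = b
        revert a b; decide
      · exact u4 _ (f e') (by rw [← map_mul, he', map_one])
    obtain ⟨n0, rfl, hn0⟩ := halve (a := n) (c := 8 * w ^ 3 * r1 ^ 4 + 68 * D * w ^ 2 * r1 ^ 2 * e ^ 2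
      + 32 * w * D ^ 2 * e ^ 4) (by rw [h5, hP]; ring)
    obtain ⟨n1, rfl, hn1⟩ := halve (a := n0) (c := 2 * w ^ 3 * r1 ^ 4 + 17 * D * w ^ 2 * r1 ^ 2 * e ^ 2
      + 8 * w * D ^ 2 * e ^ 4) (by rw [hn0]; ring)
    rcases dich r1 with ⟨r2, rfl⟩ | ⟨r', hr'⟩
    · obtain ⟨n2, rfl, hn2⟩ := halve (a := n1) (c := 8 * w ^ 3 * r2 ^ 4 +
        17 * D * w ^ 2 * r2 ^ 2 * e ^ 2 + 2 * w * D ^ 2 * e ^ 4) (by rw [hn1]; ring)
      have h6 := congrArg f hn2
      simp only [map_pow, map_mul, map_add, fD, f2', h17, h8] at h6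
      rw [show f e ^ 4 = (f e ^ 2) ^ 2 by ring, he1] at h6
      rcases fw with h7 | h7 <;> rw [h7] at h6 <;> rcases zsq (f n2) with h8 | h8 <;>
        rcases zsq (f r2) with h9 | h9 <;> rw [h8, h9] at h6 <;> revert h6 <;>
        generalize f r2 = a <;> revert a <;> decide
    · have hr1 : f r1 ^ 2 = 1 := u4 _ (f r') (by rw [← map_mul, hr', map_one])
      have h6 := congrArg f hn1
      simp only [map_pow, map_mul, map_add, fD, f2', h17, h8] at h6
      rw [show f e ^ 4 = (f e ^ 2) ^ 2 by ring, he1,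
        show f r1 ^ 4 = (f r1 ^ 2) ^ 2 by ring, hr1] at h6
      rcases fw with h7 | h7 <;> rw [h7] at h6 <;> rcases zsq (f n1) with h8 | h8 <;>
        rw [h8] at h6 <;> exact absurd h6 (by decide)
  · have hr1 : f r ^ 2 = 1 := u4 _ (f r') (by rw [← map_mul, hr', map_one])
    have h6 := congrArg f h5
    rw [hP, h68, h128] at h6
    simp only [map_pow, map_mul, map_add, fD, f2', f4', zero_mul, add_zero] at h6
    rw [show f r ^ 4 = (f r ^ 2) ^ 2 by ring, hr1] at h6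
    rcases fw with h7 | h7 <;> rw [h7] at h6 <;> rcases zsq (f n) with h8 | h8 <;>
      rw [h8] at h6 <;> exact absurd h6 (by decide)

end S2

open S2

theorem t_S2 : S_S2 := by
  intro N hN hK D hD z hz hz0 h0
  have h : ∀ (l : ℕ) [Fact l.Prime], PC (68 * D) (256 * D ^ 2) l z := by
    intro l _
    have := h0 l
    rwa [show (-2 : ℤ) * aD D = 68 * D by unfold aD; ring,
      show aD D ^ 2 - 4 * bD D = 256 * D ^ 2 by unfold aD bD; ring] at this
  have hD4 : D % 4 = 1 := by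
    unfold Kb at hK
    omega
  have nd256 : ∀ {q : ℕ}, q.Prime → q ≠ 2 → ¬ (q : ℤ) ∣ 256 := by
    intro q hq n2 h0
    have h1 : q ∣ 256 := by exact_mod_cast h0
    rw [show (256 : ℕ) = 2 ^ 8 by norm_num] at h1
    exact n2 ((Nat.prime_dvd_prime_iff_eq hq Nat.prime_two).1 (hq.dvd_of_dvd_pow h1))
  -- `z` is odd
  have h2z : ¬ ((2 : ℕ) : ℤ) ∣ z := by
    rintro ⟨w, hw⟩
    have hw1 := not_dvd_of_sqf Nat.prime_two hz hw
    have hwo : w % 2 = 1 := by push_cast at hw1; omega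
    obtain ⟨x, y, hy, h1, t, ht⟩ := h 2
    have hx := ne_zero_of_eq hy h1
    have hw0 : (w : ℚ_[2]) ≠ 0 := by
      have : w ≠ 0 := by rintro rfl; omega
      exact_mod_cast this
    have ht0 : t ≠ 0 := by
      rintro rfl
      have : x * (z : ℚ_[2]) = 0 := by rw [ht]; ring
      rcases mul_eq_zero.1 this with h3 | h3
      · exact hx h3
      · exact hz0.ne' (by exact_mod_cast h3)
    have hxe : x = 2 * w * (t / (2 * w)) ^ 2 := by
      rw [hw] at ht
      push_cast at ht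
      field_simp
      linear_combination ht
    set s := t / (2 * w) with hs
    have hs0 : s ≠ 0 := by
      rw [hs]
      exact div_ne_zero ht0 (mul_ne_zero two_ne_zero hw0)
    refine no2 hD4 hwo s (y / (2 * s)) ?_
    rw [hxe] at h1
    push_cast at h1
    field_simp
    linear_combination h1
  have hzN : ∀ q : ℕ, q.Prime → (q : ℤ) ∣ z → q ∈ N := by
    intro q hq hqz
    haveI : Fact q.Prime := ⟨hq⟩
    have q2 : q ≠ 2 := by rintro rfl; exact h2z hqz
    by_contra hqN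
    refine not_dvd_of_PC hz ?_ (h q) hqz
    intro h3
    rcases (Nat.prime_iff_prime_int.1 hq).dvd_or_dvd h3 with h4 | h4
    · exact nd256 hq q2 h4
    · have h5 := (Nat.prime_iff_prime_int.1 hq).dvd_of_dvd_pow h4
      rw [hD, Int.dvd_neg] at h5
      have h6 : q ∣ pr N := by exact_mod_cast h5
      unfold pr at h6
      obtain ⟨r, hr, hqr⟩ := (hq.prime.dvd_finsetProd_iff _).1 h6
      exact hqN ((Nat.prime_dvd_prime_iff_eq hq (hN r hr).1).1 hqr ▸ hr)
  have hsub : z.natAbs.primeFactors ⊆ N := by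
    intro q hq
    exact hzN q (Nat.prime_of_mem_primeFactors hq)
      (Int.natCast_dvd.2 (Nat.dvd_of_mem_primeFactors hq))
  obtain ⟨D0, hD0⟩ : ∃ D0, D0 = z.natAbs.primeFactors := ⟨_, rfl⟩
  rw [← hD0] at hsub
  have hpr : (pr D0 : ℤ) = z := by
    unfold pr
    rw [hD0, Nat.prod_primeFactors_of_squarefree (Int.squarefree_natAbs.2 hz)]
    exact Int.natAbs_of_nonneg hz0.le
  refine ⟨D0, hsub, hpr.symm, ?_⟩
  intro p hp
  obtain ⟨hpp, p2, p3, p5⟩ := hN p hp
  haveI : Fact p.Prime := ⟨hpp⟩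
  -- `D = p M`
  have hM : D = p * (-(pr (N.erase p) : ℤ)) := by
    have : pr N = p * pr (N.erase p) := by
      unfold pr
      rw [Finset.mul_prod_erase N (fun r : ℕ => r) hp]
    rw [hD, this]; push_cast; ring
  have hMn : ¬ (p : ℤ) ∣ (-(pr (N.erase p) : ℤ)) := by
    rw [Int.dvd_neg]
    intro h3
    have h6 : p ∣ pr (N.erase p) := by exact_mod_cast h3
    unfold pr at h6
    obtain ⟨r, hr, hqr⟩ := (hpp.prime.dvd_finsetProd_iff _).1 h6
    have := (Nat.prime_dvd_prime_iff_eq hpp (hN r (mem_of_mem_erase hr)).1).1 hqr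
    exact (ne_of_mem_erase hr) this.symm
  unfold gen
  split_ifs with hpD
  · -- `p ∣ z`
    have hpz : (p : ℤ) ∣ z := by
      rw [hD0] at hpD
      exact Int.natCast_dvd.2 (Nat.dvd_of_mem_primeFactors hpD)
    have hB : ¬ (p : ℤ) ∣ 256 * (-(pr (N.erase p) : ℤ)) ^ 2 := by
      intro h3
      rcases (Nat.prime_iff_prime_int.1 hpp).dvd_or_dvd h3 with h4 | h4
      · exact nd256 hpp p2 h4
      · exact hMn ((Nat.prime_iff_prime_int.1 hpp).dvd_of_dvd_pow h4)
    have h1 := h p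
    rw [show 68 * D = (p : ℤ) * (68 * (-(pr (N.erase p) : ℤ))) by rw [hM]; ring,
      show 256 * D ^ 2 = (p : ℤ) ^ 2 * (256 * (-(pr (N.erase p) : ℤ)) ^ 2) by
        rw [hM]; ring] at h1
    obtain ⟨r, hr, hr0, hr2⟩ := root_of_PC hz hpz hB h1
    have hz' : z = p * (pr (D0.erase p) : ℤ) := by
      rw [← hpr]
      unfold pr
      rw [← Finset.mul_prod_erase D0 (fun r : ℕ => r) hpD]
      push_cast; ring
    have h3 := hr2 _ hz'
    have hne : ∀ T ⊆ N, p ∉ T → ((pr T : ℕ) : ZMod p) ≠ 0 := by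
      intro T hT hpT h4
      have h6 : p ∣ pr T := (ZMod.natCast_eq_zero_iff _ p).1 h4
      unfold pr at h6
      obtain ⟨q, hq, hqr⟩ := (hpp.prime.dvd_finsetProd_iff _).1 h6
      have := (Nat.prime_dvd_prime_iff_eq hpp (hN q (hT hq)).1).1 hqr
      exact hpT (this ▸ hq)
    have hA := hne (D0.erase p) ((erase_subset _ _).trans hsub) (notMem_erase p D0)
    have hC := hne (N \ D0) sdiff_subset (fun h5 => (mem_sdiff.1 h5).2 hpD)
    have hsplit : pr (N.erase p) = pr (N \ D0) * pr (D0.erase p) := by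
      unfold pr
      rw [← Finset.prod_union]
      · congr 1
        ext q
        simp only [mem_erase, mem_union, mem_sdiff]
        constructor
        · rintro ⟨h5, h6⟩
          by_cases h7 : q ∈ D0
          · exact Or.inr ⟨h5, h7⟩
          · exact Or.inl ⟨h6, h7⟩
        · rintro (⟨h5, h6⟩ | ⟨h5, h6⟩)
          · exact ⟨fun h7 => h6 (h7 ▸ hpD), h5⟩
          · exact ⟨h5, hsub h6⟩
      · rw [Finset.disjoint_left]
        intro q hq hq2
        exact (mem_sdiff.1 hq).2 (mem_of_mem_erase hq2)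
    have hsq : IsSquare ((pr (N \ D0) : ℕ) : ZMod p) := by
      rw [hsplit] at hr
      push_cast at hr h3
      have n2 : (2 : ZMod p) ≠ 0 := by exact_mod_cast cast_ne hpp Nat.prime_two p2
      set A := ((pr (D0.erase p) : ℕ) : ZMod p)
      set C := ((pr (N \ D0) : ℕ) : ZMod p)
      obtain ⟨t, ht⟩ := h3
      have hr' : (r - 4 * (C * A)) * (r - 64 * (C * A)) = 0 := by
        linear_combination hr
      rcases mul_eq_zero.1 hr' with h5 | h5
      · refine ⟨t / (2 * A), ?_⟩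
        field_simp
        linear_combination ht - A * h5
      · refine ⟨t / (8 * A), ?_⟩
        have n8 : (8 : ZMod p) ≠ 0 := by
          rw [show (8 : ZMod p) = 2 ^ 3 by norm_num]; exact pow_ne_zero _ n2
        field_simp
        linear_combination ht - A * h5
    rw [← jacobiSym.legendreSym.to_jacobiSym] 
    exact (legendreSym.eq_one_iff p (by exact_mod_cast hC)).2 (by exact_mod_cast hsq)
  · have hpz : ¬ (p : ℤ) ∣ z := by
      intro h3
      apply hpD
      rw [hD0, Nat.mem_primeFactors]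
      exact ⟨hpp, Int.natCast_dvd.1 h3, Int.natAbs_ne_zero.2 hz.ne_zero⟩
    have h1 := h p
    rw [hM] at h1
    have h3 := sq_of_PC hpz hMn (nd256 hpp p2) ⟨16, by push_cast; norm_num⟩ h1
    rw [hpr, ← jacobiSym.legendreSym.to_jacobiSym]
    refine (legendreSym.eq_one_iff p ?_).2 h3
    rw [Ne, ZMod.intCast_zmod_eq_zero_iff_dvd]
    exact hpz

end Pool.Agent.XV.T
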