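import Pool.Agent.Y809.BSD14.E0

/-!
# XV-T8-4: the Tamagawa numbers at `3` and `5` of the twists of `X_0(15)`

Coordinates `X = 4 x + 13 D`, `Y = 4 (2 y + x + 1)` on `Y² = X (X - 9 D) (X - 25 D)`, `D = 4 k + 1`. The
reduction modulo `3` and `5` has a node at `X = 0` with irrational tangents if `-34 D` is not a square:
the sum of two points which reduce to the node does not.
-/

set_option autoImplicit false

namespace Pool.Agent.XV.T.T35

open scoped Classical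
open Pool.Agent.Y700
open Pool.Agent.Y809.BSD14 (nadd nsub nmul npow nneg ladd lsub lmul lmul' norm_eq_of_lt)
open WeierstrassCurve.Affine (Point)

/-- the equation, `D = 4 k + 1` -/
def WC (k : ℤ) : WeierstrassCurve ℤ :=
  ⟨1, 5 * k + 1, 1, -(152 * k ^ 2 + 76 * k + 10), -(624 * k ^ 3 + 468 * k ^ 2 + 117 * k + 10)⟩

section coeffs

variable {K : Type} [Field K] (k : ℤ)

theorem c1 : ((WC k).map (Int.castRingHom K)).a₁ = 1 := by
  rw [WeierstrassCurve.map_a₁, WC]; simp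

theorem c2 : ((WC k).map (Int.castRingHom K)).a₂ = 5 * k + 1 := by
  rw [WeierstrassCurve.map_a₂, WC]; simp

theorem c3 : ((WC k).map (Int.castRingHom K)).a₃ = 1 := by
  rw [WeierstrassCurve.map_a₃, WC]; simp

theorem c4 : ((WC k).map (Int.castRingHom K)).a₄ = -(152 * k ^ 2 + 76 * k + 10) := by
  rw [WeierstrassCurve.map_a₄, WC]; simp

theorem c6 : ((WC k).map (Int.castRingHom K)).a₆ =
    -(624 * k ^ 3 + 468 * k ^ 2 + 117 * k + 10) := by
  rw [WeierstrassCurve.map_a₆, WC]; simp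

end coeffs

variable {p : ℕ} [Fact p.Prime] {k : ℤ}

/-- `P` is the affine point with the coordinates `X`, `Y` on `Y² = X (X - 9 D) (X - 25 D)` -/
def At (k : ℤ) (P : PtP (WC k) p) (X Y : ℚ_[p]) : Prop :=
  ∃ (x y : ℚ_[p]) (h : _), P = Point.some x y h ∧ X = 4 * x + 13 * (4 * k + 1) ∧
    Y = 4 * (2 * y + x + 1)

theorem eqn_xy {x y : ℚ_[p]}
    (h : ((WC k).map (Int.castRingHom ℚ_[p])).toAffine.Nonsingular x y) :
    y ^ 2 + x * y + y = x ^ 3 + (5 * k + 1) * x ^ 2 - (152 * k ^ 2 + 76 * k + 10) * x -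
      (624 * k ^ 3 + 468 * k ^ 2 + 117 * k + 10) := by
  have h1 := (WeierstrassCurve.Affine.equation_iff _ _).1 h.1
  rw [c1, c2, c3, c4, c6] at h1
  linear_combination h1

theorem At.eqn {P : PtP (WC k) p} {X Y : ℚ_[p]} (h : At k P X Y) :
    Y ^ 2 = X * (X ^ 2 - 34 * (4 * k + 1) * X + 225 * (4 * k + 1) ^ 2) := by
  obtain ⟨x, y, hn, rfl, rfl, rfl⟩ := h
  have h1 := eqn_xy hn
  linear_combination 64 * h1

theorem exists_at {P : PtP (WC k) p} (h : P ≠ 0) : ∃ X Y, At k P X Y := by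
  rcases P with _ | ⟨x, y, hn⟩
  · exact absurd rfl h
  · exact ⟨_, _, x, y, hn, rfl, rfl, rfl⟩

theorem At.ext {P P' : PtP (WC k) p} {X Y : ℚ_[p]} (h : At k P X Y)
    (h' : At k P' X Y) : P = P' := by
  obtain ⟨x, y, hn, rfl, e1, e2⟩ := h
  obtain ⟨x', y', hn', rfl, e1', e2'⟩ := h'
  have hx : x = x' := by
    have : (4 : ℚ_[p]) * (x - x') = 0 := by linear_combination e1' - e1
    rcases mul_eq_zero.1 this with h | h
    · norm_num at h
    · exact sub_eq_zero.1 h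
  have hy : y = y' := by
    have : (8 : ℚ_[p]) * (y - y') = 0 := by rw [hx] at e2; linear_combination e2' - e2
    rcases mul_eq_zero.1 this with h | h
    · norm_num at h
    · exact sub_eq_zero.1 h
  subst hx hy
  rfl

theorem At.neg {P : PtP (WC k) p} {X Y : ℚ_[p]} (h : At k P X Y) :
    At k (-P) X (-Y) := by
  obtain ⟨x, y, hn, rfl, rfl, rfl⟩ := h
  rw [Point.neg_some]
  refine ⟨_, _, _, rfl, rfl, ?_⟩
  rw [WeierstrassCurve.Affine.negY, c1, c3]
  ring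

theorem At.add {P P' : PtP (WC k) p} {X Y X' Y' : ℚ_[p]} (h : At k P X Y)
    (h' : At k P' X' Y') (hne : X ≠ X') :
    ∃ Y3, At k (P + P') (((Y - Y') / (X - X')) ^ 2 + 34 * (4 * k + 1) - X - X') Y3 := by
  obtain ⟨x, y, hn, rfl, rfl, rfl⟩ := h
  obtain ⟨x', y', hn', rfl, rfl, rfl⟩ := h'
  have hx : x ≠ x' := fun h => hne (by rw [h])
  rw [Point.add_of_X_ne hx]
  refine ⟨_, _, _, _, rfl, ?_, rfl⟩
  rw [WeierstrassCurve.Affine.addX, WeierstrassCurve.Affine.slope_of_X_ne hx, c1, c2]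
  have h1 : x - x' ≠ 0 := sub_ne_zero.2 hx
  have h2 : 4 * x + 13 * (4 * (k : ℚ_[p]) + 1) - (4 * x' + 13 * (4 * k + 1)) = 4 * (x - x') := by
    ring
  rw [h2]
  field_simp
  ring

theorem At.dbl {P : PtP (WC k) p} {X Y : ℚ_[p]} (h : At k P X Y) (hY : Y ≠ 0) :
    ∃ Y3 l, At k (P + P) (l ^ 2 + 34 * (4 * k + 1) - X - X) Y3 := by
  obtain ⟨x, y, hn, rfl, rfl, rfl⟩ := h
  have h1 : 2 * y + x + 1 ≠ 0 := fun h => hY (by rw [h, mul_zero])
  have hy : y ≠ ((WC k).map (Int.castRingHom ℚ_[p])).toAffine.negY x y := by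
    rw [WeierstrassCurve.Affine.negY, c1, c3]
    intro h
    apply h1
    linear_combination h
  rw [Point.add_self_of_Y_ne hy]
  refine ⟨_, 2 * ((WC k).map (Int.castRingHom ℚ_[p])).toAffine.slope x x y y + 1, _, _, _, rfl,
    ?_, rfl⟩
  rw [WeierstrassCurve.Affine.addX, c1, c2]
  ring

theorem D_ne : (4 * (k : ℚ_[p]) + 1) ≠ 0 := by
  have h : (4 * k + 1 : ℤ) ≠ 0 := by omega
  exact_mod_cast h

/-- the point `(0, 0)` -/
theorem exists_T (p : ℕ) [Fact p.Prime] (k : ℤ) : ∃ T : PtP (WC k) p, At k T 0 0 := by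
  have hn : ((WC k).map (Int.castRingHom ℚ_[p])).toAffine.Nonsingular
      (-(13 * (4 * k + 1) / 4) : ℚ_[p]) ((13 * (4 * k + 1) / 4 - 1) / 2) := by
    rw [WeierstrassCurve.Affine.nonsingular_iff', WeierstrassCurve.Affine.equation_iff, c1, c2, c3,
      c4, c6]
    refine ⟨by ring, Or.inl ?_⟩
    have h1 := D_ne (p := p) (k := k)
    have h2 : (1 : ℚ_[p]) * ((13 * (4 * k + 1) / 4 - 1) / 2) -
        (3 * (-(13 * (4 * k + 1) / 4)) ^ 2 + 2 * (5 * k + 1) * (-(13 * (4 * k + 1) / 4)) +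
        -(152 * k ^ 2 + 76 * k + 10)) = -(225 / 16 * (4 * k + 1) ^ 2) := by ring
    rw [h2]
    simp only [ne_eq, neg_eq_zero, mul_eq_zero, OfNat.ofNat_ne_zero, div_eq_zero_iff, or_self,
      false_or]
    exact pow_ne_zero 2 h1
  refine ⟨Point.some _ _ hn, _, _, hn, rfl, ?_, ?_⟩ <;> ring

theorem At.sing (hE : S_E0) {P : PtP (WC k) p} {x y : ℚ_[p]} {h : _}
    (hP : P = Point.some x y h) : P ∈ E0 (WC k) p ↔ ¬ SingRed (WC k) p x y := by
  rw [hE]
  constructor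
  · intro h1
    exact h1 x y h hP
  · intro h1 x' y' h' e
    rw [hP] at e
    injection e with e1 e2
    rw [← e1, ← e2]
    exact h1

/-- the hypotheses on the prime -/
structure Hp (p : ℕ) [Fact p.Prime] (k : ℤ) : Prop where
  n2 : ‖(2 : ℚ_[p])‖ = 1
  nD : ‖(4 * (k : ℚ_[p]) + 1)‖ = 1
  n225 : ‖(225 : ℚ_[p])‖ < 1
  ns : ∀ l : ℚ_[p], ¬ ‖l ^ 2 + 34 * (4 * (k : ℚ_[p]) + 1)‖ < 1

theorem nint (p : ℕ) [Fact p.Prime] (z : ℤ) : ‖(z : ℚ_[p])‖ ≤ 1 := Padic.norm_int_le_one z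

/-- the singular points -/
theorem sing (H : Hp p k) {x y : ℚ_[p]}
    (h : ((WC k).map (Int.castRingHom ℚ_[p])).toAffine.Nonsingular x y) :
    SingRed (WC k) p x y ↔ ‖4 * x + 13 * (4 * (k : ℚ_[p]) + 1)‖ < 1 := by
  have he := eqn_xy h
  have hD := H.nD
  have n2 := H.n2
  have n4 : ‖(4 : ℚ_[p])‖ = 1 := by
    have : (4 : ℚ_[p]) = 2 * 2 := by norm_num
    rw [this, norm_mul, n2, mul_one]
  have n16 : ‖(16 : ℚ_[p])‖ = 1 := by
    have : (16 : ℚ_[p]) = 4 * 4 := by norm_num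
    rw [this, norm_mul, n4, mul_one]
  have n3 : ‖(3 : ℚ_[p])‖ ≤ 1 := by exact_mod_cast nint p 3
  have n13 : ‖(13 : ℚ_[p])‖ ≤ 1 := by exact_mod_cast nint p 13
  have n34 : ‖(34 : ℚ_[p])‖ ≤ 1 := by exact_mod_cast nint p 34
  have n68 : ‖(68 : ℚ_[p])‖ ≤ 1 := by exact_mod_cast nint p 68
  set D : ℚ_[p] := 4 * (k : ℚ_[p]) + 1 with hDdef
  set X : ℚ_[p] := 4 * x + 13 * D with hX
  set Y : ℚ_[p] := 4 * (2 * y + x + 1) with hY
  have hc : ‖225 * D ^ 2‖ < 1 := by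
    rw [norm_mul, norm_pow, hD, one_pow, mul_one]
    exact H.n225
  have hYX : Y ^ 2 = X * (X ^ 2 - 34 * D * X + 225 * D ^ 2) := by
    rw [hY, hX, hDdef]
    linear_combination 64 * he
  have hFx : 16 * (y - (3 * x ^ 2 + 2 * (5 * k + 1) * x + -(152 * k ^ 2 + 76 * k + 10))) =
      2 * Y - (3 * X ^ 2 - 68 * D * X + 225 * D ^ 2) := by
    rw [hY, hX, hDdef]
    ring
  have hcoef : SingRed (WC k) p x y ↔ ‖x‖ ≤ 1 ∧ ‖y‖ ≤ 1 ∧
      ‖y - (3 * x ^ 2 + 2 * (5 * k + 1) * x + -(152 * k ^ 2 + 76 * k + 10))‖ < 1 ∧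
      ‖2 * y + x + 1‖ < 1 := by
    unfold SingRed
    rw [WC]
    simp only
    push_cast
    rw [one_mul, one_mul]
  rw [hcoef]
  constructor
  · rintro ⟨hx, hy, h1, h2⟩
    have hYl : ‖Y‖ < 1 := lmul n4.le h2
    have hX1 : ‖X‖ ≤ 1 := nadd (nmul n4.le hx) (nmul n13 hD.le)
    by_contra hcon
    rw [not_lt] at hcon
    have hXe : ‖X‖ = 1 := le_antisymm hX1 hcon
    have h3 : ‖X ^ 2 - 34 * D * X + 225 * D ^ 2‖ < 1 := by
      have h5 := congrArg norm hYX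
      rw [norm_pow, norm_mul X, hXe, one_mul] at h5
      rw [← h5]
      exact pow_lt_one₀ (norm_nonneg _) hYl (by norm_num)
    have h4 : ‖X - 34 * D‖ < 1 := by
      have h5 : ‖X * (X - 34 * D)‖ < 1 := by
        have : X * (X - 34 * D) = (X ^ 2 - 34 * D * X + 225 * D ^ 2) - 225 * D ^ 2 := by ring
        rw [this]
        exact lsub h3 hc
      rwa [norm_mul, hXe, one_mul] at h5
    have h6 : ‖3 * X ^ 2 - 68 * D * X + 225 * D ^ 2‖ < 1 := by
      have : 3 * X ^ 2 - 68 * D * X + 225 * D ^ 2 = 2 * Y -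
          16 * (y - (3 * x ^ 2 + 2 * (5 * k + 1) * x + -(152 * k ^ 2 + 76 * k + 10))) := by
        rw [hFx]; ring
      rw [this]
      exact lsub (lmul n2.le hYl) (lmul n16.le h1)
    have h7 : ‖X * X‖ < 1 := by
      have : X * X = (3 * X ^ 2 - 68 * D * X + 225 * D ^ 2) - 225 * D ^ 2 -
          2 * X * (X - 34 * D) := by ring
      rw [this]
      exact lsub (lsub h6 hc) (lmul (nmul n2.le hX1) h4)
    rw [norm_mul, hXe, one_mul] at h7
    exact lt_irrefl _ h7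
  · intro hXl
    have hx : ‖x‖ ≤ 1 := by
      have : x = (X - 13 * D) / 4 := by rw [hX]; ring
      rw [this, norm_div, n4, div_one]
      exact nsub hXl.le (nmul n13 hD.le)
    have hYl : ‖Y‖ < 1 := by
      have h3 : ‖X ^ 2 - 34 * D * X + 225 * D ^ 2‖ ≤ 1 :=
        nadd (nsub (npow hXl.le 2) (nmul (nmul n34 hD.le) hXl.le)) hc.le
      have h5 := congrArg norm hYX
      rw [norm_pow, norm_mul X] at h5
      by_contra hcon
      rw [not_lt] at hcon
      have h6 : 1 ≤ ‖Y‖ ^ 2 := one_le_pow₀ hcon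
      have h7 : ‖X‖ * ‖X ^ 2 - 34 * D * X + 225 * D ^ 2‖ < 1 := by
        have := lmul' hXl h3
        rwa [norm_mul] at this
      linarith
    have h2 : ‖2 * y + x + 1‖ < 1 := by
      have h5 : ‖Y‖ = ‖2 * y + x + 1‖ := by rw [hY, norm_mul, n4, one_mul]
      rw [← h5]; exact hYl
    have hy : ‖y‖ ≤ 1 := by
      have : y = ((2 * y + x + 1) - x - 1) / 2 := by ring
      rw [this, norm_div, n2, div_one]
      exact nsub (nsub h2.le hx) (by simp)
    refine ⟨hx, hy, ?_, h2⟩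
    have h5 := congrArg norm hFx
    rw [norm_mul, n16, one_mul] at h5
    rw [h5]
    refine lsub (lmul n2.le hYl) (ladd (lsub ?_ ?_) hc)
    · rw [pow_two]
      exact lmul n3 (lmul hXl.le hXl)
    · exact lmul (nmul n68 hD.le) hXl

/-- membership in terms of the coordinates -/
theorem mem (hE : S_E0) (H : Hp p k) {P : PtP (WC k) p} {X Y : ℚ_[p]} (hP : At k P X Y) :
    P ∉ E0 (WC k) p ↔ ‖X‖ < 1 := by
  obtain ⟨x, y, hn, e, rfl, rfl⟩ := hP
  rw [At.sing hE e, not_not, sing H hn]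

/-- the sum of two points outside `E⁰` -/
theorem add_mem (hE : S_E0) (H : Hp p k) {P P' : PtP (WC k) p} (h : P ∉ E0 (WC k) p)
    (h' : P' ∉ E0 (WC k) p) : P + P' ∈ E0 (WC k) p := by
  have hP0 : P ≠ 0 := fun h0 => h (by rw [h0]; exact zero_mem _)
  have hP0' : P' ≠ 0 := fun h0 => h' (by rw [h0]; exact zero_mem _)
  obtain ⟨X, Y, hA⟩ := exists_at hP0
  obtain ⟨X', Y', hA'⟩ := exists_at hP0'
  have hX := (mem hE H hA).1 h
  have hX' := (mem hE H hA').1 h'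
  by_contra hcon
  have key : ∀ l Y3 : ℚ_[p], ¬ At k (P + P') (l ^ 2 + 34 * (4 * k + 1) - X - X') Y3 := by
    intro l Y3 h3
    have h4 := (mem hE H h3).1 hcon
    apply H.ns l
    have : l ^ 2 + 34 * (4 * (k : ℚ_[p]) + 1) = (l ^ 2 + 34 * (4 * k + 1) - X - X') + (X + X') := by
      ring
    rw [this]
    exact ladd h4 (ladd hX hX')
  by_cases hne : X = X'
  · subst hne
    have e1 := hA.eqn
    have e2 := hA'.eqn
    have e3 : (Y' - Y) * (Y' + Y) = 0 := by linear_combination e2 - e1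
    rcases mul_eq_zero.1 e3 with h3 | h3
    · have h4 : Y' = Y := sub_eq_zero.1 h3
      subst h4
      have h5 : P' = P := hA'.ext hA
      subst h5
      by_cases hY : Y' = 0
      · subst hY
        have h6 : At k (-P') X 0 := by simpa using hA.neg
        have h7 : P' = -P' := hA.ext h6
        apply hcon
        have h8 : P' + P' = 0 := by
          calc P' + P' = P' + -P' := by rw [← h7]
            _ = 0 := add_neg_cancel P'
        rw [h8]
        exact zero_mem _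
      · obtain ⟨Y3, l, h6⟩ := hA.dbl hY
        exact key l Y3 h6
    · have h4 : Y' = -Y := eq_neg_of_add_eq_zero_left h3
      subst h4
      have h5 : P' = -P := hA'.ext hA.neg
      apply hcon
      rw [h5, add_neg_cancel]
      exact zero_mem _
  · obtain ⟨Y3, h6⟩ := hA.add hA' hne
    exact key _ Y3 h6

theorem tam_two (hE : S_E0) (H : Hp p k) : tam (WC k) p = 2 := by
  unfold tam
  rw [AddSubgroup.index_eq_two_iff]
  obtain ⟨T, hT⟩ := exists_T p k
  have hT0 : T ∉ E0 (WC k) p := by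
    rw [mem hE H hT, norm_zero]
    norm_num
  refine ⟨T, fun b => ?_⟩
  by_cases hb : b ∈ E0 (WC k) p
  · refine Or.inr ⟨hb, fun h => hT0 ?_⟩
    have := (E0 (WC k) p).sub_mem h hb
    rwa [add_sub_cancel_left] at this
  · exact Or.inl ⟨add_mem hE H hb hT0, hb⟩

theorem q31 : ∀ a : ZMod 3, a ^ 2 + ((1 : ℤ) : ZMod 3) ≠ 0 := by decide

theorem q52 : ∀ a : ZMod 5, a ^ 2 + ((2 : ℤ) : ZMod 5) ≠ 0 := by decide

theorem q53 : ∀ a : ZMod 5, a ^ 2 + ((3 : ℤ) : ZMod 5) ≠ 0 := by decide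

theorem ns_of {p : ℕ} [Fact p.Prime] (n : ℤ) (h : ∀ a : ZMod p, a ^ 2 + (n : ZMod p) ≠ 0)
    (l : ℚ_[p]) : ¬ ‖l ^ 2 + (n : ℚ_[p])‖ < 1 := by
  intro hl
  have hn : ‖(n : ℚ_[p])‖ ≤ 1 := Padic.norm_int_le_one n
  have hl2 : ‖l ^ 2‖ ≤ 1 := by
    have : l ^ 2 = (l ^ 2 + n) - n := by ring
    rw [this]
    exact nsub hl.le hn
  have hl1 : ‖l‖ ≤ 1 := by
    rw [norm_pow] at hl2
    by_contra hc
    rw [not_le] at hc
    have : 1 < ‖l‖ ^ 2 := one_lt_pow₀ hc (by norm_num)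
    linarith
  set a : ℤ_[p] := ⟨l, hl1⟩ with ha
  have h1 : ‖a ^ 2 + (n : ℤ_[p])‖ < 1 := by
    rw [PadicInt.norm_def]
    push_cast
    exact hl
  have h2 : PadicInt.toZMod (a ^ 2 + (n : ℤ_[p])) = 0 := by
    have h3 : a ^ 2 + (n : ℤ_[p]) ∈ RingHom.ker (PadicInt.toZMod : ℤ_[p] →+* ZMod p) := by
      rw [PadicInt.ker_toZMod, IsLocalRing.mem_maximalIdeal, PadicInt.mem_nonunits]
      exact h1
    exact h3
  apply h (PadicInt.toZMod a)
  rw [map_add, map_pow, map_intCast] at h2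
  exact h2

theorem nint1 (p : ℕ) [Fact p.Prime] (z : ℤ) (h : ¬ (p : ℤ) ∣ z) : ‖(z : ℚ_[p])‖ = 1 := by
  refine le_antisymm (Padic.norm_int_le_one z) (not_lt.1 fun h1 => h ?_)
  exact Padic.norm_intCast_lt_one_iff.1 h1

theorem tam3 (hE : S_E0) [Fact (Nat.Prime 3)] (hk : (4 * k + 1) % 3 = 1) : tam (WC k) 3 = 2 := by
  refine tam_two hE ⟨?_, ?_, ?_, ?_⟩
  · exact_mod_cast nint1 3 2 (by norm_num)
  · exact_mod_cast nint1 3 (4 * k + 1) (by omega)
  · exact_mod_cast (Padic.norm_intCast_lt_one_iff (p := 3) (k := 225)).2 (by norm_num)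
  · intro l
    have h := ns_of (p := 3) (34 * (4 * k + 1)) (by
      have e : ((34 * (4 * k + 1) : ℤ) : ZMod 3) = ((1 : ℤ) : ZMod 3) := by
        rw [ZMod.intCast_eq_intCast_iff_dvd_sub]
        omega
      rw [e]
      exact q31) l
    push_cast at h
    exact h

theorem tam5 (hE : S_E0) [Fact (Nat.Prime 5)] (hk : (4 * k + 1) % 5 = 2 ∨ (4 * k + 1) % 5 = 3) :
    tam (WC k) 5 = 2 := by
  refine tam_two hE ⟨?_, ?_, ?_, ?_⟩
  · exact_mod_cast nint1 5 2 (by norm_num)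
  · exact_mod_cast nint1 5 (4 * k + 1) (by omega)
  · exact_mod_cast (Padic.norm_intCast_lt_one_iff (p := 5) (k := 225)).2 (by norm_num)
  · intro l
    have h := ns_of (p := 5) (34 * (4 * k + 1)) (by
      rcases hk with hk | hk
      · have e : ((34 * (4 * k + 1) : ℤ) : ZMod 5) = ((3 : ℤ) : ZMod 5) := by
          rw [ZMod.intCast_eq_intCast_iff_dvd_sub]
          omega
        rw [e]
        exact q53
      · have e : ((34 * (4 * k + 1) : ℤ) : ZMod 5) = ((2 : ℤ) : ZMod 5) := by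
          rw [ZMod.intCast_eq_intCast_iff_dvd_sub]
          omega
        rw [e]
        exact q52) l
    push_cast at h
    exact h

end Pool.Agent.XV.T.T35
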