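import Pool.Agent.XV.T.Stm
import Pool.Agent.XV.T.T35

/-!
# XV-T8-4: the Tamagawa number at `3`
-/

set_option autoImplicit false

namespace Pool.Agent.XV.T

theorem W15_eq (k : ℤ) : W15 (4 * k + 1) = T35.WC k := by
  unfold W15 T35.WC
  have e1 : (5 * (4 * k + 1) - 1) / 4 = 5 * k + 1 := by
    rw [show 5 * (4 * k + 1) - 1 = 4 * (5 * k + 1) by ring]
    exact Int.mul_ediv_cancel_left _ (by norm_num)
  have e2 : (19 * (4 * k + 1) ^ 2 + 1) / 2 = 152 * k ^ 2 + 76 * k + 10 := by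
    rw [show 19 * (4 * k + 1) ^ 2 + 1 = 2 * (152 * k ^ 2 + 76 * k + 10) by ring]
    exact Int.mul_ediv_cancel_left _ (by norm_num)
  have e3 : (39 * (4 * k + 1) ^ 3 + 1) / 4 = 624 * k ^ 3 + 468 * k ^ 2 + 117 * k + 10 := by
    rw [show 39 * (4 * k + 1) ^ 3 + 1 = 4 * (624 * k ^ 3 + 468 * k ^ 2 + 117 * k + 10) by ring]
    exact Int.mul_ediv_cancel_left _ (by norm_num)
  rw [e1, e2, e3]

theorem t_T3 : S_T3 := by
  intro hE _ D hD4 hD3
  obtain ⟨k, rfl⟩ : ∃ k : ℤ, D = 4 * k + 1 := ⟨D / 4, by omega⟩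
  rw [W15_eq]
  exact T35.tam3 hE hD3

end Pool.Agent.XV.T
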