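import Pool.Agent.XV.T.T3

/-!
# XV-T8-4: the Tamagawa number at `5`
-/

set_option autoImplicit false

namespace Pool.Agent.XV.T

theorem t_T5 : S_T5 := by
  intro hE _ D hD4 hD5
  obtain ⟨k, rfl⟩ : ∃ k : ℤ, D = 4 * k + 1 := ⟨D / 4, by omega⟩
  rw [W15_eq]
  exact T35.tam5 hE hD5

end Pool.Agent.XV.T
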