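import Pool.Agent.XV.T.Stm
import Pool.Agent.Y809.BSD14.E0

/-!
# Project XV, T8-6: the product of the Tamagawa numbers
-/

set_option autoImplicit false
set_option linter.style.haveILetI false

namespace Pool.Agent.XV.T

open Finset WeierstrassCurve
open Pool.Agent.Z700 (pr)
open Pool.Agent.XV (Pq Kb)
open Pool.Agent.Y700 (tamProd tam S_E0)

namespace TMP

theorem pf15 : (50625 : ℕ).primeFactors = {3, 5} := by
  have e : (50625 : ℕ) = (3 * 5) ^ 4 := by norm_num
  rw [e, Nat.primeFactors_pow _ (by norm_num), Nat.primeFactors_mul (by norm_num) (by norm_num),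
    Nat.prime_three.primeFactors, Nat.prime_five.primeFactors]
  rfl

theorem sqf {N : Finset ℕ} (hN : Pq N) : Squarefree (pr N) := by
  unfold Pool.Agent.Z700.pr
  refine Finset.squarefree_prod_of_pairwise_isCoprime ?_ fun p hp => (hN p hp).1.prime.squarefree
  intro p hp q hq hpq
  exact Nat.coprime_iff_isRelPrime.1 ((Nat.coprime_primes (hN p hp).1 (hN q hq).1).2 hpq)

end TMP

/-- T8-6: the product of the Tamagawa numbers -/
theorem t_TMP (h3 : S_T3) (h5 : S_T5) (hq : S_TQ) (hm : S_MN15) : S_TMP := by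
  classical
  intro N hN hb D hD
  have tE : S_E0 := Pool.Agent.Y809.BSD14.t_E0
  have hn : pr N % 60 = 23 ∨ pr N % 60 = 47 := hb
  have h4 : D % 4 = 1 := by omega
  have hm3 : D % 3 = 1 := by omega
  have hm5 : D % 5 = 2 ∨ D % 5 = 3 := by omega
  have hN0 : pr N ≠ 0 := by omega
  have hsqN := TMP.sqf hN
  have hsq : Squarefree D := by
    rw [hD, ← Int.squarefree_natAbs, Int.natAbs_neg, Int.natAbs_natCast]
    exact hsqN
  have hΔ := (hm D h4 hsq (by omega) (by omega)).2
  have hpf : (W15 D).Δ.natAbs.primeFactors = {3, 5} ∪ N := by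
    rw [hΔ, Int.natAbs_mul, Int.natAbs_pow, hD, Int.natAbs_neg, Int.natAbs_natCast,
      Nat.primeFactors_mul (by norm_num) (pow_ne_zero _ hN0), Nat.primeFactors_pow _ (by norm_num)]
    have e1 : (Int.natAbs 50625).primeFactors = {3, 5} := TMP.pf15
    have e2 : (pr N).primeFactors = N := Nat.primeFactors_prod fun p hp => (hN p hp).1
    rw [e1, e2]
  set F : ℕ → ℕ := fun l => if h : l.Prime then (haveI := Fact.mk h; tam (W15 D) l) else 1 with hF
  have hprod : tamProd (W15 D) = F 3 * F 5 * ∏ q ∈ N, F q := by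
    have e : tamProd (W15 D) = ∏ l ∈ (W15 D).Δ.natAbs.primeFactors, F l := by
      unfold tamProd
      refine Finset.prod_congr rfl fun l _ => ?_
      simp only [hF]
    rw [e, hpf, Finset.prod_union, Finset.prod_pair (by norm_num)]
    rw [Finset.disjoint_left]
    intro l hl hl'
    simp only [Finset.mem_insert, Finset.mem_singleton] at hl
    have := hN l hl'
    omega
  have hF' : ∀ l : ℕ, ∀ (h : Fact l.Prime), F l = tam (W15 D) l := by
    intro l h
    simp only [hF]
    rw [dif_pos h.out]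
  have f3 : F 3 = 2 := by
    have i : Fact (Nat.Prime 3) := ⟨Nat.prime_three⟩
    rw [hF' 3 i]
    exact h3 tE i D h4 hm3
  have f5 : F 5 = 2 := by
    have i : Fact (Nat.Prime 5) := ⟨Nat.prime_five⟩
    rw [hF' 5 i]
    exact h5 tE i D h4 hm5
  have fN : ∀ q ∈ N, F q = 4 := by
    intro q hqN
    obtain ⟨p1, p2, p3, p5⟩ := hN q hqN
    have i : Fact q.Prime := ⟨p1⟩
    rw [hF' q i]
    have hd : (q : ℤ) ∣ D := by
      rw [hD, dvd_neg]
      exact_mod_cast Finset.dvd_prod_of_mem _ hqN
    refine hq tE D q h4 p2 p3 p5 hd ?_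
    intro h
    have h1 := hsq (q : ℤ) (by rw [← sq]; exact h)
    rw [Int.isUnit_iff] at h1
    have := p1.one_lt
    omega
  rw [hprod, f3, f5, Finset.prod_congr rfl fN, Finset.prod_const, pow_succ]
  ring

end Pool.Agent.XV.T
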