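import Pool.Agent.XV.T.Stm
import Pool.Agent.Y809.BSD14.Tam3

/-!
The Tamagawa numbers of the twists of `X_0(15)` at the primes that divide the twist.
-/

set_option autoImplicit false
set_option linter.all false

namespace Pool.Agent.XV.T

namespace TQ

open scoped Classical

open Pool.Agent.Y700 Pool.Agent.Y809.BSD14 WeierstrassCurve

section general

variable {K : Type} [Field K] [DecidableEq K]

/-- `W` is the twist of `X_0(15)` by `m` -/
structure IsW15 (W : WeierstrassCurve.Affine K) (m : K) : Prop where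
  a1 : W.a₁ = 1
  a3 : W.a₃ = 1
  a2 : 4 * W.a₂ = 5 * m - 1
  a4 : 2 * W.a₄ = -(19 * m ^ 2 + 1)
  a6 : 4 * W.a₆ = -(39 * m ^ 3 + 1)

variable {W : WeierstrassCurve.Affine K} {m : K}

theorem IsW15.eqn (h : IsW15 W m) {x y : K} (hE : W.Equation x y) :
    (4 * (2 * y + x + 1)) ^ 2 = (4 * x + 13 * m) ^ 3 - 34 * m * (4 * x + 13 * m) ^ 2 +
      225 * m ^ 2 * (4 * x + 13 * m) := by
  rw [Affine.equation_iff, h.a1, h.a3] at hE
  linear_combination 64 * hE + 16 * x ^ 2 * h.a2 + 32 * x * h.a4 + 16 * h.a6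

theorem IsW15.eqn' (h : IsW15 W m) (h2 : (2 : K) ≠ 0) {x y : K}
    (hE : (4 * (2 * y + x + 1)) ^ 2 = (4 * x + 13 * m) ^ 3 - 34 * m * (4 * x + 13 * m) ^ 2 +
      225 * m ^ 2 * (4 * x + 13 * m)) : W.Equation x y := by
  rw [Affine.equation_iff, h.a1, h.a3]
  have h64 : (64 : K) ≠ 0 := by
    have : (64 : K) = 2 ^ 6 := by norm_num
    rw [this]
    exact pow_ne_zero _ h2
  apply mul_left_cancel₀ h64
  linear_combination hE - 16 * x ^ 2 * h.a2 - 32 * x * h.a4 - 16 * h.a6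

theorem IsW15.fx (h : IsW15 W m) (x y : K) : 16 * (W.a₁ * y - (3 * x ^ 2 + 2 * W.a₂ * x + W.a₄)) =
    2 * (4 * (2 * y + x + 1)) - (3 * (4 * x + 13 * m) ^ 2 - 68 * m * (4 * x + 13 * m) +
      225 * m ^ 2) := by
  rw [h.a1]
  linear_combination (-8 * x) * h.a2 - 8 * h.a4

/-- the point of order two with `X = m r` -/
theorem IsW15.nonsing (h : IsW15 W m) (h2 : (2 : K) ≠ 0) (hm : m ≠ 0) {r : K}
    (hr : r ^ 3 - 34 * r ^ 2 + 225 * r = 0) (hr' : 3 * r ^ 2 - 68 * r + 225 ≠ 0) :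
    W.Nonsingular ((m * r - 13 * m) / 4) (-((m * r - 13 * m) / 4 + 1) / 2) := by
  have h4 : (4 : K) ≠ 0 := by
    have : (4 : K) = 2 ^ 2 := by norm_num
    rw [this]
    exact pow_ne_zero _ h2
  have e1 : 4 * (2 * (-((m * r - 13 * m) / 4 + 1) / 2) + ((m * r - 13 * m) / 4) + 1) = 0 := by
    field_simp
    ring
  have e2 : 4 * ((m * r - 13 * m) / 4) + 13 * m = m * r := by
    field_simp
    ring
  rw [Affine.nonsingular_iff]
  constructor
  · apply h.eqn' h2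
    rw [e1, e2]
    linear_combination (-m ^ 3) * hr
  · left
    intro he
    have := h.fx ((m * r - 13 * m) / 4) (-((m * r - 13 * m) / 4 + 1) / 2)
    rw [e1, e2, he, sub_self, mul_zero] at this
    have h5 : m ^ 2 * (3 * r ^ 2 - 68 * r + 225) = 0 := by linear_combination this
    rcases mul_eq_zero.1 h5 with h6 | h6
    · exact hm (pow_eq_zero_iff (two_ne_zero) |>.1 h6)
    · exact hr' h6

theorem IsW15.two_tors (h : IsW15 W m) {x y : K} (hT : W.Nonsingular x y)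
    (hy : 2 * y + x + 1 = 0) :
    (Affine.Point.some x y hT : W.Point) + Affine.Point.some x y hT = 0 := by
  apply Affine.Point.add_self_of_Y_eq
  rw [Affine.negY, h.a1, h.a3]
  linear_combination hy

theorem IsW15.eq_of_x (h : IsW15 W m) (h2 : (2 : K) ≠ 0) {x y y' : K} (hT : W.Nonsingular x y)
    (hy : 2 * y + x + 1 = 0) (hP : W.Nonsingular x y') : y' = y := by
  have e1 := h.eqn hT.1
  have e2 := h.eqn hP.1
  rw [← e1, hy] at e2
  have h4 : (4 : K) ≠ 0 := by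
    have : (4 : K) = 2 ^ 2 := by norm_num
    rw [this]
    exact pow_ne_zero _ h2
  have e3 : 4 * (2 * y' + x + 1) = 0 := by
    have : (4 * (2 * y' + x + 1)) ^ 2 = 0 := by rw [e2]; ring
    exact pow_eq_zero_iff (two_ne_zero) |>.1 this
  rcases mul_eq_zero.1 e3 with h6 | h6
  · exact absurd h6 h4
  · apply mul_left_cancel₀ h2
    linear_combination h6 - hy

theorem IsW15.add_T (h : IsW15 W m) {x y xT yT : K} (hP : W.Nonsingular x y)
    (hT : W.Nonsingular xT yT) (hy : 2 * yT + xT + 1 = 0) (hx : x ≠ xT) (h2 : (2 : K) ≠ 0) :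
    ∃ (x3 y3 : K) (h3 : W.Nonsingular x3 y3),
      (Affine.Point.some x y hP : W.Point) + Affine.Point.some xT yT hT =
        Affine.Point.some x3 y3 h3 ∧
      ((4 * x3 + 13 * m) - (4 * xT + 13 * m)) * ((4 * x + 13 * m) - (4 * xT + 13 * m)) =
        3 * (4 * xT + 13 * m) ^ 2 - 68 * m * (4 * xT + 13 * m) + 225 * m ^ 2 := by
  have hxy : ¬(x = xT ∧ y = W.negY xT yT) := fun hh => hx hh.1
  refine ⟨_, _, Affine.nonsingular_add hP hT hxy, Affine.Point.add_some hxy, ?_⟩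
  set l := W.slope x xT y yT with hl
  have h0 : x - xT ≠ 0 := sub_ne_zero.2 hx
  have hl2 : l = (y - yT) / (x - xT) := Affine.slope_of_X_ne hx
  have hl3 : l * (x - xT) = y - yT := by rw [hl2, div_mul_cancel₀ _ h0]
  rw [Affine.addX, h.a1]
  obtain ⟨L, hL⟩ : ∃ L : K, L = 2 * l + 1 := ⟨_, rfl⟩
  obtain ⟨X, hX⟩ : ∃ X : K, X = 4 * x + 13 * m := ⟨_, rfl⟩
  obtain ⟨e, he⟩ : ∃ e : K, e = 4 * xT + 13 * m := ⟨_, rfl⟩
  obtain ⟨Y, hY⟩ : ∃ Y : K, Y = 4 * (2 * y + x + 1) := ⟨_, rfl⟩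
  have hLX : L * (X - e) = Y := by
    rw [hL, hX, he, hY]
    linear_combination 8 * hl3 - 4 * hy
  have e1 := h.eqn hP.1
  have e2 := h.eqn hT.1
  rw [← hY, ← hX] at e1
  rw [hy, mul_zero, ← he] at e2
  have hXe : X - e ≠ 0 := by
    rw [hX, he]
    have : 4 * x + 13 * m - (4 * xT + 13 * m) = 2 ^ 2 * (x - xT) := by ring
    rw [this]
    exact mul_ne_zero (pow_ne_zero _ h2) h0
  have e3 : L ^ 2 * (X - e) = X ^ 2 + (-34 * m + e) * X + (e ^ 2 - 34 * m * e + 225 * m ^ 2) := by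
    apply mul_right_cancel₀ hXe
    rw [← hLX] at e1
    linear_combination e1 - e2
  rw [← hX, ← he]
  have e4 : 4 * (l ^ 2 + 1 * l - W.a₂ - x - xT) + 13 * m = L ^ 2 + 34 * m - X - e := by
    rw [hL, hX, he]
    linear_combination -h.a2
  rw [e4]
  linear_combination e3

end general

section

variable (q : ℕ) [Fact q.Prime]

theorem isW15 (M : ℤ) (hM : M % 4 = 1) :
    IsW15 ((W15 M).map (Int.castRingHom ℚ_[q])).toAffine (M : ℚ_[q]) := by
  obtain ⟨k, rfl⟩ : ∃ k, M = 4 * k + 1 := ⟨M / 4, by omega⟩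
  have e2 : (5 * (4 * k + 1) - 1) / 4 = 5 * k + 1 := by omega
  have e4 : (19 * (4 * k + 1) ^ 2 + 1) / 2 = 152 * k ^ 2 + 76 * k + 10 := by
    have : 19 * (4 * k + 1) ^ 2 + 1 = 2 * (152 * k ^ 2 + 76 * k + 10) := by ring
    rw [this]
    exact Int.mul_ediv_cancel_left _ (by norm_num)
  have e6 : (39 * (4 * k + 1) ^ 3 + 1) / 4 = 624 * k ^ 3 + 468 * k ^ 2 + 117 * k + 10 := by
    have : 39 * (4 * k + 1) ^ 3 + 1 = 4 * (624 * k ^ 3 + 468 * k ^ 2 + 117 * k + 10) := by ring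
    rw [this]
    exact Int.mul_ediv_cancel_left _ (by norm_num)
  refine ⟨?_, ?_, ?_, ?_, ?_⟩
  · show (((1 : ℤ)) : ℚ_[q]) = 1
    norm_num
  · show (((1 : ℤ)) : ℚ_[q]) = 1
    norm_num
  · show 4 * ((((5 * (4 * k + 1) - 1) / 4 : ℤ)) : ℚ_[q]) = _
    rw [e2]
    push_cast
    ring
  · show 2 * (((-((19 * (4 * k + 1) ^ 2 + 1) / 2) : ℤ)) : ℚ_[q]) = _
    rw [e4]
    push_cast
    ring
  · show 4 * (((-((39 * (4 * k + 1) ^ 3 + 1) / 4) : ℤ)) : ℚ_[q]) = _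
    rw [e6]
    push_cast
    ring

end

section

variable {q : ℕ} [Fact q.Prime] {M : ℤ} (hM4 : M % 4 = 1) (hq2 : q ≠ 2)
  (hM : ‖(M : ℚ_[q])‖ = (q : ℝ)⁻¹)

include hM4 hq2 hM in
theorem sing_of {x y : ℚ_[q]} (hE : ((W15 M).map (Int.castRingHom ℚ_[q])).toAffine.Equation x y)
    (hX : ‖4 * x + 13 * M‖ < 1) : SingRed (W15 M) q x y := by
  have hW := isW15 q M hM4
  have e1 := hW.eqn hE
  set X := 4 * x + 13 * (M : ℚ_[q]) with hXd
  set Y := 4 * (2 * y + x + 1) with hYd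
  have hm := M_lt hM
  have n13 : ‖(13 : ℚ_[q])‖ ≤ 1 := by exact_mod_cast nnat (K := ℚ_[q]) 13
  have n34 : ‖(34 : ℚ_[q])‖ ≤ 1 := by exact_mod_cast nnat (K := ℚ_[q]) 34
  have n68 : ‖(68 : ℚ_[q])‖ ≤ 1 := by exact_mod_cast nnat (K := ℚ_[q]) 68
  have n225 : ‖(225 : ℚ_[q])‖ ≤ 1 := by exact_mod_cast nnat (K := ℚ_[q]) 225
  have hY : ‖Y‖ < 1 := by
    have h1 : ‖Y ^ 2‖ < 1 := by
      rw [e1]
      have e : X ^ 3 - 34 * M * X ^ 2 + 225 * M ^ 2 * X = (X ^ 2 - 34 * M * X + 225 * M ^ 2) * X := by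
        ring
      rw [e]
      exact lmul (nadd (nsub (npow hX.le 2) (nmul (nmul n34 hm.le) hX.le)) (nmul n225 (npow hm.le 2))) hX
    rw [norm_pow] at h1
    by_contra h
    rw [not_lt] at h
    have := one_le_pow₀ h (n := 2)
    linarith
  have hx : ‖x‖ < 1 := by
    have h1 : ‖4 * x‖ = ‖x‖ := by rw [norm_mul, norm4 hq2, one_mul]
    rw [← h1]
    have : 4 * x = X - 13 * M := by rw [hXd]; ring
    rw [this]
    exact lsub hX (lmul n13 hm)
  have hy : ‖2 * y + x + 1‖ < 1 := by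
    have h1 : ‖Y‖ = ‖2 * y + x + 1‖ := by rw [hYd, norm_mul, norm4 hq2, one_mul]
    rw [← h1]
    exact hY
  have hx1 : ‖x‖ ≤ 1 := hx.le
  have hy1 : ‖y‖ ≤ 1 := by
    have h1 : ‖2 * y‖ = ‖y‖ := by rw [norm_mul, norm2 hq2, one_mul]
    rw [← h1]
    have : 2 * y = (2 * y + x + 1) - x - 1 := by ring
    rw [this]
    exact nsub (nsub hy.le hx1) norm_one.le
  refine ⟨hx1, hy1, ?_, ?_⟩
  · have e2 := hW.fx x y
    have h1 : ‖16 * (((W15 M).map (Int.castRingHom ℚ_[q])).toAffine.a₁ * y - (3 * x ^ 2 + 2 *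
      ((W15 M).map (Int.castRingHom ℚ_[q])).toAffine.a₂ * x +
      ((W15 M).map (Int.castRingHom ℚ_[q])).toAffine.a₄))‖ < 1 := by
      rw [e2]
      have hm2 : ‖(M : ℚ_[q]) ^ 2‖ < 1 := by
        rw [pow_two]
        exact lmul hm.le hm
      have hX2 : ‖X ^ 2‖ < 1 := by
        rw [pow_two]
        exact lmul hX.le hX
      exact lsub (lmul n2 hY) (ladd (lsub (lmul n3 hX2) (lmul (nmul n68 hm.le) hX)) (lmul n225 hm2))
    rw [norm_mul, norm16 hq2, one_mul] at h1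
    exact h1
  · show ‖2 * y + (((1 : ℤ)) : ℚ_[q]) * x + (((1 : ℤ)) : ℚ_[q])‖ < 1
    rw [Int.cast_one, one_mul]
    exact hy

include hM4 hq2 hM in
theorem of_sing {x y : ℚ_[q]} (hE : ((W15 M).map (Int.castRingHom ℚ_[q])).toAffine.Equation x y)
    (hs : SingRed (W15 M) q x y) : ‖4 * x + 13 * M‖ < 1 := by
  have hW := isW15 q M hM4
  have e1 := hW.eqn hE
  set X := 4 * x + 13 * (M : ℚ_[q]) with hXd
  set Y := 4 * (2 * y + x + 1) with hYd
  have hm := M_lt hM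
  obtain ⟨hx, hy, -, hfy⟩ := hs
  have hfy' : ‖2 * y + x + 1‖ < 1 := by
    have : 2 * y + x + 1 = 2 * y + (((1 : ℤ)) : ℚ_[q]) * x + (((1 : ℤ)) : ℚ_[q]) := by
      rw [Int.cast_one, one_mul]
    rw [this]
    exact hfy
  have n4 : ‖(4 : ℚ_[q])‖ ≤ 1 := (norm4 hq2).le
  have n13 : ‖(13 : ℚ_[q])‖ ≤ 1 := by exact_mod_cast nnat (K := ℚ_[q]) 13
  have n34 : ‖(34 : ℚ_[q])‖ ≤ 1 := by exact_mod_cast nnat (K := ℚ_[q]) 34
  have n225 : ‖(225 : ℚ_[q])‖ ≤ 1 := by exact_mod_cast nnat (K := ℚ_[q]) 225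
  have hY : ‖Y‖ < 1 := lmul n4 hfy'
  have hX : ‖X‖ ≤ 1 := nadd (nmul n4 hx) (nmul n13 hm.le)
  have h3 : ‖X ^ 3‖ < 1 := by
    have e : X ^ 3 = Y * Y + (34 * X ^ 2 - 225 * M * X) * M := by
      linear_combination -e1
    rw [e]
    exact ladd (lmul hY.le hY) (lmul (nsub (nmul n34 (npow hX 2)) (nmul (nmul n225 hm.le) hX)) hm)
  rw [norm_pow] at h3
  by_contra h
  rw [not_lt] at h
  have := one_le_pow₀ h (n := 3)
  linarith

include hM4 hq2 hM in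
/-- the parameter of a point with singular reduction -/
theorem par_of_sing {x y : ℚ_[q]}
    (hE : ((W15 M).map (Int.castRingHom ℚ_[q])).toAffine.Equation x y)
    (hs : SingRed (W15 M) q x y) : ∃ t : ℚ_[q], 4 * x + 13 * M = M * t ∧ ‖t‖ ≤ 1 ∧
      ‖t ^ 3 - 34 * t ^ 2 + 225 * t‖ < 1 := by
  have hX := of_sing hM4 hq2 hM hE hs
  have e1 := (isW15 q M hM4).eqn hE
  have hm0 := M_ne hM
  have hmp := M_pos hM
  obtain ⟨t, ht⟩ : ∃ t : ℚ_[q], 4 * x + 13 * M = M * t :=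
    ⟨(4 * x + 13 * M) / M, by rw [mul_div_cancel₀ _ hm0]⟩
  have ht1 : ‖t‖ ≤ 1 := by
    have h1 := norm_le_inv q hX
    rw [ht, norm_mul, ← hM] at h1
    by_contra h
    rw [not_le] at h
    nlinarith
  refine ⟨t, ht, ht1, ?_⟩
  rw [ht] at e1
  have n34 : ‖(34 : ℚ_[q])‖ ≤ 1 := by exact_mod_cast nnat (K := ℚ_[q]) 34
  have n225 : ‖(225 : ℚ_[q])‖ ≤ 1 := by exact_mod_cast nnat (K := ℚ_[q]) 225
  have h2 : ‖t ^ 3 - 34 * t ^ 2 + 225 * t‖ ≤ 1 :=
    nadd (nsub (npow ht1 3) (nmul n34 (npow ht1 2))) (nmul n225 ht1)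
  refine lt_of_le_of_ne h2 fun h3 => ?_
  apply parity q (4 * (2 * y + x + 1))
  rw [← norm_pow, e1, ← hM]
  have e : ((M : ℚ_[q]) * t) ^ 3 - 34 * M * (M * t) ^ 2 + 225 * M ^ 2 * (M * t) =
    M ^ 3 * (t ^ 3 - 34 * t ^ 2 + 225 * t) := by ring
  rw [e, norm_mul, h3, mul_one, norm_pow]

include hM4 hq2 hM in
/-- the point of order two that corresponds to the root `r` -/
theorem Tex (hE0 : S_E0) {r : ℚ_[q]} (hr : r ^ 3 - 34 * r ^ 2 + 225 * r = 0)
    (hr1 : ‖r‖ ≤ 1) (hr' : ‖3 * r ^ 2 - 68 * r + 225‖ = 1) :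
    ∃ T : PtP (W15 M) q, T + T = 0 ∧ T ∉ E0 (W15 M) q ∧
      (∃ x y h, T = .some x y h ∧ 4 * x + 13 * M = M * r) ∧
      ∀ (x y : ℚ_[q]) h (t : ℚ_[q]), 4 * x + 13 * M = M * t → ‖t‖ ≤ 1 →
        (‖t - r‖ < 1 → .some x y h + T ∈ E0 (W15 M) q) ∧
        (‖t - r‖ = 1 → .some x y h + T ∉ E0 (W15 M) q) := by
  have hW := isW15 q M hM4
  have hm0 := M_ne hM
  have hmp := M_pos hM
  have hml := M_lt hM
  have hr0 : 3 * r ^ 2 - 68 * r + 225 ≠ 0 := by
    rw [← norm_pos_iff, hr']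
    norm_num
  have hT := hW.nonsing K2 hm0 hr hr0
  have e1 : 2 * (-(((M : ℚ_[q]) * r - 13 * M) / 4 + 1) / 2) + ((M * r - 13 * M) / 4) + 1 = 0 := by
    ring
  have e2 : 4 * (((M : ℚ_[q]) * r - 13 * M) / 4) + 13 * M = M * r := by
    ring
  set xT := ((M : ℚ_[q]) * r - 13 * M) / 4 with hxT
  set yT := -(xT + 1) / 2 with hyT
  have hTs : SingRed (W15 M) q xT yT := by
    apply sing_of hM4 hq2 hM hT.1
    rw [e2]
    exact lmul' hml hr1
  refine ⟨.some xT yT hT, hW.two_tors hT e1, ?_, ⟨xT, yT, hT, rfl, e2⟩, ?_⟩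
  · intro h
    exact (hE0 (W15 M) q _).1 h xT yT hT rfl hTs
  · intro x y hP t ht ht1
    rcases eq_or_ne x xT with hx | hx
    · have htr : t = r := by
        apply mul_left_cancel₀ hm0
        rw [← ht, ← e2, hx]
      constructor
      · intro _
        subst hx
        have := hW.eq_of_x K2 hT e1 hP
        subst this
        rw [hW.two_tors hT e1]
        exact AddSubgroup.zero_mem _
      · intro h
        rw [htr, sub_self, norm_zero] at h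
        norm_num at h
    · obtain ⟨x3, y3, h3, e3, e4⟩ := hW.add_T hP hT e1 hx K2
      rw [e3]
      rw [ht, e2] at e4
      have htr0 : t - r ≠ 0 := by
        intro h
        apply hx
        have : (4 : ℚ_[q]) * x = 4 * xT := by
          linear_combination ht - e2 + (M : ℚ_[q]) * h
        have h4 : (4 : ℚ_[q]) ≠ 0 := by norm_num
        exact mul_left_cancel₀ h4 this
      have e5 : (4 * x3 + 13 * M - M * r) * (t - r) = M * (3 * r ^ 2 - 68 * r + 225) := by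
        apply mul_left_cancel₀ hm0
        linear_combination e4
      have e6 : ‖4 * x3 + 13 * M - M * r‖ * ‖t - r‖ = (q : ℝ)⁻¹ := by
        rw [← norm_mul, e5, norm_mul, hr', mul_one, hM]
      constructor
      · intro h
        apply AddSubgroup.subset_closure
        intro x' y' h' he
        obtain ⟨rfl, rfl⟩ := Affine.Point.some.inj he
        intro hs
        have h5 := of_sing hM4 hq2 hM h3.1 hs
        have h6 : ‖4 * x3 + 13 * M - M * r‖ < 1 := lsub h5 (lmul' hml hr1)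
        have h7 := norm_le_inv q h
        have h8 : 0 < ‖t - r‖ := norm_pos_iff.2 htr0
        have h9 : ‖4 * x3 + 13 * M - M * r‖ * ‖t - r‖ < 1 * ‖t - r‖ :=
          mul_lt_mul_of_pos_right h6 h8
        rw [e6, one_mul] at h9
        exact absurd h7 (not_le.2 h9)
      · intro h h'
        rw [h, mul_one, ← hM] at e6
        apply (hE0 (W15 M) q _).1 h' x3 y3 h3 rfl
        apply sing_of hM4 hq2 hM h3.1
        have : 4 * x3 + 13 * (M : ℚ_[q]) = (4 * x3 + 13 * M - M * r) + M * r := by ring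
        rw [this]
        exact ladd (by rw [e6]; exact hml) (lmul' hml hr1)

end

end TQ

open Pool.Agent.Y700 Pool.Agent.Y809.BSD14 in
theorem t_TQ : S_TQ := by
  classical
  intro hE0 M q _ hM4 hq2 hq3 hq5 h1 h2
  have hM := norm_M q h1 h2
  have n3 : ‖(3 : ℚ_[q])‖ = 1 := by
    have : ‖((3 : ℕ) : ℚ_[q])‖ = 1 :=
      norm_nat_eq_one q ((Nat.coprime_primes Fact.out (by norm_num)).2 hq3)
    exact_mod_cast this
  have n5 : ‖(5 : ℚ_[q])‖ = 1 := by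
    have : ‖((5 : ℕ) : ℚ_[q])‖ = 1 :=
      norm_nat_eq_one q ((Nat.coprime_primes Fact.out (by norm_num)).2 hq5)
    exact_mod_cast this
  have n2 : ‖(2 : ℚ_[q])‖ = 1 := norm2 hq2
  have hpr : ∀ a b c : ℕ, ‖((2 : ℚ_[q])) ^ a * 3 ^ b * 5 ^ c‖ = 1 := by
    intro a b c
    rw [norm_mul, norm_mul, norm_pow, norm_pow, norm_pow, n2, n3, n5]
    norm_num
  have n9 : ‖(9 : ℚ_[q])‖ = 1 := by
    have := hpr 0 2 0
    norm_num at this
    exact this
  have n25 : ‖(25 : ℚ_[q])‖ = 1 := by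
    have := hpr 0 0 2
    norm_num at this
    exact this
  have n16 : ‖(16 : ℚ_[q])‖ = 1 := norm16 hq2
  have q0 : (0 : ℚ_[q]) ^ 3 - 34 * 0 ^ 2 + 225 * 0 = 0 := by norm_num
  have q1 : (9 : ℚ_[q]) ^ 3 - 34 * 9 ^ 2 + 225 * 9 = 0 := by norm_num
  have q2 : (25 : ℚ_[q]) ^ 3 - 34 * 25 ^ 2 + 225 * 25 = 0 := by norm_num
  have p0 : ‖3 * (0 : ℚ_[q]) ^ 2 - 68 * 0 + 225‖ = 1 := by
    have : 3 * (0 : ℚ_[q]) ^ 2 - 68 * 0 + 225 = 2 ^ 0 * 3 ^ 2 * 5 ^ 2 := by norm_num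
    rw [this, hpr]
  have p1 : ‖3 * (9 : ℚ_[q]) ^ 2 - 68 * 9 + 225‖ = 1 := by
    have : 3 * (9 : ℚ_[q]) ^ 2 - 68 * 9 + 225 = -(2 ^ 4 * 3 ^ 2 * 5 ^ 0) := by norm_num
    rw [this, norm_neg, hpr]
  have p2 : ‖3 * (25 : ℚ_[q]) ^ 2 - 68 * 25 + 225‖ = 1 := by
    have : 3 * (25 : ℚ_[q]) ^ 2 - 68 * 25 + 225 = 2 ^ 4 * 3 ^ 0 * 5 ^ 2 := by norm_num
    rw [this, hpr]
  obtain ⟨T0, a0, b0, ⟨x0, y0, g0, c0, d0⟩, e0⟩ :=
    TQ.Tex hM4 hq2 hM hE0 q0 (by rw [norm_zero]; norm_num) p0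
  obtain ⟨T1, a1, b1, ⟨x1, y1, g1, c1, d1⟩, e1⟩ := TQ.Tex hM4 hq2 hM hE0 q1 n9.le p1
  obtain ⟨T2, a2, b2, ⟨x2, y2, g2, c2, d2⟩, e2⟩ := TQ.Tex hM4 hq2 hM hE0 q2 n25.le p2
  have m01 : T0 + T1 ∉ E0 (W15 M) q := by
    rw [c0]
    refine (e1 x0 y0 g0 0 d0 (by rw [norm_zero]; norm_num)).2 ?_
    rw [zero_sub, norm_neg, n9]
  have m02 : T0 + T2 ∉ E0 (W15 M) q := by
    rw [c0]
    refine (e2 x0 y0 g0 0 d0 (by rw [norm_zero]; norm_num)).2 ?_
    rw [zero_sub, norm_neg, n25]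
  have m12 : T1 + T2 ∉ E0 (W15 M) q := by
    rw [c1]
    refine (e2 x1 y1 g1 9 d1 n9.le).2 ?_
    have : (9 : ℚ_[q]) - 25 = -16 := by norm_num
    rw [this, norm_neg, n16]
  have m10 : T1 + T0 ∉ E0 (W15 M) q := by rwa [add_comm]
  have m20 : T2 + T0 ∉ E0 (W15 M) q := by rwa [add_comm]
  have m21 : T2 + T1 ∉ E0 (W15 M) q := by rwa [add_comm]
  rw [tam]
  apply index_of (E0 (W15 M) q) ![0, T0, T1, T2]
  · intro i
    fin_cases i
    · exact add_zero _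
    · exact a0
    · exact a1
    · exact a2
  · intro P
    by_cases hP : P ∈ E0 (W15 M) q
    · exact ⟨0, by simpa using hP⟩
    rw [hE0] at hP
    push Not at hP
    obtain ⟨x, y, h, rfl, hs'⟩ := hP
    obtain ⟨t, ht, ht1, ht2⟩ := TQ.par_of_sing hM4 hq2 hM h.1 hs'
    have hor : ‖t - 0‖ < 1 ∨ ‖t - 9‖ < 1 ∨ ‖t - 25‖ < 1 := by
      by_contra hcon
      rw [not_or, not_or, not_lt, not_lt, not_lt] at hcon
      obtain ⟨g3, g4, g5⟩ := hcon
      have : t ^ 3 - 34 * t ^ 2 + 225 * t = (t - 0) * ((t - 9) * (t - 25)) := by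
        ring
      rw [this, norm_mul, norm_mul] at ht2
      have h5 : 1 ≤ ‖t - 9‖ * ‖t - 25‖ := one_le_mul_of_one_le_of_one_le g4 g5
      have h6 := one_le_mul_of_one_le_of_one_le g3 h5
      linarith
    rcases hor with h3 | h3 | h3
    · exact ⟨1, (e0 x y h t ht ht1).1 h3⟩
    · exact ⟨2, (e1 x y h t ht ht1).1 h3⟩
    · exact ⟨3, (e2 x y h t ht ht1).1 h3⟩
  · intro i j hij
    fin_cases i <;> fin_cases j <;> first | rfl | (exfalso; simp at hij; first | exact b0 hij | exact b1 hij | exact b2 hij | exact m01 hij | exact m02 hij | exact m12 hij | exact m10 hij | exact m20 hij | exact m21 hij)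

end Pool.Agent.XV.T
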