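import Pool.Agent.XV.T.Out
import Pool.Agent.XV.T.Core
import Pool.Agent.XV.T.CT
import Pool.Agent.XV.T.S1
import Pool.Agent.XV.T.S2
import Pool.Agent.XV.T.LIN
import Pool.Agent.XV.T.TOF
import Pool.Agent.XV.T.LOC
import Pool.Agent.XV.T.TRV
import Pool.Agent.XV.T.Min
import Pool.Agent.XV.T.TQ
import Pool.Agent.XV.T.T3
import Pool.Agent.XV.T.T5
import Pool.Agent.XV.T.TMP
import Pool.Agent.XV.T.Inc
import Pool.Agent.XV.MT.Sk2
import Pool.Agent.XV.MT.AP15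
import Pool.Agent.XV.MT.LV15
import Pool.Agent.XV.MT.SY15

/-!
# Project XV: the final statement, up to `S_CS` and `S_OM15`
-/

set_option autoImplicit false

namespace Pool.Agent.XV.T

theorem part (hCS : S_CS) (hOM : MT.S_OM15) : S_OUT := by
  have hMod : S_MOD := MT.mod_of MT.t_AP15 MT.t_DEL15 hOM MT.t_LV15 MT.t_SY15 MT.t_LAT MT.t_MIN
    t_CM MT.a_prim MT.a_ii MT.a_xl fun L g2 g3 => ⟨MT.a_int L g2 g3, MT.a_opt L g2 g3⟩
  have hDsc : S_DSC := dsc_of hCS t_CT t_S1 t_S2 t_LIN t_TOF (t_LOC t_LGF)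
  exact out_of f_MAIN u_V5 f_E56 hMod hDsc t_TRV t_MN15 (t_TMP t_T3 t_T5 t_TQ t_MN15) t_TS4 t_INC

end Pool.Agent.XV.T
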