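import Pool.Agent.XV.T.Asm

/-!
# The Rédei criterion in terms of divisors
-/

set_option autoImplicit false
set_option linter.style.haveILetI false

namespace Pool.Agent.XV.T

open Finset
open Pool.Agent.Z700 (pr)
open Pool.Agent.XV (Pq Kb gen Kr SyM)

/-- for every decomposition `n = a b`: if `b` is a square modulo all the prime factors of `a` and `a` is a
square modulo all the prime factors of `b`, then `a = 1` or `b = 1` -/
def Redei (n : ℕ) : Prop := ∀ a b : ℕ, a * b = n →
  (∀ p : ℕ, p.Prime → p ∣ a → IsSquare (b : ZMod p)) →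
  (∀ p : ℕ, p.Prime → p ∣ b → IsSquare (a : ZMod p)) → a = 1 ∨ b = 1

theorem jac_sq {p : ℕ} (hp : p.Prime) {m : ℕ} (hm : ¬ p ∣ m) :
    jacobiSym (m : ℤ) p = 1 ↔ IsSquare (m : ZMod p) := by
  haveI : Fact p.Prime := ⟨hp⟩
  rw [← jacobiSym.legendreSym.to_jacobiSym]
  have h0 : ((m : ℤ) : ZMod p) ≠ 0 := by
    rw [Int.cast_natCast, Ne, ZMod.natCast_eq_zero_iff]
    exact hm
  rw [legendreSym.eq_one_iff p h0, Int.cast_natCast]

theorem pr_pf {n : ℕ} (h : Squarefree n) : pr n.primeFactors = n :=
  Nat.prod_primeFactors_of_squarefree h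

theorem not_dvd_pr {J : Finset ℕ} (hJ : ∀ p ∈ J, p.Prime) {p : ℕ} (hp : p.Prime) (h : p ∉ J) :
    ¬ p ∣ pr J := by
  intro hd
  obtain ⟨q, hq, hpq⟩ := (Nat.Prime.prime hp).exists_mem_finset_dvd hd
  rw [Nat.prime_dvd_prime_iff_eq hp (hJ q hq)] at hpq
  exact h (hpq ▸ hq)

theorem kr_redei {n : ℕ} (hn : Squarefree n) (hN : Pq n.primeFactors) :
    Kr n.primeFactors ↔ Redei n := by
  have hP : ∀ p ∈ n.primeFactors, p.Prime := fun p hp => (hN p hp).1
  constructor
  · intro h a b hab h1 h2
    have hn0 : n ≠ 0 := hn.ne_zero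
    have ha0 : a ≠ 0 := by rintro rfl; exact hn0 (by rw [← hab, zero_mul])
    have hb0 : b ≠ 0 := by rintro rfl; exact hn0 (by rw [← hab, mul_zero])
    have hcop : Nat.Coprime a b := by
      rw [← hab] at hn
      exact Nat.coprime_of_squarefree_mul hn
    have hsa : Squarefree a := hn.squarefree_of_dvd ⟨b, hab.symm⟩
    have hsb : Squarefree b := hn.squarefree_of_dvd ⟨a, by rw [mul_comm]; exact hab.symm⟩
    have hpf : n.primeFactors = a.primeFactors ∪ b.primeFactors := by
      rw [← hab, Nat.primeFactors_mul ha0 hb0]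
    have hdis : Disjoint a.primeFactors b.primeFactors := hcop.disjoint_primeFactors
    have hsd : n.primeFactors \ a.primeFactors = b.primeFactors := by
      rw [hpf, Finset.union_sdiff_left, Finset.sdiff_eq_self_of_disjoint hdis.symm]
    have hsub : a.primeFactors ⊆ n.primeFactors := by rw [hpf]; exact Finset.subset_union_left
    have hg : ∀ p ∈ n.primeFactors, gen n.primeFactors a.primeFactors p = 1 := by
      intro p hp
      have hpp := hP p hp
      unfold gen
      split_ifs with hpa
      · rw [hsd, pr_pf hsb]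
        have hnb : ¬ p ∣ b := fun hd => Finset.disjoint_left.1 hdis hpa
          (Nat.mem_primeFactors.2 ⟨hpp, hd, hb0⟩)
        exact (jac_sq hpp hnb).2 (h1 p hpp (Nat.dvd_of_mem_primeFactors hpa))
      · rw [pr_pf hsa]
        have hna : ¬ p ∣ a := fun hd => hpa (Nat.mem_primeFactors.2 ⟨hpp, hd, ha0⟩)
        have hpb : p ∣ b := by
          have h3 : p ∣ a * b := by rw [hab]; exact Nat.dvd_of_mem_primeFactors hp
          exact (hpp.dvd_mul.1 h3).resolve_left hna
        exact (jac_sq hpp hna).2 (h2 p hpp hpb)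
    rcases h a.primeFactors hsub hg with h3 | h3
    · left
      have := pr_pf hsa
      rw [h3] at this
      simpa [pr] using this.symm
    · right
      have h4 : b.primeFactors = ∅ := by
        rw [← hsd, h3, Finset.sdiff_self]
      have := pr_pf hsb
      rw [h4] at this
      simpa [pr] using this.symm
  · intro h D hD hg
    have e1 : pr D * pr (n.primeFactors \ D) = n := by
      unfold pr
      rw [mul_comm, Finset.prod_sdiff hD]
      exact Nat.prod_primeFactors_of_squarefree hn
    have hDp : ∀ p ∈ D, p.Prime := fun p hp => hP p (hD hp)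
    have hDp' : ∀ p ∈ n.primeFactors \ D, p.Prime := fun p hp => hP p (Finset.sdiff_subset hp)
    rcases h (pr D) (pr (n.primeFactors \ D)) e1 (by
      intro p hp hd
      have hpD : p ∈ D := by
        by_contra hne
        exact not_dvd_pr hDp hp hne hd
      have h1 := hg p (hD hpD)
      unfold gen at h1
      rw [if_pos hpD] at h1
      exact (jac_sq hp (not_dvd_pr hDp' hp fun h => (Finset.mem_sdiff.1 h).2 hpD)).1 h1) (by
      intro p hp hd
      have hpD : p ∈ n.primeFactors \ D := by
        by_contra hne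
        exact not_dvd_pr hDp' hp hne hd
      have h1 := hg p (Finset.sdiff_subset hpD)
      unfold gen at h1
      rw [if_neg (Finset.mem_sdiff.1 hpD).2] at h1
      exact (jac_sq hp (not_dvd_pr hDp hp (Finset.mem_sdiff.1 hpD).2)).1 h1) with h2 | h2
    · left
      by_contra hne
      obtain ⟨p, hp⟩ := Finset.nonempty_iff_ne_empty.2 hne
      have : p ∣ pr D := Finset.dvd_prod_of_mem _ hp
      rw [h2] at this
      exact (hDp p hp).one_lt.ne' (Nat.dvd_one.1 this)
    · right
      by_contra hne
      have : (n.primeFactors \ D).Nonempty := by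
        rw [Finset.nonempty_iff_ne_empty]
        intro h3
        exact hne (Finset.Subset.antisymm hD (Finset.sdiff_eq_empty_iff_subset.1 h3))
      obtain ⟨p, hp⟩ := this
      have h4 : p ∣ pr (n.primeFactors \ D) := Finset.dvd_prod_of_mem _ hp
      rw [h2] at h4
      exact (hDp' p hp).one_lt.ne' (Nat.dvd_one.1 h4)

end Pool.Agent.XV.T
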